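import Pool.Agent.WE.Defs

set_option autoImplicit false

namespace Pool.Agent.WE

open Classical Finset

noncomputable section

theorem bet_two (k d : ℕ) (h1 : 1 ≤ d) (_h2 : d ≤ k) :
    (k : ℝ) - d + bet 2 d ≤ k - 1 + Real.sqrt 5 := by
  have hd : (1 : ℝ) ≤ d := by exact_mod_cast h1
  have h5 : 2 < Real.sqrt 5 := by
    rw [Real.lt_sqrt (by norm_num)]
    norm_num
  have hs : Real.sqrt 5 * Real.sqrt 5 = 5 := Real.mul_self_sqrt (by norm_num)
  have h : bet 2 d ≤ d - 1 + Real.sqrt 5 := by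
    unfold bet
    apply max_le
    · rw [Real.sqrt_le_left (by linarith)]
      push_cast
      nlinarith [mul_nonneg (sub_nonneg.2 hd) (sub_nonneg.2 h5.le)]
    · push_cast
      linarith
  linarith

theorem bet_three (a k d : ℕ) (ha : 3 ≤ a) (h1 : 1 ≤ d) (_h2 : d ≤ k) :
    (k : ℝ) - d + bet a d ≤ k + a - 1 := by
  have hd : (1 : ℝ) ≤ d := by exact_mod_cast h1
  have ha : (3 : ℝ) ≤ a := by exact_mod_cast ha
  have h : bet a d ≤ d + a - 1 := by
    unfold bet
    apply max_le
    · rw [Real.sqrt_le_left (by linarith)]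
      nlinarith [mul_nonneg (sub_nonneg.2 hd) (sub_nonneg.2 ha)]
    · linarith
  linarith

end

end Pool.Agent.WE
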