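import Mathlib

/-! # Typical length of minimal solutions of word equations: definitions

Page: `MP_fc7ad9_GENERIC_h21.md`. Symbols: `A ⊕ V`, letters `Sum.inl`, variables `Sum.inr`. -/

set_option autoImplicit false

namespace Pool.Agent.WE

open Classical Finset

noncomputable section

/-- substitution: letters are kept, variables are replaced -/
def ap {A V : Type} (σ : V → List A) (w : List (A ⊕ V)) : List A :=
  w.flatMap (Sum.elim (fun c => [c]) σ)

/-- length of a symbol: letters have length one -/
def wl {B V : Type} (l : V → ℕ) : B ⊕ V → ℕ := Sum.elim (fun _ => 1) l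

/-- total length of a word of symbols -/
def fl {B V : Type} (l : V → ℕ) (w : List (B ⊕ V)) : ℕ := (w.map (wl l)).sum

/-- position of the symbol with index `i` -/
def pos {B V : Type} (l : V → ℕ) (w : List (B ⊕ V)) (i : ℕ) : ℕ := fl l (w.take i)

/-- forget the letters -/
def sk {B V : Type} (w : List (B ⊕ V)) : List (Unit ⊕ V) := w.map (Sum.map (fun _ => ()) id)

/-- followers of `j`: symbols of `w` that start strictly inside the symbol `j` of `w'` -/
def blk {B B' V : Type} (l : V → ℕ) (w : List (B ⊕ V)) (w' : List (B' ⊕ V)) (j : ℕ) : Finset ℕ :=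
  (range w.length).filter (fun i => pos l w' j < pos l w i ∧ pos l w i < pos l w' (j + 1))

/-- marked: followers that are not the last one, in blocks with more than `t` followers -/
def mrk {B B' V : Type} (t : ℕ) (l : V → ℕ) (w : List (B ⊕ V)) (w' : List (B' ⊕ V)) : Finset ℕ :=
  (range w.length).filter (fun i => ∃ j, j < w'.length ∧ i ∈ blk l w w' j ∧
    pos l w (i + 1) < pos l w' (j + 1) ∧ t < (blk l w w' j).card)

/-- a letter of `w` at `i` is kept if it is marked or starts together with a letter of `w'` -/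
def kept {B B' V : Type} (M : Finset ℕ) (l : V → ℕ) (w : List (B ⊕ V)) (w' : List (B' ⊕ V))
    (i : ℕ) : Prop :=
  i ∈ M ∨ ∃ j c, pos l w' j = pos l w i ∧ w'[j]? = some (Sum.inl c)

/-- partial skeleton: letters that are not kept become `none` -/
def psk {A B' V : Type} (M : Finset ℕ) (l : V → ℕ) (w : List (A ⊕ V)) (w' : List (B' ⊕ V)) :
    List (Option A ⊕ V) :=
  w.mapIdx (fun i s => Sum.map (fun c => if kept M l w w' i then some c else none) id s)

/-- the same position pattern for words of total length `≤ n` -/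
def Eqv {V : Type} [Fintype V] (n : ℕ) (l l' : V → ℕ) : Prop :=
  ∀ (φ : V → ℤ) (c : ℤ), (∀ x, |φ x| ≤ 2 * n) → |c| ≤ 2 * n →
    (0 < ∑ x, φ x * (l x : ℤ) + c ↔ 0 < ∑ x, φ x * (l' x : ℤ) + c)

/-- equations with a non-erasing solution whose lengths have the pattern of `l`, marks `M`, `M'` -/
def Cls {A V : Type} [Fintype V] (t n : ℕ) (l : V → ℕ) (M M' : Finset ℕ)
    (e : List (A ⊕ V) × List (A ⊕ V)) : Prop :=
  e.1.length + e.2.length = n ∧ mrk t l e.1 e.2 = M ∧ mrk t l e.2 e.1 = M' ∧
    ∃ σ : V → List A, (∀ x, σ x ≠ []) ∧ ap σ e.1 = ap σ e.2 ∧ Eqv n (fun x => (σ x).length) l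

/-- the growth rate of the equations with a non-erasing solution, `a` letters, `d` variables -/
def bet (a d : ℕ) : ℝ := max (Real.sqrt ((d + 1) ^ 2 + a - 1)) (d - 1 + a)

/-! ### The objects of the theorem -/

/-- word equations over `a` letters and `k` variables -/
abbrev Eqn (a k : ℕ) : Type := List (Fin a ⊕ Fin k) × List (Fin a ⊕ Fin k)

/-- `σ` is a solution of `e` -/
def Sol {a k : ℕ} (σ : Fin k → List (Fin a)) (e : Eqn a k) : Prop := ap σ e.1 = ap σ e.2

/-- the length of a solution -/
def slen {a k : ℕ} (σ : Fin k → List (Fin a)) : ℕ := ∑ x, (σ x).length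

/-- the length of a minimal solution (of a solvable equation) -/
def minLen {a k : ℕ} (e : Eqn a k) : ℕ := sInf {m | ∃ σ, Sol σ e ∧ slen σ = m}

/-- the solvable equations of size `n` -/
def solv (a k n : ℕ) : Set (Eqn a k) := {e | e.1.length + e.2.length = n ∧ ∃ σ, Sol σ e}

end

end Pool.Agent.WE
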