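import Pool.Agent.WE.Defs

/-! # Word equations: erased symbols (row R2) -/

set_option autoImplicit false

namespace Pool.Agent.WE

open Classical Finset

noncomputable section

theorem fib_finite11 {α Γ : Type} [Fintype α] (f : α → Option Γ) (u : List Γ) (c : ℕ) :
    {w : List α | w.length = c ∧ w.filterMap f = u}.Finite :=
  (List.finite_length_eq α c).subset (fun _ h => h.1)

/-- R2a -/
theorem er_fib {α Γ : Type} [Fintype α] (f : α → Option Γ)
    (hf : ∀ x y g, f x = some g → f y = some g → x = y) (u : List Γ) (c : ℕ) :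
    {w : List α | w.length = c ∧ w.filterMap f = u}.ncard ≤
      c.choose u.length * (univ.filter (fun x => f x = none)).card ^ (c - u.length) := by
  induction c generalizing u with
  | zero =>
    rcases u with _ | ⟨g, u⟩
    · have h1 : {w : List α | w.length = 0 ∧ w.filterMap f = []} ⊆ {[]} := by
        rintro w ⟨h1, _⟩
        exact List.length_eq_zero_iff.1 h1
      have := Set.ncard_le_ncard h1 (Set.finite_singleton _)
      rw [Set.ncard_singleton] at this
      simpa using this
    · have h1 : {w : List α | w.length = 0 ∧ w.filterMap f = g :: u} = ∅ := by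
        rw [Set.eq_empty_iff_forall_notMem]
        rintro w ⟨h1, h2⟩
        rw [List.length_eq_zero_iff.1 h1] at h2
        simp at h2
      rw [h1]
      simp
  | succ c ih =>
    set q := (univ.filter (fun x => f x = none)).card with hq
    set Z : Set α := {x | f x = none} with hZ
    have hZc : Z.ncard = q := by
      rw [hq, ← Set.ncard_coe_finset]
      congr 1
      ext x
      simp [hZ]
    have hA : ∀ u : List Γ,
        (((fun p : α × List α => p.1 :: p.2) ''
          (Z ×ˢ {w : List α | w.length = c ∧ w.filterMap f = u}))).ncard ≤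
        q * (c.choose u.length * q ^ (c - u.length)) := by
      intro u
      refine (Set.ncard_image_le ((Set.toFinite Z).prod (fib_finite11 f u c))).trans ?_
      rw [Set.ncard_prod, hZc]
      exact Nat.mul_le_mul_left _ (ih u)
    have hAf : ∀ u : List Γ, (((fun p : α × List α => p.1 :: p.2) ''
        (Z ×ˢ {w : List α | w.length = c ∧ w.filterMap f = u}))).Finite := fun u =>
      ((Set.toFinite Z).prod (fib_finite11 f u c)).image _
    rcases u with _ | ⟨g, u⟩
    · have hsub : {w : List α | w.length = c + 1 ∧ w.filterMap f = []} ⊆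
          (fun p : α × List α => p.1 :: p.2) ''
          (Z ×ˢ {w : List α | w.length = c ∧ w.filterMap f = []}) := by
        rintro w ⟨h1, h2⟩
        rcases w with _ | ⟨x, w⟩
        · simp at h1
        · have hx : f x = none := by
            rcases hfx : f x with _ | y
            · rfl
            · rw [List.filterMap_cons_some hfx] at h2
              simp at h2
          rw [List.filterMap_cons_none hx] at h2
          exact ⟨(x, w), ⟨hx, by simpa using h1, h2⟩, rfl⟩
      refine (Set.ncard_le_ncard hsub (hAf [])).trans ((hA []).trans ?_)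
      simp [pow_succ, mul_comm]
    · set B : Set (List α) := ⋃ x0 ∈ {x : α | f x = some g},
        (fun w => x0 :: w) '' {w : List α | w.length = c ∧ w.filterMap f = u} with hB
      have hBf : B.Finite := by
        rw [hB]
        exact (Set.toFinite _).biUnion (fun x _ => (fib_finite11 f u c).image _)
      have hBc : B.ncard ≤ c.choose u.length * q ^ (c - u.length) := by
        rcases Set.eq_empty_or_nonempty {x : α | f x = some g} with h0 | ⟨x0, hx0⟩
        · rw [hB, h0]
          simp
        · have hone : {x : α | f x = some g} = {x0} := by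
            ext x
            simp only [Set.mem_ofPred_eq, Set.mem_singleton_iff]
            exact ⟨fun h => hf x x0 g h hx0, fun h => by rw [h]; exact hx0⟩
          rw [hB, hone, Set.biUnion_singleton]
          exact (Set.ncard_image_le (fib_finite11 f u c)).trans (ih u)
      have hsub : {w : List α | w.length = c + 1 ∧ w.filterMap f = g :: u} ⊆
          ((fun p : α × List α => p.1 :: p.2) ''
          (Z ×ˢ {w : List α | w.length = c ∧ w.filterMap f = g :: u})) ∪ B := by
        rintro w ⟨h1, h2⟩
        rcases w with _ | ⟨x, w⟩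
        · simp at h1
        · rcases hfx : f x with _ | y
          · left
            rw [List.filterMap_cons_none hfx] at h2
            exact ⟨(x, w), ⟨hfx, by simpa using h1, h2⟩, rfl⟩
          · right
            rw [List.filterMap_cons_some hfx, List.cons.injEq] at h2
            rw [hB, Set.mem_iUnion₂]
            refine ⟨x, ?_, w, ⟨by simpa using h1, h2.2⟩, rfl⟩
            rw [← h2.1]
            exact hfx
      refine (Set.ncard_le_ncard hsub ((hAf _).union hBf)).trans
        ((Set.ncard_union_le _ _).trans ((Nat.add_le_add (hA _) hBc).trans ?_))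
      simp only [List.length_cons]
      rw [Nat.choose_succ_succ]
      have e1 : c + 1 - (u.length + 1) = c - u.length := by omega
      rw [e1]
      rcases Nat.lt_or_ge c (u.length + 1) with h | h
      · rw [Nat.choose_eq_zero_of_lt h]
        simp
      · have e2 : c - u.length = c - (u.length + 1) + 1 := by omega
        rw [e2, pow_succ]
        apply le_of_eq
        ring

/-- R2b -/
theorem er {α Γ : Type} [Fintype α] [Finite Γ] (f : α → Option Γ)
    (hf : ∀ x y g, f x = some g → f y = some g → x = y) (Y : Set (List Γ × List Γ)) (C b : ℝ)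
    (hC : 0 ≤ C) (hb : 0 ≤ b)
    (hY : ∀ m1 m2, ({e ∈ Y | e.1.length = m1 ∧ e.2.length = m2}.ncard : ℝ) ≤ C * b ^ (m1 + m2))
    (c1 c2 : ℕ) :
    ({e : List α × List α | e.1.length = c1 ∧ e.2.length = c2 ∧
      (e.1.filterMap f, e.2.filterMap f) ∈ Y}.ncard : ℝ) ≤
      C * ((univ.filter (fun x => f x = none)).card + b) ^ (c1 + c2) := by
  have _ := hC
  set q := (univ.filter (fun x => f x = none)).card with hq
  set E : Set (List α × List α) := {e | e.1.length = c1 ∧ e.2.length = c2 ∧
      (e.1.filterMap f, e.2.filterMap f) ∈ Y} with hE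
  -- pieces
  have hYf : ∀ m1 m2, {e ∈ Y | e.1.length = m1 ∧ e.2.length = m2}.Finite := by
    intro m1 m2
    refine ((List.finite_length_eq Γ m1).prod (List.finite_length_eq Γ m2)).subset ?_
    rintro e ⟨_, h1, h2⟩
    exact ⟨h1, h2⟩
  set P : ℕ → ℕ → Set (List α × List α) := fun m1 m2 =>
    {e ∈ E | (e.1.filterMap f).length = m1 ∧ (e.2.filterMap f).length = m2} with hP
  have hpiece : ∀ m1 m2, (P m1 m2).ncard ≤ ({e ∈ Y | e.1.length = m1 ∧ e.2.length = m2}).ncard *
      ((c1.choose m1 * q ^ (c1 - m1)) * (c2.choose m2 * q ^ (c2 - m2))) := by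
    intro m1 m2
    set Yf := (hYf m1 m2).toFinset with hYfd
    have hsub : P m1 m2 ⊆ ⋃ y ∈ Yf, ({w : List α | w.length = c1 ∧ w.filterMap f = y.1} ×ˢ
        {w : List α | w.length = c2 ∧ w.filterMap f = y.2}) := by
      rintro e ⟨⟨h1, h2, h3⟩, h4, h5⟩
      rw [Set.mem_iUnion₂]
      refine ⟨(e.1.filterMap f, e.2.filterMap f), ?_, ⟨h1, rfl⟩, ⟨h2, rfl⟩⟩
      rw [hYfd, Set.Finite.mem_toFinset]
      exact ⟨h3, h4, h5⟩
    have hfin : (⋃ y ∈ Yf, ({w : List α | w.length = c1 ∧ w.filterMap f = y.1} ×ˢ
        {w : List α | w.length = c2 ∧ w.filterMap f = y.2})).Finite :=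
      Yf.finite_toSet.biUnion (fun y _ => (fib_finite11 f _ _).prod (fib_finite11 f _ _))
    have h1 := Set.ncard_le_ncard hsub hfin
    have h2 : (⋃ y ∈ Yf, ({w : List α | w.length = c1 ∧ w.filterMap f = y.1} ×ˢ
        {w : List α | w.length = c2 ∧ w.filterMap f = y.2})).ncard ≤
        ∑ y ∈ Yf, ({w : List α | w.length = c1 ∧ w.filterMap f = y.1} ×ˢ
        {w : List α | w.length = c2 ∧ w.filterMap f = y.2}).ncard :=
      Finset.set_ncard_biUnion_le _ _
    have h3 : ∀ y ∈ Yf, ({w : List α | w.length = c1 ∧ w.filterMap f = y.1} ×ˢ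
        {w : List α | w.length = c2 ∧ w.filterMap f = y.2}).ncard ≤
        (c1.choose m1 * q ^ (c1 - m1)) * (c2.choose m2 * q ^ (c2 - m2)) := by
      intro y hy
      rw [hYfd, Set.Finite.mem_toFinset] at hy
      obtain ⟨_, hy1, hy2⟩ := hy
      rw [Set.ncard_prod]
      have e1 := er_fib f hf y.1 c1
      have e2 := er_fib f hf y.2 c2
      rw [hy1] at e1
      rw [hy2] at e2
      exact Nat.mul_le_mul e1 e2
    have h4 := Finset.sum_le_card_nsmul Yf _ _ h3
    rw [Set.ncard_eq_toFinset_card _ (hYf m1 m2)]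
    rw [smul_eq_mul] at h4
    exact h1.trans (h2.trans h4)
  have hcover : E ⊆ ⋃ m ∈ (range (c1 + 1) ×ˢ range (c2 + 1)), P m.1 m.2 := by
    intro e he
    rw [Set.mem_iUnion₂]
    refine ⟨((e.1.filterMap f).length, (e.2.filterMap f).length), ?_, he, rfl, rfl⟩
    rw [Finset.mem_product, Finset.mem_range, Finset.mem_range]
    have h1 := List.length_filterMap_le f e.1
    have h2 := List.length_filterMap_le f e.2
    obtain ⟨h3, h4, _⟩ := he
    exact ⟨by omega, by omega⟩
  have hEfin : E.Finite := by
    refine ((List.finite_length_eq α c1).prod (List.finite_length_eq α c2)).subset ?_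
    rintro e ⟨h1, h2, _⟩
    exact ⟨h1, h2⟩
  have h1 : E.ncard ≤ ∑ m ∈ (range (c1 + 1) ×ˢ range (c2 + 1)), (P m.1 m.2).ncard :=
    (Set.ncard_le_ncard hcover (Finset.finite_toSet _ |>.biUnion
      (fun m _ => hEfin.subset (fun e he => he.1)))).trans (Finset.set_ncard_biUnion_le _ _)
  have h2 : (E.ncard : ℝ) ≤ ∑ m ∈ (range (c1 + 1) ×ˢ range (c2 + 1)),
      C * ((b ^ m.1 * (q : ℝ) ^ (c1 - m.1) * c1.choose m.1) *
        (b ^ m.2 * (q : ℝ) ^ (c2 - m.2) * c2.choose m.2)) := by
    have h3 : (E.ncard : ℝ) ≤ ∑ m ∈ (range (c1 + 1) ×ˢ range (c2 + 1)),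
        ((P m.1 m.2).ncard : ℝ) := by exact_mod_cast h1
    refine h3.trans (Finset.sum_le_sum fun m _ => ?_)
    have h4 : ((P m.1 m.2).ncard : ℝ) ≤
        (({e ∈ Y | e.1.length = m.1 ∧ e.2.length = m.2}).ncard : ℝ) *
        (((c1.choose m.1 : ℝ) * (q : ℝ) ^ (c1 - m.1)) *
          ((c2.choose m.2 : ℝ) * (q : ℝ) ^ (c2 - m.2))) := by
      exact_mod_cast hpiece m.1 m.2
    refine h4.trans ?_
    have h5 := mul_le_mul_of_nonneg_right (hY m.1 m.2)
      (show (0 : ℝ) ≤ ((c1.choose m.1 : ℝ) * (q : ℝ) ^ (c1 - m.1)) *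
          ((c2.choose m.2 : ℝ) * (q : ℝ) ^ (c2 - m.2)) by positivity)
    refine h5.trans (le_of_eq ?_)
    rw [pow_add]
    ring
  refine h2.trans (le_of_eq ?_)
  have _ := hb
  rw [← Finset.mul_sum, Finset.sum_product]
  simp only
  have h6 : ∀ x : ℕ, ∑ y ∈ range (c2 + 1), (b ^ x * (q : ℝ) ^ (c1 - x) * c1.choose x *
      (b ^ y * (q : ℝ) ^ (c2 - y) * c2.choose y)) =
      (b ^ x * (q : ℝ) ^ (c1 - x) * c1.choose x) * (b + q) ^ c2 := by
    intro x
    rw [← Finset.mul_sum, add_pow]
  rw [Finset.sum_congr rfl (fun x _ => h6 x), ← Finset.sum_mul, ← add_pow, pow_add,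
    add_comm (b : ℝ) (q : ℝ)]

end

end Pool.Agent.WE
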