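import Pool.Agent.WE.Defs

/-! # Word equations: the exchange lemma (row R9) -/

set_option autoImplicit false

namespace Pool.Agent.WE

open Classical

noncomputable section

/-- one exchange: `a < c < b` in `D` with `rho + c - a`, `rho + c - b` outside `Lam` -/
theorem exch_one11 {A : Type} {D Lam : Finset ℤ} {rho len : ℤ} {u : ℤ → A}
    (hD : ∀ δ ∈ D, 0 ≤ rho - δ ∧ rho - δ < len)
    (hu : ∀ δ ∈ D, ∀ δ' ∈ D, ∀ r, r ∉ Lam → 0 ≤ r - δ → r - δ < len → 0 ≤ r - δ' → r - δ' < len →
      u (r - δ) = u (r - δ')) {a b c : ℤ} (ha : a ∈ D) (hb : b ∈ D) (hc : c ∈ D) (hac : a < c)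
    (hcb : c < b) (h1 : rho + c - a ∉ Lam) (h2 : rho + c - b ∉ Lam) :
    u (rho - a) = u (rho - b) := by
  obtain ⟨a0, a1⟩ := hD a ha
  obtain ⟨b0, b1⟩ := hD b hb
  have e1 := hu c hc b hb (rho + c - a) h1 (by omega) (by omega) (by omega) (by omega)
  have e2 := hu c hc a ha (rho + c - b) h2 (by omega) (by omega) (by omega) (by omega)
  have f1 : rho + c - a - c = rho - a := by ring
  have f2 : rho + c - b - c = rho - b := by ring
  have f3 : rho + c - a - b = rho + c - b - a := by ring
  rw [f1, f3] at e1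
  rw [f2] at e2
  rw [e1, e2]

/-- many elements of `D` strictly between `a` and `b` -/
theorem exch_between11 {A : Type} {D Lam : Finset ℤ} {rho len : ℤ} {u : ℤ → A}
    (hD : ∀ δ ∈ D, 0 ≤ rho - δ ∧ rho - δ < len)
    (hu : ∀ δ ∈ D, ∀ δ' ∈ D, ∀ r, r ∉ Lam → 0 ≤ r - δ → r - δ < len → 0 ≤ r - δ' → r - δ' < len →
      u (r - δ) = u (r - δ')) {a b : ℤ} (ha : a ∈ D) (hb : b ∈ D)
    (hcard : 2 * Lam.card + 1 ≤ (D.filter (fun c => a < c ∧ c < b)).card) :
    u (rho - a) = u (rho - b) := by
  by_contra hne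
  have hbad : D.filter (fun c => a < c ∧ c < b) ⊆
      Lam.image (fun r => r - rho + a) ∪ Lam.image (fun r => r - rho + b) := by
    intro c hc
    rw [Finset.mem_filter] at hc
    obtain ⟨hcD, hac, hcb⟩ := hc
    rw [Finset.mem_union, Finset.mem_image, Finset.mem_image]
    by_contra hcon
    rw [not_or] at hcon
    apply hne
    refine exch_one11 hD hu ha hb hcD hac hcb ?_ ?_
    · intro h
      exact hcon.1 ⟨_, h, by ring⟩
    · intro h
      exact hcon.2 ⟨_, h, by ring⟩
  have h1 := Finset.card_le_card hbad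
  have h2 := Finset.card_union_le (Lam.image (fun r => r - rho + a))
    (Lam.image (fun r => r - rho + b))
  have h3 : (Lam.image (fun r => r - rho + a)).card ≤ Lam.card := Finset.card_image_le
  have h4 : (Lam.image (fun r => r - rho + b)).card ≤ Lam.card := Finset.card_image_le
  omega

/-- **exchange lemma**: if there are many shifts, the letter is constant -/
theorem exch11 {A : Type} {D Lam : Finset ℤ} {rho len : ℤ} {u : ℤ → A}
    (hD : ∀ δ ∈ D, 0 ≤ rho - δ ∧ rho - δ < len)
    (hu : ∀ δ ∈ D, ∀ δ' ∈ D, ∀ r, r ∉ Lam → 0 ≤ r - δ → r - δ < len → 0 ≤ r - δ' → r - δ' < len →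
      u (r - δ) = u (r - δ')) (hcard : 4 * Lam.card + 4 ≤ D.card) :
    ∀ a ∈ D, ∀ b ∈ D, u (rho - a) = u (rho - b) := by
  have hne : D.Nonempty := Finset.card_pos.1 (by omega)
  set m := D.min' hne with hm
  set M := D.max' hne with hM
  have hmD : m ∈ D := D.min'_mem hne
  have hMD : M ∈ D := D.max'_mem hne
  have hmle : ∀ x ∈ D, m ≤ x := fun x hx => D.min'_le x hx
  have hleM : ∀ x ∈ D, x ≤ M := fun x hx => D.le_max' x hx
  -- min and max
  have hmM : u (rho - m) = u (rho - M) := by
    apply exch_between11 hD hu hmD hMD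
    have hsub : D ⊆ D.filter (fun c => m < c ∧ c < M) ∪ {m, M} := by
      intro x hx
      rw [Finset.mem_union, Finset.mem_filter, Finset.mem_insert, Finset.mem_singleton]
      have h1 := hmle x hx
      have h2 := hleM x hx
      rcases eq_or_lt_of_le h1 with h3 | h3
      · exact Or.inr (Or.inl h3.symm)
      · rcases eq_or_lt_of_le h2 with h4 | h4
        · exact Or.inr (Or.inr h4)
        · exact Or.inl ⟨hx, h3, h4⟩
    have h1 := Finset.card_le_card hsub
    have h2 := Finset.card_union_le (D.filter (fun c => m < c ∧ c < M)) {m, M}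
    have h3 : ({m, M} : Finset ℤ).card ≤ 2 := Finset.card_le_two
    omega
  have hall : ∀ i ∈ D, u (rho - i) = u (rho - m) := by
    intro i hi
    by_cases hA : 2 * Lam.card + 1 ≤ (D.filter (fun c => m < c ∧ c < i)).card
    · exact (exch_between11 hD hu hmD hi hA).symm
    · by_cases hB : 2 * Lam.card + 1 ≤ (D.filter (fun c => i < c ∧ c < M)).card
      · rw [hmM]
        exact exch_between11 hD hu hi hMD hB
      · exfalso
        have hsub : D ⊆ (D.filter (fun c => m < c ∧ c < i) ∪ D.filter (fun c => i < c ∧ c < M)) ∪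
            {m, i, M} := by
          intro x hx
          rw [Finset.mem_union, Finset.mem_union, Finset.mem_filter, Finset.mem_filter,
            Finset.mem_insert, Finset.mem_insert, Finset.mem_singleton]
          have h1 := hmle x hx
          have h2 := hleM x hx
          rcases eq_or_lt_of_le h1 with h3 | h3
          · exact Or.inr (Or.inl h3.symm)
          · rcases eq_or_lt_of_le h2 with h4 | h4
            · exact Or.inr (Or.inr (Or.inr h4))
            · rcases lt_trichotomy x i with h5 | h5 | h5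
              · exact Or.inl (Or.inl ⟨hx, h3, h5⟩)
              · exact Or.inr (Or.inr (Or.inl h5))
              · exact Or.inl (Or.inr ⟨hx, h5, h4⟩)
        have h1 := Finset.card_le_card hsub
        have h2 := Finset.card_union_le
          (D.filter (fun c => m < c ∧ c < i) ∪ D.filter (fun c => i < c ∧ c < M)) {m, i, M}
        have h3 := Finset.card_union_le (D.filter (fun c => m < c ∧ c < i))
          (D.filter (fun c => i < c ∧ c < M))
        have h4 : ({m, i, M} : Finset ℤ).card ≤ 3 := Finset.card_le_three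
        omega
  intro a ha b hb
  rw [hall a ha, hall b hb]

/-- R9a exchange -/
theorem exchange {A : Type} (u : ℕ → A) (len r0 : ℕ) (D Lam : Finset ℕ)
    (h0 : ∀ a ∈ D, a ≤ r0 ∧ r0 - a < len)
    (hE : ∀ a ∈ D, ∀ b ∈ D, ∀ r, r ∉ Lam → a ≤ r → r - a < len → b ≤ r → r - b < len →
      u (r - a) = u (r - b)) (hc : 4 * Lam.card + 4 ≤ D.card) :
    ∀ a ∈ D, ∀ b ∈ D, u (r0 - a) = u (r0 - b) := by
  set D' : Finset ℤ := D.image (fun x : ℕ => (x : ℤ)) with hD'
  set L' : Finset ℤ := Lam.image (fun x : ℕ => (x : ℤ)) with hL'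
  have hcD : D'.card = D.card := Finset.card_image_of_injective _ Nat.cast_injective
  have hcL : L'.card ≤ Lam.card := Finset.card_image_le
  have hmD : ∀ x : ℤ, x ∈ D' → ∃ y ∈ D, (y : ℤ) = x := by
    intro x hx
    exact Finset.mem_image.1 hx
  have h := exch11 (A := A) (D := D') (Lam := L') (rho := (r0 : ℤ)) (len := (len : ℤ))
    (u := fun z => u z.toNat) (by
      intro δ hδ
      obtain ⟨a, ha, rfl⟩ := hmD δ hδ
      have := h0 a ha
      omega) (by
      intro δ hδ δ' hδ' r hr h1 h2 h3 h4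
      obtain ⟨a, ha, rfl⟩ := hmD δ hδ
      obtain ⟨b, hb, rfl⟩ := hmD δ' hδ'
      obtain ⟨r', rfl⟩ : ∃ r' : ℕ, r = (r' : ℤ) := ⟨r.toNat, by omega⟩
      have hr' : r' ∉ Lam := fun h => hr (Finset.mem_image.2 ⟨r', h, rfl⟩)
      have := hE a ha b hb r' hr' (by omega) (by omega) (by omega) (by omega)
      have e1 : ((r' : ℤ) - (a : ℤ)).toNat = r' - a := by omega
      have e2 : ((r' : ℤ) - (b : ℤ)).toNat = r' - b := by omega
      show u ((r' : ℤ) - (a : ℤ)).toNat = u ((r' : ℤ) - (b : ℤ)).toNat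
      rw [e1, e2]
      exact this) (by omega)
  intro a ha b hb
  have h1 := h (a : ℤ) (Finset.mem_image.2 ⟨a, ha, rfl⟩) (b : ℤ) (Finset.mem_image.2 ⟨b, hb, rfl⟩)
  have e1 : ((r0 : ℤ) - (a : ℤ)).toNat = r0 - a := by omega
  have e2 : ((r0 : ℤ) - (b : ℤ)).toNat = r0 - b := by omega
  have h2 : u ((r0 : ℤ) - (a : ℤ)).toNat = u ((r0 : ℤ) - (b : ℤ)).toNat := h1
  rwa [e1, e2] at h2

end

end Pool.Agent.WE
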