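import Pool.Agent.WE.Let21

/-! # R10 : fibres over partial skeletons -/

set_option autoImplicit false

namespace Pool.Agent.WE

open Classical Finset

noncomputable section

/-- R10a: code lemma -/
theorem code_lemma {E A ι : Type} [Nonempty A] (J : Finset ι) (off : ι → ℕ) (N0 : ℕ)
    (h : E → ι → A) (h1 : ∀ e, ∀ j ∈ J, ∀ j' ∈ J, off j = off j' → h e j = h e j')
    (h2 : ∀ e, N0 < (J.image off).card → ∀ j ∈ J, ∀ j' ∈ J, h e j = h e j') :
    ∃ code : E → (Fin (N0 + 1) → A), ∀ e e', code e = code e' → ∀ j ∈ J, h e j = h e' j := by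
  by_cases hc : (J.image off).card ≤ N0
  · have hinj : ∃ io : ℕ → Fin (N0 + 1), Set.InjOn io (J.image off : Set ℕ) := by
      refine ⟨fun r => if hr : r ∈ J.image off then
        Fin.castLE (by omega) ((J.image off).equivFin ⟨r, hr⟩) else 0, ?_⟩
      intro r hr r' hr' hrr
      have hr1 : r ∈ J.image off := hr
      have hr2 : r' ∈ J.image off := hr'
      simp only [hr1, hr2, dif_pos] at hrr
      have h4 := (J.image off).equivFin.injective (Fin.castLE_injective _ hrr)
      exact congrArg Subtype.val h4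
    obtain ⟨io, hio⟩ := hinj
    refine ⟨fun e q => if hq : ∃ j ∈ J, io (off j) = q then h e hq.choose else
      Classical.arbitrary A, ?_⟩
    intro e e' hee j hj
    have hq : ∃ j' ∈ J, io (off j') = io (off j) := ⟨j, hj, rfl⟩
    have h4 := congrFun hee (io (off j))
    simp only [hq, dif_pos] at h4
    have h5 := hq.choose_spec
    have h6 : off hq.choose = off j :=
      hio (Finset.mem_image_of_mem _ h5.1) (Finset.mem_image_of_mem _ hj) h5.2
    rw [h1 e _ h5.1 j hj h6, h1 e' _ h5.1 j hj h6] at h4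
    exact h4
  · by_cases hJ : J.Nonempty
    · obtain ⟨j0, hj0⟩ := hJ
      refine ⟨fun e _ => h e j0, ?_⟩
      intro e e' hee j hj
      have h4 : h e j0 = h e' j0 := congrFun hee 0
      rw [h2 e (by omega) j hj j0 hj0, h2 e' (by omega) j hj j0 hj0, h4]
    · refine ⟨fun _ _ => Classical.arbitrary A, ?_⟩
      intro e e' _ j hj
      exact absurd ⟨j, hj⟩ hJ

end

end Pool.Agent.WE
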