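import Pool.Agent.WE.SideC21

/-! # R10b : the fibre bound -/

set_option autoImplicit false

namespace Pool.Agent.WE

open Classical Finset

noncomputable section

theorem fibre {A V : Type} [Fintype A] [Fintype V] (t : ℕ) : ∃ K : ℕ, ∀ (n : ℕ) (l : V → ℕ)
    (M M' : Finset ℕ) (P Q : List (Option A ⊕ V)), (∀ x, 1 ≤ l x) →
    {e : List (A ⊕ V) × List (A ⊕ V) | Cls t n l M M' e ∧ psk M l e.1 e.2 = P ∧
      psk M' l e.2 e.1 = Q}.ncard ≤ K := by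
  refine ⟨Nat.card (Kd A V t × Kd A V t), ?_⟩
  intro n l M M' P Q hl
  obtain ⟨code1, h1⟩ := side t n l hl M P (sk Q)
  obtain ⟨code2, h2⟩ := side t n l hl M' Q (sk P)
  have hs1 : ∀ e : List (A ⊕ V) × List (A ⊕ V), e ∈ {e : List (A ⊕ V) × List (A ⊕ V) |
      Cls t n l M M' e ∧ psk M l e.1 e.2 = P ∧ psk M' l e.2 e.1 = Q} →
      Sd t n l M P (sk Q) e := by
    rintro e ⟨⟨c1, c2, c3, σ, c4, c5, c6⟩, hp, hq⟩
    exact ⟨c1, c2, hp, by rw [← hq, sk_psk], σ, c4, c5, c6⟩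
  have hs2 : ∀ e : List (A ⊕ V) × List (A ⊕ V), e ∈ {e : List (A ⊕ V) × List (A ⊕ V) |
      Cls t n l M M' e ∧ psk M l e.1 e.2 = P ∧ psk M' l e.2 e.1 = Q} →
      Sd t n l M' Q (sk P) (e.2, e.1) := by
    rintro e ⟨⟨c1, c2, c3, σ, c4, c5, c6⟩, hp, hq⟩
    refine ⟨?_, c3, hq, by rw [← hp, sk_psk], σ, c4, c5.symm, c6⟩
    show e.2.length + e.1.length = n
    omega
  rw [← Nat.card_coe_set_eq]
  apply Nat.card_le_card_of_injective (fun e : {e : List (A ⊕ V) × List (A ⊕ V) |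
      Cls t n l M M' e ∧ psk M l e.1 e.2 = P ∧ psk M' l e.2 e.1 = Q} =>
      (code1 ⟨e.1, hs1 e.1 e.2⟩, code2 ⟨(e.1.2, e.1.1), hs2 e.1 e.2⟩))
  intro e e' hee
  have g1 := h1 _ _ (congrArg Prod.fst hee)
  have g2 := h2 _ _ (congrArg Prod.snd hee)
  apply Subtype.ext
  exact Prod.ext g1 g2

end

end Pool.Agent.WE
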