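import Pool.Agent.WE.Defs

/-! # R5 : positions -/

set_option autoImplicit false

namespace Pool.Agent.WE

open Classical Finset

noncomputable section

section R5
variable {B B' V : Type} {l l' : V → ℕ}

theorem fl_append (l : V → ℕ) (u v : List (B ⊕ V)) : fl l (u ++ v) = fl l u + fl l v := by
  unfold fl
  rw [List.map_append, List.sum_append]

theorem fl_nil (l : V → ℕ) : fl l ([] : List (B ⊕ V)) = 0 := rfl

theorem fl_cons (l : V → ℕ) (s : B ⊕ V) (u : List (B ⊕ V)) : fl l (s :: u) = wl l s + fl l u := by
  unfold fl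
  rw [List.map_cons, List.sum_cons]

theorem wl_map {f : B → B'} (l : V → ℕ) (s : B ⊕ V) : wl l (Sum.map f id s) = wl l s := by
  cases s <;> rfl

theorem fl_map {f : B → B'} (l : V → ℕ) (u : List (B ⊕ V)) :
    fl l (u.map (Sum.map f id)) = fl l u := by
  induction u with
  | nil => rfl
  | cons s u ih => rw [List.map_cons, fl_cons, fl_cons, wl_map, ih]

theorem fl_sk (l : V → ℕ) (u : List (B ⊕ V)) : fl l (sk u) = fl l u := fl_map l u

theorem pos_sk (l : V → ℕ) (u : List (B ⊕ V)) (i : ℕ) : pos l (sk u) i = pos l u i := by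
  unfold pos sk
  rw [← List.map_take, fl_map]

theorem wl_pos (hl : ∀ x, 1 ≤ l x) (s : B ⊕ V) : 1 ≤ wl l s := by
  cases s with
  | inl c => exact le_refl 1
  | inr x => exact hl x

theorem pos_zero (l : V → ℕ) (w : List (B ⊕ V)) : pos l w 0 = 0 := by
  unfold pos
  rw [List.take_zero]
  rfl

theorem pos_succ (l : V → ℕ) (w : List (B ⊕ V)) (i : ℕ) (hi : i < w.length) :
    pos l w (i + 1) = pos l w i + wl l w[i] := by
  unfold pos
  rw [← List.take_append_getElem hi, fl_append, fl_cons, fl_nil, add_zero]

theorem pos_mono (l : V → ℕ) (w : List (B ⊕ V)) : Monotone (pos l w) := by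
  apply monotone_nat_of_le_succ
  intro i
  by_cases hi : i < w.length
  · rw [pos_succ l w i hi]
    exact Nat.le_add_right _ _
  · unfold pos
    rw [List.take_of_length_le (by omega), List.take_of_length_le (by omega)]

theorem pos_lt (hl : ∀ x, 1 ≤ l x) (w : List (B ⊕ V)) {i j : ℕ} (h : i < j) (hj : j ≤ w.length) :
    pos l w i < pos l w j := by
  have h1 : pos l w (i + 1) ≤ pos l w j := pos_mono l w h
  have h2 := pos_succ l w i (by omega)
  have h3 := wl_pos hl w[i]
  omega

theorem pos_len (l : V → ℕ) (w : List (B ⊕ V)) {i : ℕ} (h : w.length ≤ i) :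
    pos l w i = fl l w := by
  unfold pos
  rw [List.take_of_length_le h]

theorem pos_le_fl (l : V → ℕ) (w : List (B ⊕ V)) (i : ℕ) : pos l w i ≤ fl l w := by
  rw [← pos_len l w (le_refl _)]
  by_cases hi : i ≤ w.length
  · exact pos_mono l w hi
  · rw [pos_len l w (by omega), pos_len l w (le_refl _)]

/-- length of the substituted word -/
theorem ap_length {A : Type} (σ : V → List A) (w : List (A ⊕ V)) :
    (ap σ w).length = fl (fun x => (σ x).length) w := by
  induction w with
  | nil => rfl
  | cons s w ih =>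
    rw [fl_cons, ← ih]
    unfold ap
    rw [List.flatMap_cons, List.length_append]
    cases s with
    | inl c => rfl
    | inr x => rfl

/-- the symbol of `w` that covers the position `p` -/
theorem cover (l : V → ℕ) (w : List (B ⊕ V)) {p : ℕ} (hp : p < fl l w) :
    ∃ j, j < w.length ∧ pos l w j ≤ p ∧ p < pos l w (j + 1) := by
  have h1 : ∃ i, p < pos l w i := ⟨w.length, by rwa [pos_len l w (le_refl _)]⟩
  have h2 := Nat.find_spec h1
  have h3 : Nat.find h1 ≠ 0 := by
    intro h
    rw [h, pos_zero] at h2
    exact absurd h2 (Nat.not_lt_zero _)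
  obtain ⟨j, hj⟩ := Nat.exists_eq_succ_of_ne_zero h3
  have h4 : ¬ p < pos l w j := Nat.find_min h1 (by omega)
  refine ⟨j, ?_, by omega, ?_⟩
  · by_contra hc
    rw [pos_len l w (by omega)] at h4
    exact h4 hp
  · rw [hj] at h2
    exact h2

theorem cover_unique (l : V → ℕ) (w : List (B ⊕ V)) {p i j : ℕ} (h1 : pos l w j ≤ p)
    (h2 : p < pos l w (j + 1)) (h3 : pos l w i ≤ p) (h4 : p < pos l w (i + 1)) : i = j := by
  by_contra hne
  rcases Nat.lt_or_gt_of_ne hne with h | h
  · have h5 : pos l w (i + 1) ≤ pos l w j := pos_mono l w h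
    omega
  · have h5 : pos l w (j + 1) ≤ pos l w i := pos_mono l w h
    omega

/-! ### The pattern relation -/

/-- number of occurrences of the variable `x` -/
def cx (w : List (B ⊕ V)) (x : V) : ℕ := (w.map (fun s => if s = Sum.inr x then 1 else 0)).sum

/-- number of letters -/
def cl (w : List (B ⊕ V)) : ℕ := (w.map (fun s => Sum.elim (fun _ => 1) (fun _ => 0) s)).sum

theorem cx_le (w : List (B ⊕ V)) (x : V) : cx w x ≤ w.length := by
  induction w with
  | nil => exact le_refl _
  | cons s w ih =>
    unfold cx at *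
    rw [List.map_cons, List.sum_cons, List.length_cons]
    split_ifs
    · omega
    · omega

theorem cl_le (w : List (B ⊕ V)) : cl w ≤ w.length := by
  induction w with
  | nil => exact le_refl _
  | cons s w ih =>
    unfold cl at *
    rw [List.map_cons, List.sum_cons, List.length_cons]
    cases s with
    | inl c =>
      simp only [Sum.elim_inl]
      omega
    | inr x =>
      simp only [Sum.elim_inr]
      omega

theorem fl_eq [Fintype V] (l : V → ℕ) (w : List (B ⊕ V)) :
    fl l w = ∑ x, cx w x * l x + cl w := by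
  induction w with
  | nil =>
    simp [fl, cx, cl]
  | cons s w ih =>
    rw [fl_cons, ih]
    cases s with
    | inl c =>
      have h1 : ∀ x, cx ((Sum.inl c : B ⊕ V) :: w) x = cx w x := by
        intro x
        simp [cx]
      have h2 : cl ((Sum.inl c : B ⊕ V) :: w) = 1 + cl w := by
        simp [cl]
      rw [h2]
      simp only [h1]
      show 1 + _ = _
      ring
    | inr y =>
      have h1 : ∀ x, cx ((Sum.inr y : B ⊕ V) :: w) x = (if x = y then 1 else 0) + cx w x := by
        intro x
        simp [cx, eq_comm]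
      have h2 : cl ((Sum.inr y : B ⊕ V) :: w) = cl w := by
        simp [cl]
      rw [h2]
      simp only [h1, add_mul, Finset.sum_add_distrib]
      have h3 : ∑ x, (if x = y then 1 else 0) * l x = l y := by
        simp
      rw [h3]
      show l y + _ = _
      ring

variable [Fintype V] {n : ℕ}

/-- the general comparison -/
theorem eqv_four (h : Eqv n l l') (w1 w2 : List (B ⊕ V)) (w3 w4 : List (B' ⊕ V))
    (h1 : w1.length ≤ n) (h2 : w2.length ≤ n) (h3 : w3.length ≤ n) (h4 : w4.length ≤ n) :
    fl l w1 + fl l w4 < fl l w2 + fl l w3 ↔ fl l' w1 + fl l' w4 < fl l' w2 + fl l' w3 := by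
  have key := h (fun x => (cx w2 x : ℤ) + cx w3 x - cx w1 x - cx w4 x)
    ((cl w2 : ℤ) + cl w3 - cl w1 - cl w4) (by
      intro x
      have e1 := cx_le w1 x
      have e2 := cx_le w2 x
      have e3 := cx_le w3 x
      have e4 := cx_le w4 x
      rw [abs_le]
      constructor <;> omega) (by
      have e1 := cl_le w1
      have e2 := cl_le w2
      have e3 := cl_le w3
      have e4 := cl_le w4
      rw [abs_le]
      constructor <;> omega)
  have hex : ∀ m : V → ℕ, (∑ x, ((cx w2 x : ℤ) + cx w3 x - cx w1 x - cx w4 x) * (m x : ℤ) +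
      ((cl w2 : ℤ) + cl w3 - cl w1 - cl w4)) =
      ((fl m w2 + fl m w3 : ℕ) : ℤ) - ((fl m w1 + fl m w4 : ℕ) : ℤ) := by
    intro m
    rw [fl_eq m w1, fl_eq m w2, fl_eq m w3, fl_eq m w4]
    push_cast
    simp only [sub_mul, add_mul, Finset.sum_add_distrib, Finset.sum_sub_distrib]
    ring
  rw [hex l, hex l'] at key
  constructor
  · intro e
    have := key.1 (by omega)
    omega
  · intro e
    have := key.2 (by omega)
    omega

theorem eqv_lt (h : Eqv n l l') (w : List (B ⊕ V)) (w' : List (B' ⊕ V)) (hw : w.length ≤ n)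
    (hw' : w'.length ≤ n) (i j : ℕ) : pos l w i < pos l w' j ↔ pos l' w i < pos l' w' j := by
  have h1 := eqv_four h (w.take i) [] (w'.take j) [] (le_trans (List.length_take_le' _ _) hw)
    (Nat.zero_le _) (le_trans (List.length_take_le' _ _) hw') (Nat.zero_le _)
  simp only [fl_nil, add_zero, zero_add] at h1
  exact h1

theorem eqv_gt (h : Eqv n l l') (w : List (B ⊕ V)) (w' : List (B' ⊕ V)) (hw : w.length ≤ n)
    (hw' : w'.length ≤ n) (i j : ℕ) : pos l w' j < pos l w i ↔ pos l' w' j < pos l' w i := by
  exact eqv_lt h w' w hw' hw j i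

theorem eqv_eq (h : Eqv n l l') (w : List (B ⊕ V)) (w' : List (B' ⊕ V)) (hw : w.length ≤ n)
    (hw' : w'.length ≤ n) (i j : ℕ) : pos l w i = pos l w' j ↔ pos l' w i = pos l' w' j := by
  have h1 := eqv_lt h w w' hw hw' i j
  have h2 := eqv_gt h w w' hw hw' i j
  omega

/-- equality of two differences of positions -/
theorem eqv_diff (h : Eqv n l l') (w : List (B ⊕ V)) (w' : List (B' ⊕ V)) (hw : w.length ≤ n)
    (hw' : w'.length ≤ n) (i i' j j' : ℕ) :
    pos l w i + pos l w' j' = pos l w i' + pos l w' j ↔
      pos l' w i + pos l' w' j' = pos l' w i' + pos l' w' j := by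
  have h1 := eqv_four h (w.take i) (w.take i') (w'.take j) (w'.take j')
    (le_trans (List.length_take_le' _ _) hw) (le_trans (List.length_take_le' _ _) hw)
    (le_trans (List.length_take_le' _ _) hw') (le_trans (List.length_take_le' _ _) hw')
  have h2 := eqv_four h (w.take i') (w.take i) (w'.take j') (w'.take j)
    (le_trans (List.length_take_le' _ _) hw) (le_trans (List.length_take_le' _ _) hw)
    (le_trans (List.length_take_le' _ _) hw') (le_trans (List.length_take_le' _ _) hw')
  unfold pos
  omega

theorem eqv_symm (h : Eqv n l l') : Eqv n l' l := fun φ c h1 h2 => (h φ c h1 h2).symm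

theorem eqv_fl (h : Eqv n l l') (w w' : List (B ⊕ V)) (hw : w.length ≤ n)
    (hw' : w'.length ≤ n) : fl l w = fl l w' ↔ fl l' w = fl l' w' := by
  have h1 := eqv_eq h w w' hw hw' w.length w'.length
  rw [pos_len l w (le_refl _), pos_len l w' (le_refl _), pos_len l' w (le_refl _),
    pos_len l' w' (le_refl _)] at h1
  exact h1

end R5

end

end Pool.Agent.WE
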