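import Pool.Agent.WE.Tree11
import Pool.Agent.WE.Pos21

/-! # Erased variables and fixed substitutions (rows R12a, R12b) -/

set_option autoImplicit false

namespace Pool.Agent.WE

open Classical Finset

noncomputable section

/-- restriction to the variables with non-empty image -/
def res {A V : Type} (D : Finset V) : A ⊕ V → Option (A ⊕ D) :=
  Sum.elim (fun c => some (Sum.inl c)) (fun x => if h : x ∈ D then some (Sum.inr ⟨x, h⟩) else none)

theorem ap_res {A V : Type} (D : Finset V) (σ : V → List A) (hD : ∀ x, x ∉ D → σ x = [])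
    (w : List (A ⊕ V)) : ap (fun x : D => σ x) (w.filterMap (res D)) = ap σ w := by
  induction w with
  | nil => rfl
  | cons s w ih =>
    have e1 : ∀ (B : Type) (τ : B → List A) (t : A ⊕ B) (u : List (A ⊕ B)),
        ap τ (t :: u) = Sum.elim (fun c => [c]) τ t ++ ap τ u := by
      intro B τ t u
      simp [ap]
    rcases s with c | x
    · have h1 : res D (Sum.inl c : A ⊕ V) = some (Sum.inl c) := rfl
      rw [List.filterMap_cons_some h1, e1, e1, ih]
      rfl
    · by_cases hx : x ∈ D
      · have h1 : res D (Sum.inr x : A ⊕ V) = some (Sum.inr ⟨x, hx⟩) := by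
          simp [res, hx]
        rw [List.filterMap_cons_some h1, e1, e1, ih]
        rfl
      · have h1 : res D (Sum.inr x : A ⊕ V) = none := by
          simp [res, hx]
        rw [List.filterMap_cons_none h1, e1, ih]
        simp [hD x hx]

private theorem ap_cons24 {A V : Type} (σ : V → List A) (s : A ⊕ V) (u : List (A ⊕ V)) :
    ap σ (s :: u) = ap σ [s] ++ ap σ u := by
  simp [ap]

private theorem ap_append24 {A V : Type} (σ : V → List A) (u v : List (A ⊕ V)) :
    ap σ (u ++ v) = ap σ u ++ ap σ v := by
  simp [ap]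

private theorem ap_single_ne24 {A V : Type} (σ : V → List A) (hσ : ∀ x, σ x ≠ []) (s : A ⊕ V) :
    ap σ [s] ≠ [] := by
  rcases s with c | x
  · simp [ap]
  · simp [ap, hσ x]

private theorem words_fin24 {S : Type} [Finite S] (n : ℕ) :
    {e : List S × List S | e.1.length + e.2.length = n}.Finite := by
  have h1 : {w : List S | w.length ≤ n}.Finite := List.finite_length_le S n
  refine (h1.prod h1).subset ?_
  rintro ⟨u, v⟩ h
  simp only [Set.mem_ofPred_eq] at h
  exact ⟨by simp only [Set.mem_ofPred_eq]; omega, by simp only [Set.mem_ofPred_eq]; omega⟩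

/-- first letter of a symbol -/
private def fh24 {A V : Type} (σ : V → List A) (s : A ⊕ V) : Option A := (ap σ [s]).head?

private theorem T2card24 {A V : Type} [Fintype A] [Fintype V] (σ : V → List A)
    (hσ : ∀ x, σ x ≠ []) :
    ((univ : Finset ((A ⊕ V) × (A ⊕ V))).filter (fun p => fh24 σ p.1 = fh24 σ p.2)).card ≤
      Fintype.card A + Fintype.card V + Fintype.card V + Fintype.card V * Fintype.card V := by
  have hx : ∀ x : V, ∃ c : A, fh24 σ (Sum.inr x) = some c := by
    intro x
    obtain ⟨c, l, h⟩ := List.exists_cons_of_ne_nil (hσ x)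
    exact ⟨c, by simp [fh24, ap, h]⟩
  choose g hg using hx
  have hl : ∀ c : A, fh24 σ (Sum.inl c : A ⊕ V) = some c := by
    intro c; simp [fh24, ap]
  have hsub : (univ : Finset ((A ⊕ V) × (A ⊕ V))).filter (fun p => fh24 σ p.1 = fh24 σ p.2) ⊆
      (((univ : Finset A).image (fun c => ((Sum.inl c : A ⊕ V), (Sum.inl c : A ⊕ V))) ∪
        (univ : Finset V).image (fun x => ((Sum.inr x : A ⊕ V), (Sum.inl (g x) : A ⊕ V)))) ∪
        (univ : Finset V).image (fun x => ((Sum.inl (g x) : A ⊕ V), (Sum.inr x : A ⊕ V)))) ∪
        (univ : Finset (V × V)).image (fun p => ((Sum.inr p.1 : A ⊕ V), (Sum.inr p.2 : A ⊕ V))) := by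
    rintro ⟨s, t⟩ h
    have h' := (Finset.mem_filter.1 h).2
    simp only [Finset.mem_union, Finset.mem_image, Finset.mem_univ, true_and]
    rcases s with c | x
    · rcases t with c' | y
      · rw [hl, hl] at h'
        left; left; left
        exact ⟨c, by rw [Option.some.inj h']⟩
      · rw [hl, hg] at h'
        left; right
        exact ⟨y, by rw [Option.some.inj h']⟩
    · rcases t with c' | y
      · rw [hl, hg] at h'
        left; left; right
        exact ⟨x, by rw [Option.some.inj h']⟩
      · right
        exact ⟨(x, y), rfl⟩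
  refine (Finset.card_le_card hsub).trans ?_
  refine (Finset.card_union_le _ _).trans ?_
  refine Nat.add_le_add ((Finset.card_union_le _ _).trans ?_) ?_
  · refine Nat.add_le_add ((Finset.card_union_le _ _).trans ?_) ?_
    · exact Nat.add_le_add (Finset.card_image_le.trans (by simp))
        (Finset.card_image_le.trans (by simp))
    · exact Finset.card_image_le.trans (by simp)
  · exact Finset.card_image_le.trans (by simp)

/-- the possible next symbols if the letter is known -/
private def T124 {A V : Type} [Fintype A] [Fintype V] (σ : V → List A) (u v : List (A ⊕ V)) :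
    Finset (A ⊕ V) :=
  univ.filter (fun s => ∀ c, s = Sum.inl c → (ap σ v)[(ap σ u).length]? = some c)

private theorem T1card24 {A V : Type} [Fintype A] [Fintype V] (σ : V → List A)
    (u v : List (A ⊕ V)) : (T124 σ u v).card ≤ Fintype.card V + 1 := by
  have hsub : T124 σ u v ⊆ (univ : Finset V).image (fun x => (Sum.inr x : A ⊕ V)) ∪
      ((univ : Finset A).filter (fun c => (ap σ v)[(ap σ u).length]? = some c)).image
        (fun c => (Sum.inl c : A ⊕ V)) := by
    intro s hs
    have h := (Finset.mem_filter.1 hs).2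
    simp only [Finset.mem_union, Finset.mem_image, Finset.mem_univ, true_and, Finset.mem_filter]
    rcases s with c | x
    · right; exact ⟨c, h c rfl, rfl⟩
    · left; exact ⟨x, rfl⟩
  refine (Finset.card_le_card hsub).trans ((Finset.card_union_le _ _).trans ?_)
  refine Nat.add_le_add (Finset.card_image_le.trans (by simp)) (Finset.card_image_le.trans ?_)
  rw [Finset.card_le_one]
  intro c hc c' hc'
  have h1 := (Finset.mem_filter.1 hc).2
  have h2 := (Finset.mem_filter.1 hc').2
  rw [h1] at h2
  exact Option.some.inj h2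

private theorem next24 {A V : Type} [Fintype A] [Fintype V] (σ : V → List A)
    (u v P Q : List (A ⊕ V)) (h : ap σ (u ++ P) = ap σ (v ++ Q))
    (hlt : (ap σ u).length < (ap σ v).length) : ∃ s P', P = s :: P' ∧ s ∈ T124 σ u v := by
  rw [ap_append24, ap_append24] at h
  rcases P with _ | ⟨s, P'⟩
  · exfalso
    have h1 := congrArg List.length h
    have h2 : ap σ ([] : List (A ⊕ V)) = [] := rfl
    rw [h2] at h1
    simp only [List.length_append, List.length_nil] at h1
    omega
  · refine ⟨s, P', rfl, ?_⟩
    refine Finset.mem_filter.2 ⟨Finset.mem_univ _, ?_⟩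
    rintro c rfl
    have h1 : (ap σ u ++ ap σ (Sum.inl c :: P'))[(ap σ u).length]? =
        (ap σ v ++ ap σ Q)[(ap σ u).length]? := by rw [h]
    rw [List.getElem?_append_left hlt, List.getElem?_append_right (le_refl _), Nat.sub_self,
      ap_cons24] at h1
    rw [← h1]
    simp [ap]

theorem fixed_ne {A V : Type} [Fintype A] [Fintype V] (hA : 1 ≤ Fintype.card A)
    (σ : V → List A) (hσ : ∀ x, σ x ≠ []) (n : ℕ) :
    ({e : List (A ⊕ V) × List (A ⊕ V) | e.1.length + e.2.length = n ∧
      ap σ e.1 = ap σ e.2}.ncard : ℝ) ≤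
      Real.sqrt ((Fintype.card V + 1) ^ 2 + Fintype.card A - 1) ^ n := by
  have hA' : (1 : ℝ) ≤ Fintype.card A := by exact_mod_cast hA
  have hV' : (0 : ℝ) ≤ Fintype.card V := by positivity
  have hb2 : ((Fintype.card V : ℝ) + 1) ≤
      Real.sqrt ((Fintype.card V + 1) ^ 2 + Fintype.card A - 1) := by
    apply Real.le_sqrt_of_sq_le
    linarith
  have hb : (1 : ℝ) ≤ Real.sqrt ((Fintype.card V + 1) ^ 2 + Fintype.card A - 1) := by linarith
  have hsq : Real.sqrt ((Fintype.card V + 1) ^ 2 + Fintype.card A - 1) ^ 2 =
      ((Fintype.card V : ℝ) + 1) ^ 2 + Fintype.card A - 1 := by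
    apply Real.sq_sqrt
    nlinarith
  have hlen : ∀ u : List (A ⊕ V), fl (fun x => (σ x).length) u = (ap σ u).length :=
    fun u => (ap_length σ u).symm
  refine tree (fun x => (σ x).length) (fun x => List.length_pos_iff.2 (hσ x)) n _
    (fun e he => he.1) ((words_fin24 n).subset fun e he => he.1) _ hb
    ((univ : Finset ((A ⊕ V) × (A ⊕ V))).filter (fun p => fh24 σ p.1 = fh24 σ p.2)) ?_
    (T124 σ) (fun u v => T124 σ v u) ?_ ?_ ?_ ?_ ?_
  · rw [hsq]
    have h1 : ((((univ : Finset ((A ⊕ V) × (A ⊕ V))).filter
        (fun p => fh24 σ p.1 = fh24 σ p.2)).card : ℕ) : ℝ) ≤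
        ((Fintype.card A + Fintype.card V + Fintype.card V +
          Fintype.card V * Fintype.card V : ℕ) : ℝ) := by
      exact_mod_cast T2card24 σ hσ
    refine h1.trans (le_of_eq ?_)
    push_cast
    ring
  · intro u v
    refine le_trans ?_ hb2
    exact_mod_cast T1card24 σ u v
  · intro u v
    refine le_trans ?_ hb2
    exact_mod_cast T1card24 σ v u
  · intro u v P Q hm h
    rw [hlen, hlen] at h
    have h1 : ap σ (u ++ P) = ap σ (v ++ Q) := hm.2
    rw [ap_append24, ap_append24] at h1
    have h2 := (List.append_inj h1 h).2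
    rcases P with _ | ⟨s, P'⟩
    · left
      rcases Q with _ | ⟨t, Q'⟩
      · exact ⟨rfl, rfl⟩
      · exfalso
        rw [ap_cons24 σ t Q'] at h2
        have h3 := ap_single_ne24 σ hσ t
        have h4 : ap σ ([] : List (A ⊕ V)) = [] := rfl
        rw [h4] at h2
        exact h3 (List.append_eq_nil_iff.1 h2.symm).1
    · right
      rcases Q with _ | ⟨t, Q'⟩
      · exfalso
        rw [ap_cons24 σ s P'] at h2
        have h3 := ap_single_ne24 σ hσ s
        have h4 : ap σ ([] : List (A ⊕ V)) = [] := rfl
        rw [h4] at h2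
        exact h3 (List.append_eq_nil_iff.1 h2).1
      · refine ⟨s, t, P', Q', rfl, rfl, ?_⟩
        refine Finset.mem_filter.2 ⟨Finset.mem_univ _, ?_⟩
        rw [ap_cons24 σ s P', ap_cons24 σ t Q'] at h2
        have h3 := congrArg List.head? h2
        rw [List.head?_append_of_ne_nil _ (ap_single_ne24 σ hσ s),
          List.head?_append_of_ne_nil _ (ap_single_ne24 σ hσ t)] at h3
        exact h3
  · intro u v P Q hm _ h
    rw [hlen, hlen] at h
    exact next24 σ u v P Q hm.2 h
  · intro u v P Q hm _ h
    rw [hlen, hlen] at h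
    exact next24 σ v u Q P hm.2.symm h

end

end Pool.Agent.WE
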