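import Pool.Agent.WE.Fix24
import Pool.Agent.WE.Er11

/-! # Fixed substitutions, erased variables allowed (row R12c) -/

set_option autoImplicit false

namespace Pool.Agent.WE

open Classical Finset

noncomputable section

/-- cutting the size into the lengths of the two sides -/
theorem split_len24 {S : Type} (P : List S × List S → Prop) [Finite S] (n : ℕ) :
    {e : List S × List S | e.1.length + e.2.length = n ∧ P e}.ncard ≤
      ∑ i ∈ range (n + 1),
        {e : List S × List S | e.1.length = i ∧ e.2.length = n - i ∧ P e}.ncard := by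
  have hfin : {e : List S × List S | e.1.length + e.2.length = n}.Finite := by
    have h1 : {w : List S | w.length ≤ n}.Finite := List.finite_length_le S n
    refine (h1.prod h1).subset ?_
    rintro ⟨u, v⟩ h
    simp only [Set.mem_ofPred_eq] at h
    exact ⟨by simp only [Set.mem_ofPred_eq]; omega, by simp only [Set.mem_ofPred_eq]; omega⟩
  refine le_trans (Set.ncard_le_ncard (t := ⋃ i ∈ range (n + 1),
    {e : List S × List S | e.1.length = i ∧ e.2.length = n - i ∧ P e}) ?_ ?_)
    (Finset.set_ncard_biUnion_le _ _)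
  · rintro e ⟨h1, h2⟩
    simp only [Set.mem_iUnion]
    exact ⟨e.1.length, Finset.mem_range.2 (by omega), rfl, by omega, h2⟩
  · refine hfin.subset ?_
    intro e he
    simp only [Set.mem_iUnion] at he
    obtain ⟨i, hi, h1, h2, _⟩ := he
    have := Finset.mem_range.1 hi
    simp only [Set.mem_ofPred_eq]
    omega

theorem res_inj24 {A V : Type} (D : Finset V) (x y : A ⊕ V) (g : A ⊕ D)
    (hx : res D x = some g) (hy : res D y = some g) : x = y := by
  have key : ∀ z : A ⊕ V, res D z = some g → z = Sum.map id (fun t : D => (t : V)) g := by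
    intro z hz
    rcases z with c | v
    · have h1 : res D (Sum.inl c : A ⊕ V) = some (Sum.inl c) := rfl
      rw [h1] at hz
      rw [← Option.some.inj hz]
      rfl
    · by_cases hv : v ∈ D
      · have h1 : res D (Sum.inr v : A ⊕ V) = some (Sum.inr ⟨v, hv⟩) := by simp [res, hv]
        rw [h1] at hz
        rw [← Option.some.inj hz]
        rfl
      · have h1 : res D (Sum.inr v : A ⊕ V) = none := by simp [res, hv]
        rw [h1] at hz
        exact absurd hz (by simp)
  rw [key x hx, key y hy]

theorem res_none24 {A V : Type} [Fintype A] [Fintype V] (D : Finset V) :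
    ((univ : Finset (A ⊕ V)).filter (fun x => res D x = none)).card =
      Fintype.card V - D.card := by
  have h1 : (univ : Finset (A ⊕ V)).filter (fun x => res D x = none) =
      ((univ : Finset V) \ D).image (fun v => (Sum.inr v : A ⊕ V)) := by
    ext z
    simp only [Finset.mem_filter, Finset.mem_univ, true_and, Finset.mem_image, Finset.mem_sdiff]
    constructor
    · intro hz
      rcases z with c | v
      · exact absurd hz (by simp [res])
      · refine ⟨v, ?_, rfl⟩
        intro hv
        simp [res, hv] at hz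
    · rintro ⟨v, hv, rfl⟩
      simp [res, hv]
  rw [h1, Finset.card_image_of_injective _ Sum.inr_injective, Finset.card_sdiff_of_subset
    (Finset.subset_univ D), Finset.card_univ]

theorem fixed_all (a k : ℕ) (ha : 1 ≤ a) (σ : Fin k → List (Fin a)) (n : ℕ) :
    ({e : Eqn a k | e.1.length + e.2.length = n ∧ Sol σ e}.ncard : ℝ) ≤
      (n + 1) * ((k : ℝ) + Real.sqrt a) ^ n := by
  set D : Finset (Fin k) := univ.filter (fun x => σ x ≠ []) with hDdef
  have hD : ∀ x, x ∉ D → σ x = [] := by
    intro x hx
    by_contra h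
    exact hx (Finset.mem_filter.2 ⟨Finset.mem_univ _, h⟩)
  have hσ' : ∀ x : D, σ x ≠ [] := fun x => (Finset.mem_filter.1 x.2).2
  have ha' : (1 : ℝ) ≤ a := by exact_mod_cast ha
  have hdk : D.card ≤ k := by
    have := Finset.card_le_univ D
    simpa using this
  set b : ℝ := Real.sqrt (((D.card : ℝ) + 1) ^ 2 + a - 1) with hb
  have hb0 : 0 ≤ b := Real.sqrt_nonneg _
  -- one cut
  have hone : ∀ c1 c2 : ℕ, ({e : Eqn a k | e.1.length = c1 ∧ e.2.length = c2 ∧ Sol σ e}.ncard : ℝ) ≤
      (((k : ℝ) - D.card) + b) ^ (c1 + c2) := by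
    intro c1 c2
    have h1 := er (res D) (res_inj24 D)
      {e : List (Fin a ⊕ D) × List (Fin a ⊕ D) | ap (fun x : D => σ x) e.1 =
        ap (fun x : D => σ x) e.2} 1 b zero_le_one hb0 ?_ c1 c2
    · rw [res_none24, one_mul, Fintype.card_fin, Nat.cast_sub hdk] at h1
      refine le_trans (le_of_eq ?_) h1
      congr 2
      ext e
      simp only [Set.mem_ofPred_eq, Sol, ap_res D σ hD]
    · intro m1 m2
      have h2 := fixed_ne (A := Fin a) (V := D) (by simpa using ha) (fun x : D => σ x) hσ' (m1 + m2)
      rw [Fintype.card_fin, Fintype.card_coe] at h2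
      rw [one_mul]
      refine le_trans ?_ h2
      have hfin : {e : List (Fin a ⊕ D) × List (Fin a ⊕ D) | e.1.length + e.2.length = m1 + m2 ∧
          ap (fun x : D => σ x) e.1 = ap (fun x : D => σ x) e.2}.Finite := by
        have h3 : {w : List (Fin a ⊕ D) | w.length ≤ m1 + m2}.Finite :=
          List.finite_length_le (Fin a ⊕ D) (m1 + m2)
        refine (h3.prod h3).subset ?_
        rintro ⟨u, v⟩ h
        simp only [Set.mem_ofPred_eq] at h
        exact ⟨by simp only [Set.mem_ofPred_eq]; omega, by simp only [Set.mem_ofPred_eq]; omega⟩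
      have h4 : {e ∈ {e : List (Fin a ⊕ D) × List (Fin a ⊕ D) | ap (fun x : D => σ x) e.1 =
          ap (fun x : D => σ x) e.2} | e.1.length = m1 ∧ e.2.length = m2}.ncard ≤
          {e : List (Fin a ⊕ D) × List (Fin a ⊕ D) | e.1.length + e.2.length = m1 + m2 ∧
          ap (fun x : D => σ x) e.1 = ap (fun x : D => σ x) e.2}.ncard := by
        refine Set.ncard_le_ncard ?_ hfin
        rintro e ⟨h5, h6, h7⟩
        exact ⟨by omega, h5⟩
      exact_mod_cast h4
  have hnum : ((k : ℝ) - D.card) + b ≤ (k : ℝ) + Real.sqrt a := by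
    have h1 : b ≤ (D.card : ℝ) + Real.sqrt a := by
      have hs : 1 ≤ Real.sqrt a := by
        apply Real.le_sqrt_of_sq_le
        simpa using ha'
      have hsq : Real.sqrt a ^ 2 = a := Real.sq_sqrt (by linarith)
      have hd0 : (0 : ℝ) ≤ D.card := by positivity
      rw [hb]
      apply Real.sqrt_le_iff.2
      refine ⟨by positivity, ?_⟩
      nlinarith [mul_nonneg hd0 (sub_nonneg.2 hs)]
    linarith
  have hnn : 0 ≤ ((k : ℝ) - D.card) + b := by
    have : (D.card : ℝ) ≤ k := by exact_mod_cast hdk
    linarith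
  have h1 := split_len24 (S := Fin a ⊕ Fin k) (fun e => Sol σ e) n
  have h2 : ({e : Eqn a k | e.1.length + e.2.length = n ∧ Sol σ e}.ncard : ℝ) ≤
      ∑ i ∈ range (n + 1),
        ({e : Eqn a k | e.1.length = i ∧ e.2.length = n - i ∧ Sol σ e}.ncard : ℝ) := by
    exact_mod_cast h1
  refine h2.trans ?_
  have h3 : ∀ i ∈ range (n + 1),
      ({e : Eqn a k | e.1.length = i ∧ e.2.length = n - i ∧ Sol σ e}.ncard : ℝ) ≤
        ((k : ℝ) + Real.sqrt a) ^ n := by
    intro i hi
    have hi' : i + (n - i) = n := by have := Finset.mem_range.1 hi; omega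
    have h4 := hone i (n - i)
    rw [hi'] at h4
    exact h4.trans (pow_le_pow_left₀ hnn hnum n)
  refine (Finset.sum_le_sum h3).trans (le_of_eq ?_)
  rw [Finset.sum_const, Finset.card_range, nsmul_eq_mul]
  push_cast
  ring

end

end Pool.Agent.WE
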