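import Pool.Agent.WE.Defs

/-! # Geometry classes (row R4) -/

set_option autoImplicit false

namespace Pool.Agent.WE

open Classical Finset

noncomputable section

private theorem sum_choose24 (N D : ℕ) : ∑ k ∈ Iic D, N.choose k ≤ (N + 1) ^ D := by
  induction D with
  | zero =>
    have : (Iic 0 : Finset ℕ) = {0} := by ext x; simp
    rw [this]; simp
  | succ D ih =>
    have h1 : (Iic (D + 1) : Finset ℕ) = insert (D + 1) (Iic D) := by
      ext x; simp only [mem_Iic, mem_insert]; omega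
    rw [h1, Finset.sum_insert (by simp)]
    have h2 : N.choose (D + 1) ≤ N ^ (D + 1) := Nat.choose_le_pow N (D + 1)
    have h3 : N ^ (D + 1) ≤ N * (N + 1) ^ D := by
      rw [pow_succ, Nat.mul_comm]
      exact Nat.mul_le_mul_left _ (Nat.pow_le_pow_left (by omega) D)
    calc N.choose (D + 1) + ∑ k ∈ Iic D, N.choose k ≤ N * (N + 1) ^ D + (N + 1) ^ D := by omega
      _ = (N + 1) ^ (D + 1) := by ring

variable {V : Type} [Fintype V]

/-- the coefficients of the forms -/
private abbrev Ph24 (V : Type) (n : ℕ) : Type := Option V → Fin (4 * n + 1)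

/-- coefficient -/
private def cf24 (n : ℕ) (i : Fin (4 * n + 1)) : ℤ := (i : ℕ) - 2 * (n : ℤ)

/-- value of a form -/
private def vl24 {n : ℕ} (p : Ph24 V n) (l : V → ℕ) : ℤ :=
  ∑ x, cf24 n (p (some x)) * (l x : ℤ) + cf24 n (p none)

/-- pattern -/
private def pt24 (n : ℕ) (l : V → ℕ) : Finset (Ph24 V n) := univ.filter (fun p => 0 < vl24 p l)

/-- all patterns -/
private def All24 (V : Type) [Fintype V] (n : ℕ) : Finset (Finset (Ph24 V n)) :=
  univ.filter (fun S => ∃ l : V → ℕ, (∀ x, 1 ≤ l x) ∧ pt24 n l = S)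

private def vec24 {n : ℕ} (p : Ph24 V n) : Option V → ℚ := fun o => (cf24 n (p o) : ℚ)

omit [Fintype V] in
private theorem vec_inj24 {n : ℕ} : Function.Injective (vec24 : Ph24 V n → Option V → ℚ) := by
  intro p q h
  funext o
  have h1 := congrFun h o
  simp only [vec24, cf24] at h1
  have h2 : ((p o : ℕ) : ℚ) = ((q o : ℕ) : ℚ) := by push_cast at h1; linarith
  exact Fin.ext (by exact_mod_cast h2)

private theorem vc24 (n : ℕ) (s : Finset (Ph24 V n)) (hs : (All24 V n).Shatters s) :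
    s.card ≤ Fintype.card V + 1 := by
  by_contra hcon
  have h1 : Module.finrank ℚ (Option V → ℚ) < (s.image (vec24 : Ph24 V n → Option V → ℚ)).card := by
    rw [Module.finrank_fintype_fun_eq_card, Fintype.card_option,
      Finset.card_image_of_injective _ vec_inj24]
    omega
  obtain ⟨f, hf, x0, hx0, hfx0⟩ := Module.exists_nontrivial_relation_of_finrank_lt_card h1
  rw [Finset.sum_image (fun x _ y _ h => vec_inj24 h)] at hf
  obtain ⟨p0, hp0, rfl⟩ := Finset.mem_image.1 hx0
  -- choose the sign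
  obtain ⟨c, hc, q0, hq0, hcq0⟩ : ∃ c : Ph24 V n → ℚ, ∑ p ∈ s, c p • vec24 p = 0 ∧
      ∃ q ∈ s, 0 < c q := by
    rcases lt_or_gt_of_ne hfx0 with h | h
    · refine ⟨fun p => - f (vec24 p), ?_, p0, hp0, by simpa using h⟩
      simp only [neg_smul, Finset.sum_neg_distrib, hf, neg_zero]
    · exact ⟨fun p => f (vec24 p), hf, p0, hp0, h⟩
  obtain ⟨S, hS, hsS⟩ := hs (t := s.filter (fun p => 0 < c p)) (Finset.filter_subset _ _)
  obtain ⟨-, l, -, hl⟩ := Finset.mem_filter.1 hS
  have h2 : ∀ p ∈ s, (0 < vl24 p l ↔ 0 < c p) := by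
    intro p hp
    constructor
    · intro h
      have h3 : p ∈ s ∩ S := Finset.mem_inter.2 ⟨hp, by rw [← hl]; simp [pt24, h]⟩
      rw [hsS] at h3
      exact (Finset.mem_filter.1 h3).2
    · intro h
      have h3 : p ∈ s ∩ S := by rw [hsS]; exact Finset.mem_filter.2 ⟨hp, h⟩
      have h4 := (Finset.mem_inter.1 h3).2
      rw [← hl] at h4
      exact (Finset.mem_filter.1 h4).2
  have h3 : ∀ p : Ph24 V n, (vl24 p l : ℚ) = ∑ x, vec24 p (some x) * (l x : ℚ) + vec24 p none := by
    intro p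
    simp only [vl24, vec24]
    push_cast
    rfl
  have h4 : ∑ p ∈ s, c p * (vl24 p l : ℚ) = 0 := by
    have h5 : ∀ o, ∑ p ∈ s, c p * vec24 p o = 0 := by
      intro o
      have := congrFun hc o
      simpa [Finset.sum_apply] using this
    simp only [h3, mul_add, Finset.sum_add_distrib, Finset.mul_sum]
    rw [Finset.sum_comm, h5 none, add_zero]
    refine Finset.sum_eq_zero fun x _ => ?_
    have h6 : ∀ p ∈ s, c p * (vec24 p (some x) * (l x : ℚ)) = (c p * vec24 p (some x)) * (l x : ℚ) :=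
      fun p _ => by ring
    rw [Finset.sum_congr rfl h6, ← Finset.sum_mul, h5 (some x), zero_mul]
  have h7 : 0 < ∑ p ∈ s, c p * (vl24 p l : ℚ) := by
    refine Finset.sum_pos' (fun p hp => ?_) ⟨q0, hq0, ?_⟩
    · rcases lt_or_ge 0 (c p) with h | h
      · exact mul_nonneg h.le (by exact_mod_cast ((h2 p hp).2 h).le)
      · have h8 : vl24 p l ≤ 0 := by
          by_contra h9
          exact absurd ((h2 p hp).1 (not_le.1 h9)) (not_lt.2 h)
        exact mul_nonneg_of_nonpos_of_nonpos h (by exact_mod_cast h8)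
    · exact mul_pos hcq0 (by exact_mod_cast (h2 q0 hq0).2 hcq0)
  linarith

theorem geo (n : ℕ) : ∃ G : Finset (V → ℕ),
    G.card ≤ ((4 * n + 1) ^ (Fintype.card V + 1) + 1) ^ (Fintype.card V + 1) ∧
    (∀ l ∈ G, ∀ x, 1 ≤ l x) ∧
    ∀ l : V → ℕ, (∀ x, 1 ≤ l x) → ∃ l' ∈ G, Eqv n l l' := by
  let rep : Finset (Ph24 V n) → V → ℕ := fun S =>
    if h : ∃ l : V → ℕ, (∀ x, 1 ≤ l x) ∧ pt24 n l = S then h.choose else fun _ => 1
  have hrep : ∀ S, (∃ l : V → ℕ, (∀ x, 1 ≤ l x) ∧ pt24 n l = S) →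
      (∀ x, 1 ≤ rep S x) ∧ pt24 n (rep S) = S := by
    intro S h
    simp only [rep, dif_pos h]
    exact h.choose_spec
  refine ⟨(All24 V n).image rep, ?_, ?_, ?_⟩
  · refine Finset.card_image_le.trans ((card_le_card_shatterer _).trans
      (card_shatterer_le_sum_vcDim.trans ?_))
    have h1 : (All24 V n).vcDim ≤ Fintype.card V + 1 := by
      refine Finset.sup_le fun s hs => vc24 n s (mem_shatterer.1 hs)
    have h2 : Fintype.card (Ph24 V n) = (4 * n + 1) ^ (Fintype.card V + 1) := by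
      simp [Ph24]
    rw [h2]
    refine (Finset.sum_le_sum_of_subset (Finset.Iic_subset_Iic.2 h1)).trans (sum_choose24 _ _)
  · intro l hl
    obtain ⟨S, hS, rfl⟩ := Finset.mem_image.1 hl
    exact (hrep S (Finset.mem_filter.1 hS).2).1
  · intro l hl
    have hS : ∃ l' : V → ℕ, (∀ x, 1 ≤ l' x) ∧ pt24 n l' = pt24 n l := ⟨l, hl, rfl⟩
    refine ⟨rep (pt24 n l), Finset.mem_image_of_mem _ (Finset.mem_filter.2 ⟨mem_univ _, hS⟩), ?_⟩
    have h1 := (hrep _ hS).2
    intro φ c hφ hc
    have key : ∀ z : ℤ, |z| ≤ 2 * n → ∃ i : Fin (4 * n + 1), cf24 n i = z := by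
      intro z hz
      have hz' := abs_le.1 hz
      refine ⟨⟨(z + 2 * n).toNat, by omega⟩, ?_⟩
      simp only [cf24]
      omega
    choose! g hg using key
    let p : Ph24 V n := fun o => match o with
      | some x => g (φ x)
      | none => g c
    have hp : ∀ l' : V → ℕ, vl24 p l' = ∑ x, φ x * (l' x : ℤ) + c := by
      intro l'
      simp only [vl24, p, hg c hc]
      congr 1
      exact Finset.sum_congr rfl fun x _ => by rw [hg (φ x) (hφ x)]
    have h2 : p ∈ pt24 n l ↔ p ∈ pt24 n (rep (pt24 n l)) := by rw [h1]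
    simp only [pt24, mem_filter, mem_univ, true_and] at h2
    rw [← hp l, ← hp]
    exact h2

end

end Pool.Agent.WE
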