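import Pool.Agent.WE.Side21

/-! # R6 : marks -/

set_option autoImplicit false

namespace Pool.Agent.WE

open Classical Finset

noncomputable section

/-- the set of marks described by the first and the last elements of the crowded blocks -/
def Mof (n : ℕ) (F E : Finset ℕ) : Finset ℕ :=
  (range n).filter (fun i => ∃ f ∈ F, f ≤ i ∧ ∀ e ∈ E, ¬ (f ≤ e ∧ e ≤ i))

/-- R6a -/
theorem mrk_eq {B B' V : Type} (t n : ℕ) (l : V → ℕ) (hl : ∀ x, 1 ≤ l x) (w : List (B ⊕ V))
    (w' : List (B' ⊕ V)) (hw : w.length ≤ n) (h : fl l w = fl l w') :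
    ∃ F E : Finset ℕ, F ⊆ range n ∧ E ⊆ range n ∧ F.card ≤ n / (t + 1) ∧ E.card ≤ n / (t + 1) ∧
      mrk t l w w' = Mof n F E := by
  -- every leader index has a block which is an interval
  have hcov : ∀ j, ∃ i0, j < w'.length → i0 < w.length ∧ pos l w i0 ≤ pos l w' j ∧
      pos l w' j < pos l w (i0 + 1) := by
    intro j
    by_cases hj : j < w'.length
    · have e1 : pos l w' j < pos l w' (j + 1) := pos_lt hl w' (Nat.lt_succ_self j) hj
      have e2 : pos l w' (j + 1) ≤ fl l w' := pos_le_fl l w' (j + 1)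
      obtain ⟨i, hi⟩ := cover l w (p := pos l w' j) (by omega)
      exact ⟨i, fun _ => hi⟩
    · exact ⟨0, fun h => absurd h hj⟩
  choose f hf using hcov
  let b : ℕ → ℕ := fun j => (blk l w w' j).card
  have hint := fun j (hj : j < w'.length) =>
    blk_interval l hl w w' h j (f j) hj (hf j hj).2.1 (hf j hj).2.2
  let C : Finset ℕ := (range w'.length).filter (fun j => t < b j)
  have hC : ∀ j ∈ C, j < w'.length ∧ t < b j := fun j hj => by
    obtain ⟨h1, h2⟩ := Finset.mem_filter.1 hj
    exact ⟨Finset.mem_range.1 h1, h2⟩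
  -- blocks of different leaders are disjoint
  have hdisj : ∀ j j' i, i ∈ blk l w w' j → i ∈ blk l w w' j' → j = j' := by
    intro j j' i h1 h2
    unfold blk at h1 h2
    rw [Finset.mem_filter] at h1 h2
    exact (cover_unique l w' (p := pos l w i) (i := j) (j := j') (by omega) (by omega)
      (by omega) (by omega))
  have hCcard : C.card * (t + 1) ≤ n := by
    have h1 : (C.biUnion (fun j => blk l w w' j)).card = ∑ j ∈ C, (blk l w w' j).card := by
      apply Finset.card_biUnion
      intro j hj j' hj' hne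
      rw [Function.onFun, Finset.disjoint_left]
      intro i hi hi'
      exact hne (hdisj j j' i hi hi')
    have h2 : C.biUnion (fun j => blk l w w' j) ⊆ range w.length := by
      intro i hi
      obtain ⟨j, _, hj⟩ := Finset.mem_biUnion.1 hi
      unfold blk at hj
      exact (Finset.mem_filter.1 hj).1
    have h3 := Finset.card_le_card h2
    rw [h1, Finset.card_range] at h3
    have h4 : ∑ j ∈ C, (t + 1) ≤ ∑ j ∈ C, (blk l w w' j).card :=
      Finset.sum_le_sum (fun j hj => (hC j hj).2)
    rw [Finset.sum_const, smul_eq_mul] at h4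
    omega
  have hCn : C.card ≤ n / (t + 1) := (Nat.le_div_iff_mul_le (Nat.succ_pos t)).2 hCcard
  refine ⟨C.image (fun j => f j + 1), C.image (fun j => f j + b j), ?_, ?_,
    le_trans Finset.card_image_le hCn, le_trans Finset.card_image_le hCn, ?_⟩
  · intro i hi
    obtain ⟨j, hj, rfl⟩ := Finset.mem_image.1 hi
    rw [Finset.mem_range]
    have h1 := (hint j (hC j hj).1).2.1
    have h2 := (hC j hj).2
    have h3 : b j = (blk l w w' j).card := rfl
    omega
  · intro i hi
    obtain ⟨j, hj, rfl⟩ := Finset.mem_image.1 hi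
    rw [Finset.mem_range]
    have h1 := (hint j (hC j hj).1).2.1
    have h3 : b j = (blk l w w' j).card := rfl
    omega
  · ext i
    unfold mrk Mof
    rw [Finset.mem_filter, Finset.mem_filter, Finset.mem_range, Finset.mem_range]
    constructor
    · rintro ⟨h1, j, hj, hb, hlast, hcr⟩
      have hjC : j ∈ C := Finset.mem_filter.2 ⟨Finset.mem_range.2 hj, hcr⟩
      have hi := ((hint j hj).1 i).1 hb
      refine ⟨by omega, f j + 1, Finset.mem_image.2 ⟨j, hjC, rfl⟩, by omega, ?_⟩
      intro e he
      obtain ⟨j', hj', rfl⟩ := Finset.mem_image.1 he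
      rintro ⟨he1, he2⟩
      -- the last element of the block of `j'` lies in the block of `j`
      have hb' : f j' + b j' ∈ blk l w w' j := by
        rw [(hint j hj).1]
        have h3 : b j = (blk l w w' j).card := rfl
        omega
      have hb'' : f j' + b j' ∈ blk l w w' j' := by
        rw [(hint j' (hC j' hj').1).1]
        have h3 : b j' = (blk l w w' j').card := rfl
        have h4 := (hC j' hj').2
        omega
      have hjj := hdisj _ _ _ hb' hb''
      subst hjj
      -- `i` is the last element, but the next symbol also starts inside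
      have h3 : b j = (blk l w w' j).card := rfl
      have h5 : i = f j + (blk l w w' j).card := by omega
      have h6 := (hint j hj).2.2
      rw [← h5] at h6
      omega
    · rintro ⟨h1, f0, hf0, hle, hno⟩
      obtain ⟨j, hjC, rfl⟩ := Finset.mem_image.1 hf0
      have hj := (hC j hjC).1
      have h3 : b j = (blk l w w' j).card := rfl
      have h4 := hno (f j + b j) (Finset.mem_image.2 ⟨j, hjC, rfl⟩)
      have h5 : i < f j + b j := by
        by_contra hc
        have h6 := (hC j hjC).2
        exact h4 ⟨by omega, by omega⟩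
      have h6 : i ∈ blk l w w' j := by
        rw [(hint j hj).1]
        omega
      have h7 : i + 1 ∈ blk l w w' j := by
        rw [(hint j hj).1]
        omega
      have h8 := (hint j hj).2.1
      refine ⟨by omega, j, hj, h6, ?_, (hC j hjC).2⟩
      unfold blk at h7
      exact (Finset.mem_filter.1 h7).2.2

/-- number of small subsets -/
theorem small_sets21 (n m : ℕ) (z : ℝ) (hz : 0 < z) (hz1 : z ≤ 1) :
    (((range n).powerset.filter (fun F => F.card ≤ m)).card : ℝ) ≤ (1 / z) ^ m * (1 + z) ^ n := by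
  have h1 : ∑ F ∈ (range n).powerset, z ^ F.card = (1 + z) ^ n := by
    have h2 := Finset.sum_pow_mul_eq_add_pow z 1 (range n)
    simp only [one_pow, mul_one, Finset.card_range] at h2
    rw [h2, add_comm]
  rw [← h1, Finset.mul_sum]
  have h3 : (((range n).powerset.filter (fun F => F.card ≤ m)).card : ℝ) =
      ∑ F ∈ (range n).powerset.filter (fun F => F.card ≤ m), (1 : ℝ) := by
    rw [Finset.sum_const, nsmul_eq_mul, mul_one]
  rw [h3]
  have h4 : ∑ F ∈ (range n).powerset.filter (fun F => F.card ≤ m), (1 : ℝ) ≤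
      ∑ F ∈ (range n).powerset.filter (fun F => F.card ≤ m), (1 / z) ^ m * z ^ F.card := by
    apply Finset.sum_le_sum
    intro F hF
    have h5 := (Finset.mem_filter.1 hF).2
    have h6 : z ^ m ≤ z ^ F.card := pow_le_pow_of_le_one hz.le hz1 h5
    have h7 : (1 / z) ^ m * z ^ m = 1 := by
      rw [← mul_pow, one_div, inv_mul_cancel₀ hz.ne', one_pow]
    have h8 : 0 ≤ (1 / z) ^ m := by positivity
    calc (1 : ℝ) = (1 / z) ^ m * z ^ m := h7.symm
      _ ≤ (1 / z) ^ m * z ^ F.card := mul_le_mul_of_nonneg_left h6 h8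
  refine le_trans h4 ?_
  apply Finset.sum_le_sum_of_subset_of_nonneg (Finset.filter_subset _ _)
  intro F _ _
  positivity

/-- R6b -/
theorem marks_count (t n : ℕ) (z : ℝ) (hz : 0 < z) (hz1 : z ≤ 1) :
    ∃ MM : Finset (Finset ℕ), (MM.card : ℝ) ≤ ((1 / z) ^ (n / (t + 1)) * (1 + z) ^ n) ^ 2 ∧
      ∀ F E : Finset ℕ, F ⊆ range n → E ⊆ range n → F.card ≤ n / (t + 1) → E.card ≤ n / (t + 1) →
        Mof n F E ∈ MM := by
  let S : Finset (Finset ℕ) := (range n).powerset.filter (fun F => F.card ≤ n / (t + 1))
  refine ⟨(S ×ˢ S).image (fun q => Mof n q.1 q.2), ?_, ?_⟩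
  · have h1 : (((S ×ˢ S).image (fun q => Mof n q.1 q.2)).card : ℝ) ≤ (S.card : ℝ) * S.card := by
      have h2 := Finset.card_image_le (s := S ×ˢ S) (f := fun q => Mof n q.1 q.2)
      rw [Finset.card_product] at h2
      exact_mod_cast h2
    have h3 := small_sets21 n (n / (t + 1)) z hz hz1
    have h4 : (0 : ℝ) ≤ S.card := Nat.cast_nonneg _
    rw [pow_two]
    exact le_trans h1 (mul_le_mul h3 h3 h4 (le_trans h4 h3))
  · intro F E hF hE hFc hEc
    refine Finset.mem_image.2 ⟨(F, E), Finset.mem_product.2 ⟨?_, ?_⟩, rfl⟩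
    · exact Finset.mem_filter.2 ⟨Finset.mem_powerset.2 hF, hFc⟩
    · exact Finset.mem_filter.2 ⟨Finset.mem_powerset.2 hE, hEc⟩

end

end Pool.Agent.WE
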