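import Pool.Agent.WE.Defs

/-! # Numbers: absorption of polynomial factors, choice of `z` and `t` -/

set_option autoImplicit false

namespace Pool.Agent.WE

open Classical Finset

noncomputable section

/-- a polynomial factor is absorbed by a larger base -/
theorem absorb11 (p : ℕ) {ρ θ : ℝ} (h0 : 0 < ρ) (h : ρ < θ) :
    ∃ K : ℝ, 0 ≤ K ∧ ∀ n : ℕ, ((n : ℝ) + 1) ^ p * ρ ^ n ≤ K * θ ^ n := by
  have hθ : 0 < θ := h0.trans h
  set r := ρ / θ with hr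
  have hr0 : 0 < r := div_pos h0 hθ
  have hr1 : r < 1 := (div_lt_one hθ).2 h
  have ht := tendsto_pow_const_mul_const_pow_of_lt_one p hr0.le hr1
  obtain ⟨B, hB⟩ := ht.bddAbove_range
  have hB' : ∀ n : ℕ, ((n : ℝ)) ^ p * r ^ n ≤ B := fun n => hB ⟨n, rfl⟩
  refine ⟨max B 0 / r, by positivity, fun n => ?_⟩
  have h1 := hB' (n + 1)
  push_cast at h1
  have h2 : ((n : ℝ) + 1) ^ p * r ^ n ≤ max B 0 / r := by
    rw [le_div_iff₀ hr0]
    calc ((n : ℝ) + 1) ^ p * r ^ n * r = ((n : ℝ) + 1) ^ p * r ^ (n + 1) := by ring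
      _ ≤ B := h1
      _ ≤ max B 0 := le_max_left _ _
  have h3 : ρ ^ n = r ^ n * θ ^ n := by
    rw [← mul_pow, hr, div_mul_cancel₀ _ hθ.ne']
  rw [h3, ← mul_assoc]
  exact mul_le_mul_of_nonneg_right h2 (by positivity)

/-- R11a -/
theorem number_zt (d : ℕ) (b g : ℝ) (hb : 1 ≤ b) (hg : b < g) : ∃ (z : ℝ) (t : ℕ), 0 < z ∧ z ≤ 1 ∧
    ∀ K : ℝ, 0 ≤ K → ∃ C : ℝ, 0 ≤ C ∧ ∀ n : ℕ,
      ((((4 * n + 1) ^ (d + 1) + 1) ^ (d + 1) : ℕ) : ℝ) *
        (((1 / z) ^ (n / (t + 1)) * (1 + z) ^ n) ^ 2) ^ 2 * (K * b ^ n) ≤ C * g ^ n := by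
  have hb0 : 0 < b := by linarith
  set q := g / b with hq
  have hq1 : 1 < q := (one_lt_div hb0).2 hg
  set z := min 1 ((q - 1) / 30) with hz
  have hz0 : 0 < z := lt_min one_pos (by linarith)
  have hz1 : z ≤ 1 := min_le_left _ _
  have hz2 : z ≤ (q - 1) / 30 := min_le_right _ _
  have hp : (1 + z) ^ 4 ≤ (1 + q) / 2 := by
    have h2 : z ^ 2 ≤ z := by nlinarith
    have h3 : z ^ 3 ≤ z := by nlinarith
    have h4 : z ^ 4 ≤ z := by nlinarith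
    have h5 : (1 + z) ^ 4 = 1 + 4 * z + 6 * z ^ 2 + 4 * z ^ 3 + z ^ 4 := by ring
    rw [h5]
    linarith
  set y := (1 + q) / 2 with hy
  have hy0 : 0 < y := by rw [hy]; linarith
  have hyq : y < q := by rw [hy]; linarith
  obtain ⟨w, hw1, hw2⟩ := exists_between ((one_lt_div hy0).2 hyq)
  have hw0 : 0 < w := by linarith
  have hwy : w * y < q := (lt_div_iff₀ hy0).1 hw2
  obtain ⟨t, ht⟩ := pow_unbounded_of_one_lt ((1 / z) ^ 4) hw1
  have ht' : (1 / z) ^ 4 ≤ w ^ (t + 1) := by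
    refine ht.le.trans ?_
    exact pow_le_pow_right₀ hw1.le (by omega)
  have hρ0 : 0 < w * y * b := by positivity
  have hρ : w * y * b < g := by
    have := mul_lt_mul_of_pos_right hwy hb0
    rwa [hq, div_mul_cancel₀ _ hb0.ne'] at this
  obtain ⟨K', hK', hK2⟩ := absorb11 ((d + 1) * (d + 1)) hρ0 hρ
  refine ⟨z, t, hz0, hz1, fun K hK => ⟨4 ^ ((d + 1) * (d + 1)) * K * K', by positivity,
    fun n => ?_⟩⟩
  set D := (d + 1) * (d + 1) with hD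
  have h1 : ((((4 * n + 1) ^ (d + 1) + 1) ^ (d + 1) : ℕ) : ℝ) ≤ 4 ^ D * ((n : ℝ) + 1) ^ D := by
    have h2 : ((4 * n + 1) ^ (d + 1) + 1) ^ (d + 1) ≤ (4 * (n + 1)) ^ D := by
      rw [hD, pow_mul]
      apply Nat.pow_le_pow_left
      have h3 : (4 * n + 1) ^ (d + 1) < (4 * (n + 1)) ^ (d + 1) :=
        Nat.pow_lt_pow_left (by omega) (by omega)
      exact h3
    have h4 : ((((4 * n + 1) ^ (d + 1) + 1) ^ (d + 1) : ℕ) : ℝ) ≤
      (((4 * (n + 1)) ^ D : ℕ) : ℝ) := by exact_mod_cast h2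
    refine h4.trans (le_of_eq ?_)
    push_cast
    rw [mul_pow]
  have h5 : (((1 / z) ^ (n / (t + 1)) * (1 + z) ^ n) ^ 2) ^ 2 ≤ w ^ n * y ^ n := by
    have h6 : (((1 / z) ^ (n / (t + 1)) * (1 + z) ^ n) ^ 2) ^ 2 =
        ((1 / z) ^ 4) ^ (n / (t + 1)) * ((1 + z) ^ 4) ^ n := by
      rw [← pow_mul, mul_pow, ← pow_mul, ← pow_mul, ← pow_mul, ← pow_mul]
      congr 2 <;> ring
    rw [h6]
    apply mul_le_mul
    · calc ((1 / z) ^ 4) ^ (n / (t + 1)) ≤ (w ^ (t + 1)) ^ (n / (t + 1)) :=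
            pow_le_pow_left₀ (by positivity) ht' _
        _ = w ^ ((t + 1) * (n / (t + 1))) := by rw [pow_mul]
        _ ≤ w ^ n := pow_le_pow_right₀ hw1.le (Nat.mul_div_le n (t + 1))
    · exact pow_le_pow_left₀ (by positivity) hp n
    · positivity
    · positivity
  calc ((((4 * n + 1) ^ (d + 1) + 1) ^ (d + 1) : ℕ) : ℝ) *
        (((1 / z) ^ (n / (t + 1)) * (1 + z) ^ n) ^ 2) ^ 2 * (K * b ^ n)
      ≤ (4 ^ D * ((n : ℝ) + 1) ^ D) * (w ^ n * y ^ n) * (K * b ^ n) := by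
        apply mul_le_mul_of_nonneg_right _ (by positivity)
        exact mul_le_mul h1 h5 (by positivity) (by positivity)
    _ = 4 ^ D * K * (((n : ℝ) + 1) ^ D * (w * y * b) ^ n) := by
        rw [mul_pow, mul_pow]
        ring
    _ ≤ 4 ^ D * K * (K' * g ^ n) := mul_le_mul_of_nonneg_left (hK2 n) (by positivity)
    _ = 4 ^ D * K * K' * g ^ n := by ring

end

end Pool.Agent.WE
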