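import Pool.Agent.WE.FixAll24
import Pool.Agent.WE.Geo24
import Pool.Agent.WE.FibB21
import Pool.Agent.WE.Mrk21
import Pool.Agent.WE.Num11

/-! # Growth of the equations with a non-erasing solution, general form (row R11b) -/

set_option autoImplicit false

namespace Pool.Agent.WE

open Classical Finset

noncomputable section

variable {A V : Type}

theorem fin_len24 {S : Type} [Finite S] (n : ℕ) (P : List S × List S → Prop) :
    {e : List S × List S | e.1.length + e.2.length = n ∧ P e}.Finite := by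
  have h3 : {w : List S | w.length ≤ n}.Finite := List.finite_length_le S n
  refine (h3.prod h3).subset ?_
  rintro ⟨u, v⟩ ⟨h, _⟩
  simp only at h
  exact ⟨by simp only [Set.mem_ofPred_eq]; omega, by simp only [Set.mem_ofPred_eq]; omega⟩

/-- size of one class -/
theorem class24 [Fintype A] [Fintype V] (t n K : ℕ) (l : V → ℕ) (M M' : Finset ℕ) (b : ℝ)
    (hK : ∀ P Q : List (Option A ⊕ V), {e : List (A ⊕ V) × List (A ⊕ V) | Cls t n l M M' e ∧
      psk M l e.1 e.2 = P ∧ psk M' l e.2 e.1 = Q}.ncard ≤ K)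
    (hb : ({q : List (Option A ⊕ V) × List (Option A ⊕ V) | ∃ e : List (A ⊕ V) × List (A ⊕ V),
        Cls t n l M M' e ∧ q = (psk M l e.1 e.2, psk M' l e.2 e.1)}.ncard : ℝ) ≤ b) :
    ({e : List (A ⊕ V) × List (A ⊕ V) | Cls t n l M M' e}.ncard : ℝ) ≤ K * b := by
  have hfin : {e : List (A ⊕ V) × List (A ⊕ V) | Cls t n l M M' e}.Finite :=
    fin_len24 n _
  set S : Finset (List (A ⊕ V) × List (A ⊕ V)) := hfin.toFinset with hS
  set φ : List (A ⊕ V) × List (A ⊕ V) → List (Option A ⊕ V) × List (Option A ⊕ V) :=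
    fun e => (psk M l e.1 e.2, psk M' l e.2 e.1) with hφ
  have h1 : ({e : List (A ⊕ V) × List (A ⊕ V) | Cls t n l M M' e}.ncard) = S.card :=
    Set.ncard_eq_toFinset_card _ hfin
  have h2 : {q : List (Option A ⊕ V) × List (Option A ⊕ V) | ∃ e : List (A ⊕ V) × List (A ⊕ V),
        Cls t n l M M' e ∧ q = (psk M l e.1 e.2, psk M' l e.2 e.1)} = ((S.image φ : Finset _) :
          Set (List (Option A ⊕ V) × List (Option A ⊕ V))) := by
    ext q
    simp only [Set.mem_ofPred_eq, Finset.coe_image, Set.mem_image, Finset.mem_coe, hS,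
      Set.Finite.mem_toFinset, hφ]
    constructor
    · rintro ⟨e, h3, h4⟩
      exact ⟨e, h3, h4.symm⟩
    · rintro ⟨e, h3, h4⟩
      exact ⟨e, h3, h4.symm⟩
  rw [h2, Set.ncard_coe_finset] at hb
  rw [h1]
  have h5 : S.card ≤ (S.image φ).card * K := by
    rw [Nat.mul_comm]
    refine Finset.card_le_mul_card_image S K ?_
    intro q hq
    refine le_trans (le_of_eq ?_) (hK q.1 q.2)
    rw [← Set.ncard_coe_finset]
    congr 1
    ext e
    simp only [Finset.coe_filter, Set.mem_ofPred_eq, hS, Set.Finite.mem_toFinset, hφ]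
    constructor
    · rintro ⟨h3, h4⟩
      exact ⟨h3, by rw [← h4], by rw [← h4]⟩
    · rintro ⟨h3, h4, h5⟩
      exact ⟨h3, Prod.ext h4 h5⟩
  have h6 : (S.card : ℝ) ≤ ((S.image φ).card : ℝ) * K := by exact_mod_cast h5
  calc (S.card : ℝ) ≤ ((S.image φ).card : ℝ) * K := h6
    _ ≤ b * K := mul_le_mul_of_nonneg_right hb (Nat.cast_nonneg K)
    _ = K * b := by ring

/-- R11b: general form -/
theorem N_gen {A V : Type} [Fintype A] [Fintype V] (p : (V → ℕ) → Prop)
    (hp : ∀ n, 1 ≤ n → ∀ l l', Eqv n l l' → p l → p l') (b : ℝ) (hb : 1 ≤ b)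
    (hsk : ∀ (t n : ℕ) (l : V → ℕ) (M M' : Finset ℕ), (∀ x, 1 ≤ l x) → p l →
      ({q : List (Option A ⊕ V) × List (Option A ⊕ V) | ∃ e : List (A ⊕ V) × List (A ⊕ V),
        Cls t n l M M' e ∧ q = (psk M l e.1 e.2, psk M' l e.2 e.1)}.ncard : ℝ) ≤ b ^ n)
    (g : ℝ) (hg : b < g) :
    ∃ C : ℝ, 0 ≤ C ∧ ∀ n : ℕ, ({e : List (A ⊕ V) × List (A ⊕ V) | e.1.length + e.2.length = n ∧
      ∃ σ : V → List A, (∀ x, σ x ≠ []) ∧ p (fun x => (σ x).length) ∧
        ap σ e.1 = ap σ e.2}.ncard : ℝ) ≤ C * g ^ n := by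
  obtain ⟨z, t, hz, hz1, hnum⟩ := number_zt (Fintype.card V) b g hb hg
  obtain ⟨K, hK⟩ := fibre (A := A) (V := V) t
  obtain ⟨C, hC0, hC⟩ := hnum K (Nat.cast_nonneg K)
  refine ⟨C + 1, by linarith, ?_⟩
  intro n
  have hg0 : 0 < g := by linarith
  rcases Nat.eq_zero_or_pos n with rfl | hn
  · have h1 : {e : List (A ⊕ V) × List (A ⊕ V) | e.1.length + e.2.length = 0 ∧
      ∃ σ : V → List A, (∀ x, σ x ≠ []) ∧ p (fun x => (σ x).length) ∧
        ap σ e.1 = ap σ e.2} ⊆ {([], [])} := by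
      rintro ⟨u, v⟩ ⟨h2, _⟩
      have h3 : u = [] := List.eq_nil_of_length_eq_zero (by simp only at h2; omega)
      have h4 : v = [] := List.eq_nil_of_length_eq_zero (by simp only at h2; omega)
      rw [h3, h4]
      rfl
    have h2 := Set.ncard_le_ncard h1 (Set.finite_singleton _)
    rw [Set.ncard_singleton] at h2
    have h3 : ({e : List (A ⊕ V) × List (A ⊕ V) | e.1.length + e.2.length = 0 ∧
      ∃ σ : V → List A, (∀ x, σ x ≠ []) ∧ p (fun x => (σ x).length) ∧
        ap σ e.1 = ap σ e.2}.ncard : ℝ) ≤ 1 := by exact_mod_cast h2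
    rw [pow_zero, mul_one]
    linarith
  · obtain ⟨G, hG1, hG2, hG3⟩ := geo (V := V) n
    obtain ⟨MM, hM1, hM2⟩ := marks_count t n z hz hz1
    set GP : Finset (V → ℕ) := G.filter p with hGP
    set I : Finset ((V → ℕ) × (Finset ℕ × Finset ℕ)) := GP ×ˢ (MM ×ˢ MM) with hI
    have hsub : {e : List (A ⊕ V) × List (A ⊕ V) | e.1.length + e.2.length = n ∧
        ∃ σ : V → List A, (∀ x, σ x ≠ []) ∧ p (fun x => (σ x).length) ∧
          ap σ e.1 = ap σ e.2} ⊆
        ⋃ i ∈ I, {e : List (A ⊕ V) × List (A ⊕ V) | Cls t n i.1 i.2.1 i.2.2 e} := by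
      rintro e ⟨he, σ, hσ, hpσ, hap⟩
      have hl1 : ∀ x, 1 ≤ (fun x => (σ x).length) x := by
        intro x
        exact Nat.one_le_iff_ne_zero.2 (fun h => hσ x (List.eq_nil_of_length_eq_zero h))
      obtain ⟨l', hl', hE⟩ := hG3 (fun x => (σ x).length) hl1
      have hpl' : p l' := hp n hn _ _ hE hpσ
      have hfl : fl l' e.1 = fl l' e.2 := by
        have h1 : fl (fun x => (σ x).length) e.1 = fl (fun x => (σ x).length) e.2 := by
          rw [← ap_length, ← ap_length, hap]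
        have h2 := (eqv_eq hE e.1 e.2 (by omega) (by omega) e.1.length e.2.length).1 (by
          rw [pos_len _ _ le_rfl, pos_len _ _ le_rfl, h1])
        rwa [pos_len _ _ le_rfl, pos_len _ _ le_rfl] at h2
      obtain ⟨F1, E1, a1, a2, a3, a4, a5⟩ := mrk_eq t n l' (hG2 l' hl') e.1 e.2 (by omega) hfl
      obtain ⟨F2, E2, b1, b2, b3, b4, b5⟩ := mrk_eq t n l' (hG2 l' hl') e.2 e.1 (by omega) hfl.symm
      simp only [Set.mem_iUnion]
      refine ⟨(l', (mrk t l' e.1 e.2, mrk t l' e.2 e.1)), ?_, ?_⟩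
      · rw [hI, Finset.mem_product, Finset.mem_product]
        refine ⟨Finset.mem_filter.2 ⟨hl', hpl'⟩, ?_, ?_⟩
        · simp only
          rw [a5]
          exact hM2 F1 E1 a1 a2 a3 a4
        · simp only
          rw [b5]
          exact hM2 F2 E2 b1 b2 b3 b4
      · exact ⟨he, rfl, rfl, σ, hσ, hap, hE⟩
    have hfin : (⋃ i ∈ I, {e : List (A ⊕ V) × List (A ⊕ V) |
        Cls t n i.1 i.2.1 i.2.2 e}).Finite :=
      I.finite_toSet.biUnion (fun i _ => fin_len24 n _)
    have h1 := (Set.ncard_le_ncard hsub hfin).trans (Finset.set_ncard_biUnion_le I _)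
    have h2 : ∀ i ∈ I, ({e : List (A ⊕ V) × List (A ⊕ V) |
        Cls t n i.1 i.2.1 i.2.2 e}.ncard : ℝ) ≤ K * b ^ n := by
      rintro ⟨l, M, M'⟩ hi
      rw [hI, Finset.mem_product, Finset.mem_product] at hi
      have hl := Finset.mem_filter.1 hi.1
      exact class24 t n K l M M' (b ^ n) (fun P Q => hK n l M M' P Q (hG2 l hl.1))
        (hsk t n l M M' (hG2 l hl.1) hl.2)
    have h3 : ((∑ i ∈ I, {e : List (A ⊕ V) × List (A ⊕ V) |
        Cls t n i.1 i.2.1 i.2.2 e}.ncard : ℕ) : ℝ) ≤ (I.card : ℝ) * (K * b ^ n) := by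
      rw [Nat.cast_sum]
      refine (Finset.sum_le_sum h2).trans (le_of_eq ?_)
      rw [Finset.sum_const, nsmul_eq_mul]
    have h4 : (I.card : ℝ) ≤ ((((4 * n + 1) ^ (Fintype.card V + 1) + 1) ^ (Fintype.card V + 1) :
        ℕ) : ℝ) * (((1 / z) ^ (n / (t + 1)) * (1 + z) ^ n) ^ 2) ^ 2 := by
      rw [hI, Finset.card_product, Finset.card_product]
      push_cast
      have h5 : (GP.card : ℝ) ≤ ((((4 * n + 1) ^ (Fintype.card V + 1) + 1) ^
          (Fintype.card V + 1) : ℕ) : ℝ) := by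
        exact_mod_cast (Finset.card_filter_le _ _).trans hG1
      push_cast at h5
      have h6 : (MM.card : ℝ) * MM.card ≤
          (((1 / z) ^ (n / (t + 1)) * (1 + z) ^ n) ^ 2) ^ 2 := by
        rw [← sq]
        exact pow_le_pow_left₀ (Nat.cast_nonneg _) hM1 2
      exact mul_le_mul h5 h6 (by positivity) (by positivity)
    have hbn : (0 : ℝ) ≤ K * b ^ n := by positivity
    calc _ ≤ ((∑ i ∈ I, {e : List (A ⊕ V) × List (A ⊕ V) |
        Cls t n i.1 i.2.1 i.2.2 e}.ncard : ℕ) : ℝ) := by exact_mod_cast h1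
      _ ≤ (I.card : ℝ) * (K * b ^ n) := h3
      _ ≤ _ := mul_le_mul_of_nonneg_right h4 hbn
      _ ≤ C * g ^ n := hC n
      _ ≤ (C + 1) * g ^ n := by
        have : 0 < g ^ n := pow_pos hg0 n
        nlinarith

end

end Pool.Agent.WE
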