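import Pool.Agent.WE.Skel21

/-! # R7 : number of partial skeletons -/

set_option autoImplicit false

namespace Pool.Agent.WE

open Classical Finset

noncomputable section

variable {A V : Type}

/-- the set of partial skeletons of a class -/
def SkSet [Fintype V] (t n : ℕ) (l : V → ℕ) (M M' : Finset ℕ) :
    Set (List (Option A ⊕ V) × List (Option A ⊕ V)) :=
  {p | ∃ e : List (A ⊕ V) × List (A ⊕ V), Cls t n l M M' e ∧
    p = (psk M l e.1 e.2, psk M' l e.2 e.1)}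

variable [Fintype A] [Fintype V]

theorem SkSet_len (t n : ℕ) (l : V → ℕ) (M M' : Finset ℕ)
    (e : List (Option A ⊕ V) × List (Option A ⊕ V)) (he : e ∈ SkSet (A := A) t n l M M') :
    e.1.length + e.2.length = n := by
  obtain ⟨e', h1, h2⟩ := he
  rw [h2]
  show (psk M l e'.1 e'.2).length + (psk M' l e'.2 e'.1).length = n
  rw [psk_length, psk_length]
  exact h1.1

theorem SkSet_fin (t n : ℕ) (l : V → ℕ) (M M' : Finset ℕ) :
    (SkSet (A := A) t n l M M').Finite := by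
  have h1 := List.finite_length_le (Option A ⊕ V) n
  refine (h1.prod h1).subset ?_
  intro e he
  have h2 := SkSet_len t n l M M' e he
  rw [Set.mem_prod]
  constructor
  · show e.1.length ≤ n
    omega
  · show e.2.length ≤ n
    omega

theorem SkSet_left (t n : ℕ) (l : V → ℕ) (M M' : Finset ℕ)
    (u v P Q : List (Option A ⊕ V)) (hX : (u ++ P, v ++ Q) ∈ SkSet (A := A) t n l M M')
    (hi : Inv l u v) (hlt : fl l u < fl l v) : ∃ s P', P = s :: P' ∧ s ∈ T1s M u v := by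
  obtain ⟨e, ⟨hn, hM, hM', σ, hσ, hsol, heq⟩, h2⟩ := hX
  have hu : u ++ P = psk M l e.1 e.2 := congrArg Prod.fst h2
  have hv : v ++ Q = psk M' l e.2 e.1 := congrArg Prod.snd h2
  have hf : fl l e.1 = fl l e.2 := by
    rw [← eqv_fl heq e.1 e.2 (by omega) (by omega), ← ap_length, ← ap_length, hsol]
  rcases hi with hi | ⟨_, v', r, hv', hi2⟩ | ⟨hi, _⟩
  · omega
  · subst hv'
    exact step_one t l e.1 e.2 hf M M' hM u v' P Q r hu hv hi2 hlt
  · omega

theorem SkSet_right (t n : ℕ) (l : V → ℕ) (M M' : Finset ℕ)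
    (u v P Q : List (Option A ⊕ V)) (hX : (u ++ P, v ++ Q) ∈ SkSet (A := A) t n l M M')
    (hi : Inv l u v) (hlt : fl l v < fl l u) : ∃ s Q', Q = s :: Q' ∧ s ∈ T1s M' v u := by
  obtain ⟨e, ⟨hn, hM, hM', σ, hσ, hsol, heq⟩, h2⟩ := hX
  have hu : u ++ P = psk M l e.1 e.2 := congrArg Prod.fst h2
  have hv : v ++ Q = psk M' l e.2 e.1 := congrArg Prod.snd h2
  have hf : fl l e.1 = fl l e.2 := by
    rw [← eqv_fl heq e.1 e.2 (by omega) (by omega), ← ap_length, ← ap_length, hsol]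
  rcases hi with hi | ⟨hi, _⟩ | ⟨_, u', r, hu', hi2⟩
  · omega
  · omega
  · subst hu'
    exact step_one t l e.2 e.1 hf.symm M' M hM' v u' Q P r hv hu hi2 hlt

theorem SkSet_tie (t n : ℕ) (l : V → ℕ) (hl : ∀ x, 1 ≤ l x) (M M' : Finset ℕ)
    (u v P Q : List (Option A ⊕ V)) (hX : (u ++ P, v ++ Q) ∈ SkSet (A := A) t n l M M')
    (h : fl l u = fl l v) : (P = [] ∧ Q = []) ∨ ∃ s r P' Q', P = s :: P' ∧ Q = r :: Q' ∧
      ((s, r) ∈ Tas A V ∨ (s, r) ∈ Tbs A V) := by
  obtain ⟨e, he, h2⟩ := hX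
  exact step_two t n l hl M M' e he u v P Q (congrArg Prod.fst h2) (congrArg Prod.snd h2) h

theorem bet_one_le (a d : ℕ) (ha : 1 ≤ a) (hd : 1 ≤ d) : 1 ≤ bet a d := by
  unfold bet
  refine le_trans ?_ (le_max_right _ _)
  have h1 : (1 : ℝ) ≤ a := by exact_mod_cast ha
  have h2 : (1 : ℝ) ≤ d := by exact_mod_cast hd
  linarith

theorem bet_ge (a d : ℕ) (ha : 1 ≤ a) (hd : 1 ≤ d) :
    ((max (a + (d - 1)) (d + 1) : ℕ) : ℝ) ≤ bet a d := by
  have h1 : (1 : ℝ) ≤ a := by exact_mod_cast ha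
  have h2 : (1 : ℝ) ≤ d := by exact_mod_cast hd
  unfold bet
  rw [Nat.cast_max]
  apply max_le
  · refine le_trans ?_ (le_max_right _ _)
    rw [Nat.cast_add, Nat.cast_sub hd]
    push_cast
    linarith
  · refine le_trans ?_ (le_max_left _ _)
    apply Real.le_sqrt_of_sq_le
    push_cast
    nlinarith

theorem bet_sq (a d : ℕ) (ha : 1 ≤ a) :
    ((a + d * d + (d + d) : ℕ) : ℝ) ≤ bet a d ^ 2 := by
  have h1 : (1 : ℝ) ≤ a := by exact_mod_cast ha
  have h2 : (0 : ℝ) ≤ d := Nat.cast_nonneg d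
  have h3 : (0 : ℝ) ≤ ((d : ℝ) + 1) ^ 2 + a - 1 := by nlinarith
  have h4 : Real.sqrt (((d : ℝ) + 1) ^ 2 + a - 1) ≤ bet a d := by
    unfold bet
    exact le_max_left _ _
  have h5 := Real.sqrt_nonneg (((d : ℝ) + 1) ^ 2 + a - 1)
  have h6 := Real.sq_sqrt h3
  have h7 : Real.sqrt (((d : ℝ) + 1) ^ 2 + a - 1) ^ 2 ≤ bet a d ^ 2 := by
    apply pow_le_pow_left₀ h5 h4
  rw [h6] at h7
  push_cast
  nlinarith

theorem sk_count (hA : 1 ≤ Fintype.card A)
    (hV : 1 ≤ Fintype.card V) (t n : ℕ) (l : V → ℕ) (hl : ∀ x, 1 ≤ l x) (M M' : Finset ℕ) :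
    ({p : List (Option A ⊕ V) × List (Option A ⊕ V) | ∃ e : List (A ⊕ V) × List (A ⊕ V),
      Cls t n l M M' e ∧ p = (psk M l e.1 e.2, psk M' l e.2 e.1)}.ncard : ℝ) ≤
      bet (Fintype.card A) (Fintype.card V) ^ n := by
  refine tree l hl n (SkSet (A := A) t n l M M') (SkSet_len t n l M M') (SkSet_fin t n l M M')
    (bet (Fintype.card A) (Fintype.card V)) (bet_one_le _ _ hA hV) (Tas A V ∪ Tbs A V) ?_
    (fun u v => T1s M u v) (fun u v => T1s M' v u) ?_ ?_ ?_ (SkSet_left t n l M M')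
    (SkSet_right t n l M M')
  · refine le_trans ?_ (bet_sq (Fintype.card A) (Fintype.card V) hA)
    have h1 : (Tas A V ∪ Tbs A V).card ≤ Fintype.card A + Fintype.card V * Fintype.card V +
        (Fintype.card V + Fintype.card V) :=
      le_trans (Finset.card_union_le _ _) (add_le_add Tas_card (Tbs_card (A := A) (V := V)))
    exact_mod_cast h1
  · intro u v
    refine le_trans ?_ (bet_ge (Fintype.card A) (Fintype.card V) hA hV)
    exact_mod_cast T1s_card M u v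
  · intro u v
    refine le_trans ?_ (bet_ge (Fintype.card A) (Fintype.card V) hA hV)
    exact_mod_cast T1s_card M' v u
  · intro u v P Q hX h
    rcases SkSet_tie t n l hl M M' u v P Q hX h with h1 | ⟨s, r, P', Q', h1, h2, h3⟩
    · exact Or.inl h1
    · exact Or.inr ⟨s, r, P', Q', h1, h2, Finset.mem_union.2 h3⟩

end

end Pool.Agent.WE
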