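import Pool.Agent.WE.Tree11

/-! # R3b : tree lemma with two kinds of ties (remark of helper79) -/

set_option autoImplicit false

namespace Pool.Agent.WE

open Classical Finset

noncomputable section

theorem tree_genB21 {S : Type} (l : S → ℕ) (hl : ∀ s, 1 ≤ l s) (b : ℝ) (hb : 2 ≤ b)
    (hb3 : 3 / b ^ 2 + 4 / b ^ 3 ≤ 1)
    (Ta Tb : Finset (S × S)) (hTa : Ta.card ≤ 3) (hTb : Tb.card ≤ 2)
    (hbn : ∀ p ∈ Tb, l p.1 ≠ l p.2) (T1 T1' : List S → List S → Finset S)
    (hT1 : ∀ u v, (T1 u v).card ≤ 2) (hT1' : ∀ u v, (T1' u v).card ≤ 2)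
    (X : Finset (List S × List S)) (n : ℕ) (hn : ∀ p ∈ X, p.1.length + p.2.length = n)
    (t0 : ∀ u v P Q, (u ++ P, v ++ Q) ∈ X → tl11 l u = tl11 l v →
      (P = [] ∧ Q = []) ∨ ∃ s t P' Q', P = s :: P' ∧ Q = t :: Q' ∧ ((s, t) ∈ Ta ∨ (s, t) ∈ Tb))
    (t1 : ∀ u v P Q, (u ++ P, v ++ Q) ∈ X → Inv11 l u v → tl11 l u < tl11 l v →
      ∃ s P', P = s :: P' ∧ s ∈ T1 u v)
    (t2 : ∀ u v P Q, (u ++ P, v ++ Q) ∈ X → Inv11 l u v → tl11 l v < tl11 l u →
      ∃ t Q', Q = t :: Q' ∧ t ∈ T1' u v) :
    (X.card : ℝ) ≤ b ^ n := by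
  have hb0 : 0 < b := by linarith
  set F : List S → List S → Finset (List S × List S) := fun u v =>
    X.filter (fun p => u <+: p.1 ∧ v <+: p.2) with hF
  have hmem : ∀ u v p, p ∈ F u v ↔ p ∈ X ∧ ∃ P Q, p = (u ++ P, v ++ Q) := by
    intro u v p
    simp only [hF, Finset.mem_filter]
    constructor
    · rintro ⟨h1, ⟨P, hP⟩, ⟨Q, hQ⟩⟩
      exact ⟨h1, P, Q, by rw [hP, hQ]⟩
    · rintro ⟨h1, P, Q, rfl⟩
      exact ⟨h1, ⟨P, rfl⟩, ⟨Q, rfl⟩⟩
  have key : ∀ k : ℕ, ∀ u v, Inv11 l u v → u.length + v.length + k = n →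
      ((F u v).card : ℝ) ≤ b ^ k ∧ (tl11 l u ≠ tl11 l v → ((F u v).card : ℝ) * b ≤ 2 * b ^ k) := by
    intro k
    induction k using Nat.strong_induction_on with
    | _ k ih =>
      intro u v hI hk
      -- the one-sided states
      have hone : tl11 l u ≠ tl11 l v → ((F u v).card : ℝ) * b ≤ 2 * b ^ k := by
        intro hne
        rcases (F u v).eq_empty_or_nonempty with h0 | ⟨p, hp⟩
        · rw [h0, Finset.card_empty]
          push_cast
          rw [zero_mul]
          positivity
        rcases Nat.lt_or_gt_of_ne hne with h | h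
        · have hk1 : 1 ≤ k := by
            obtain ⟨h1, P, Q, rfl⟩ := (hmem u v p).1 hp
            obtain ⟨s, P', hP, _⟩ := t1 u v P Q h1 hI h
            have := hn _ h1
            simp only [List.length_append, hP, List.length_cons] at this
            omega
          have hsub : F u v ⊆ (T1 u v).biUnion (fun s => F (u ++ [s]) v) := by
            intro p hp
            obtain ⟨h1, P, Q, rfl⟩ := (hmem u v p).1 hp
            obtain ⟨s, P', hP, hs⟩ := t1 u v P Q h1 hI h
            rw [Finset.mem_biUnion]
            refine ⟨s, hs, (hmem _ _ _).2 ⟨h1, P', Q, ?_⟩⟩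
            rw [hP, List.append_assoc, List.singleton_append]
          have h2 : ((F u v).card : ℝ) ≤ ((T1 u v).card : ℝ) * b ^ (k - 1) := by
            have h3 : (F u v).card ≤ ∑ s ∈ T1 u v, (F (u ++ [s]) v).card :=
              (Finset.card_le_card hsub).trans Finset.card_biUnion_le
            have h4 : ((F u v).card : ℝ) ≤ ∑ s ∈ T1 u v, ((F (u ++ [s]) v).card : ℝ) := by
              exact_mod_cast h3
            refine h4.trans ?_
            have := Finset.sum_le_card_nsmul (T1 u v) (fun s => ((F (u ++ [s]) v).card : ℝ))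
              (b ^ (k - 1)) (fun s _ => (ih (k - 1) (by omega) (u ++ [s]) v (hI.left hl h s)
                (by rw [List.length_append, List.length_singleton]; omega)).1)
            rwa [nsmul_eq_mul] at this
          have h5 : b ^ k = b ^ (k - 1) * b := by
            rw [← pow_succ]
            congr 1
            omega
          have h6 : ((T1 u v).card : ℝ) ≤ 2 := by exact_mod_cast hT1 u v
          have h7 : 0 < b ^ (k - 1) := by positivity
          have h8 : ((F u v).card : ℝ) ≤ 2 * b ^ (k - 1) :=
            h2.trans (mul_le_mul_of_nonneg_right h6 h7.le)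
          rw [h5, ← mul_assoc]
          exact mul_le_mul_of_nonneg_right h8 hb0.le
        · have hk1 : 1 ≤ k := by
            obtain ⟨h1, P, Q, rfl⟩ := (hmem u v p).1 hp
            obtain ⟨s, P', hP, _⟩ := t2 u v P Q h1 hI h
            have := hn _ h1
            simp only [List.length_append, hP, List.length_cons] at this
            omega
          have hsub : F u v ⊆ (T1' u v).biUnion (fun s => F u (v ++ [s])) := by
            intro p hp
            obtain ⟨h1, P, Q, rfl⟩ := (hmem u v p).1 hp
            obtain ⟨s, Q', hQ, hs⟩ := t2 u v P Q h1 hI h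
            rw [Finset.mem_biUnion]
            refine ⟨s, hs, (hmem _ _ _).2 ⟨h1, P, Q', ?_⟩⟩
            rw [hQ, List.append_assoc, List.singleton_append]
          have h2 : ((F u v).card : ℝ) ≤ ((T1' u v).card : ℝ) * b ^ (k - 1) := by
            have h3 : (F u v).card ≤ ∑ s ∈ T1' u v, (F u (v ++ [s])).card :=
              (Finset.card_le_card hsub).trans Finset.card_biUnion_le
            have h4 : ((F u v).card : ℝ) ≤ ∑ s ∈ T1' u v, ((F u (v ++ [s])).card : ℝ) := by
              exact_mod_cast h3
            refine h4.trans ?_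
            have := Finset.sum_le_card_nsmul (T1' u v) (fun s => ((F u (v ++ [s])).card : ℝ))
              (b ^ (k - 1)) (fun s _ => (ih (k - 1) (by omega) u (v ++ [s]) (hI.right hl h s)
                (by rw [List.length_append, List.length_singleton]; omega)).1)
            rwa [nsmul_eq_mul] at this
          have h5 : b ^ k = b ^ (k - 1) * b := by
            rw [← pow_succ]
            congr 1
            omega
          have h6 : ((T1' u v).card : ℝ) ≤ 2 := by exact_mod_cast hT1' u v
          have h7 : 0 < b ^ (k - 1) := by positivity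
          have h8 : ((F u v).card : ℝ) ≤ 2 * b ^ (k - 1) :=
            h2.trans (mul_le_mul_of_nonneg_right h6 h7.le)
          rw [h5, ← mul_assoc]
          exact mul_le_mul_of_nonneg_right h8 hb0.le
      refine ⟨?_, hone⟩
      by_cases h : tl11 l u = tl11 l v
      swap
      · have h1 := hone h
        have h2 : (0 : ℝ) ≤ b ^ k := by positivity
        nlinarith
      · -- both sides read
        by_cases hk0 : k = 0
        · subst hk0
          have hsub : F u v ⊆ {(u, v)} := by
            intro p hp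
            obtain ⟨h1, P, Q, rfl⟩ := (hmem u v p).1 hp
            have := hn _ h1
            simp only [List.length_append] at this
            have hP : P = [] := List.length_eq_zero_iff.1 (by omega)
            have hQ : Q = [] := List.length_eq_zero_iff.1 (by omega)
            rw [hP, hQ, List.append_nil, List.append_nil, Finset.mem_singleton]
          have := Finset.card_le_card hsub
          rw [Finset.card_singleton] at this
          rw [pow_zero]
          exact_mod_cast this
        rcases (F u v).eq_empty_or_nonempty with h0 | ⟨p, hp⟩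
        · rw [h0, Finset.card_empty]
          push_cast
          positivity
        have hstep : ∀ P Q, (u ++ P, v ++ Q) ∈ X →
            ∃ s t P' Q', P = s :: P' ∧ Q = t :: Q' ∧ ((s, t) ∈ Ta ∨ (s, t) ∈ Tb) := by
          intro P Q h1
          rcases t0 u v P Q h1 h with ⟨hP, hQ⟩ | h2
          · exfalso
            have := hn _ h1
            simp only [List.length_append, hP, hQ, List.length_nil] at this
            omega
          · exact h2
        have hk2 : 2 ≤ k := by
          obtain ⟨h1, P, Q, rfl⟩ := (hmem u v p).1 hp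
          obtain ⟨s, t, P', Q', hP, hQ, _⟩ := hstep P Q h1
          have := hn _ h1
          simp only [List.length_append, hP, hQ, List.length_cons] at this
          omega
        have hsub : F u v ⊆ Ta.biUnion (fun s => F (u ++ [s.1]) (v ++ [s.2])) ∪
            Tb.biUnion (fun s => F (u ++ [s.1]) (v ++ [s.2])) := by
          intro p hp
          obtain ⟨h1, P, Q, rfl⟩ := (hmem u v p).1 hp
          obtain ⟨s, t, P', Q', hP, hQ, hs⟩ := hstep P Q h1
          have hin : (u ++ P, v ++ Q) ∈ F (u ++ [s]) (v ++ [t]) := by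
            refine (hmem _ _ _).2 ⟨h1, P', Q', ?_⟩
            rw [hP, hQ, List.append_assoc, List.singleton_append, List.append_assoc,
              List.singleton_append]
          rw [Finset.mem_union, Finset.mem_biUnion, Finset.mem_biUnion]
          rcases hs with hs | hs
          · exact Or.inl ⟨(s, t), hs, hin⟩
          · exact Or.inr ⟨(s, t), hs, hin⟩
        have hinv : ∀ s : S × S, Inv11 l (u ++ [s.1]) (v ++ [s.2]) := fun s =>
          Inv11.both hl h s.1 s.2
        have hlen : ∀ s : S × S, (u ++ [s.1]).length + (v ++ [s.2]).length + (k - 2) = n := by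
          intro s
          rw [List.length_append, List.length_singleton, List.length_append,
            List.length_singleton]
          omega
        have h7 : 0 < b ^ (k - 2) := by positivity
        have hA : ∑ s ∈ Ta, ((F (u ++ [s.1]) (v ++ [s.2])).card : ℝ) ≤ 3 * b ^ (k - 2) := by
          have h1 := Finset.sum_le_card_nsmul Ta
            (fun s => ((F (u ++ [s.1]) (v ++ [s.2])).card : ℝ))
            (b ^ (k - 2)) (fun s _ => (ih (k - 2) (by omega) _ _ (hinv s) (hlen s)).1)
          rw [nsmul_eq_mul] at h1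
          have h6 : (Ta.card : ℝ) ≤ 3 := by exact_mod_cast hTa
          exact h1.trans (mul_le_mul_of_nonneg_right h6 h7.le)
        have hB : ∑ s ∈ Tb, ((F (u ++ [s.1]) (v ++ [s.2])).card : ℝ) ≤ 2 * (2 * b ^ (k - 2) / b) := by
          have h1 := Finset.sum_le_card_nsmul Tb
            (fun s => ((F (u ++ [s.1]) (v ++ [s.2])).card : ℝ))
            (2 * b ^ (k - 2) / b) (fun s hs => by
              have h2 := (ih (k - 2) (by omega) _ _ (hinv s) (hlen s)).2 (by
                rw [tl11_snoc, tl11_snoc, h]
                have := hbn s hs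
                omega)
              rw [le_div_iff₀ hb0]
              exact h2)
          rw [nsmul_eq_mul] at h1
          have h6 : (Tb.card : ℝ) ≤ 2 := by exact_mod_cast hTb
          exact h1.trans (mul_le_mul_of_nonneg_right h6 (by positivity))
        have hC : ((F u v).card : ℝ) ≤ 3 * b ^ (k - 2) + 2 * (2 * b ^ (k - 2) / b) := by
          have h3 : (F u v).card ≤ ∑ s ∈ Ta, (F (u ++ [s.1]) (v ++ [s.2])).card +
              ∑ s ∈ Tb, (F (u ++ [s.1]) (v ++ [s.2])).card :=
            (Finset.card_le_card hsub).trans ((Finset.card_union_le _ _).trans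
              (add_le_add Finset.card_biUnion_le Finset.card_biUnion_le))
          have h4 : ((F u v).card : ℝ) ≤ ∑ s ∈ Ta, ((F (u ++ [s.1]) (v ++ [s.2])).card : ℝ) +
              ∑ s ∈ Tb, ((F (u ++ [s.1]) (v ++ [s.2])).card : ℝ) := by
            exact_mod_cast h3
          linarith
        have h5 : b ^ k = b ^ 2 * b ^ (k - 2) := by
          rw [← pow_add]
          congr 1
          omega
        have h8 : (3 : ℝ) * b ^ (k - 2) + 2 * (2 * b ^ (k - 2) / b) =
            (3 / b ^ 2 + 4 / b ^ 3) * (b ^ 2 * b ^ (k - 2)) := by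
          field_simp
          ring
        rw [h5]
        refine hC.trans ?_
        rw [h8]
        have h9 : 0 < b ^ 2 * b ^ (k - 2) := by positivity
        nlinarith
  have h1 := (key n [] [] (Inv11.nil l) (by simp)).1
  have h2 : F [] [] = X := by
    simp only [hF]
    apply Finset.filter_true_of_mem
    intro p _
    exact ⟨List.nil_prefix, List.nil_prefix⟩
  rwa [h2] at h1

/-- R3b: one variable of length at least two over two letters: a broken tie is followed by a
one-sided step -/
theorem tree2 {B V : Type} (l : V → ℕ) (hl : ∀ x, 1 ≤ l x) (n : ℕ)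
    (X : Set (List (B ⊕ V) × List (B ⊕ V))) (hX : ∀ e ∈ X, e.1.length + e.2.length = n)
    (hfin : X.Finite) (b : ℝ) (hb : 2 ≤ b) (hb3 : 3 / b ^ 2 + 4 / b ^ 3 ≤ 1)
    (Ta Tb : Finset ((B ⊕ V) × (B ⊕ V))) (ha : Ta.card ≤ 3) (hb2 : Tb.card ≤ 2)
    (hbn : ∀ p ∈ Tb, wl l p.1 ≠ wl l p.2)
    (T1 T1' : List (B ⊕ V) → List (B ⊕ V) → Finset (B ⊕ V))
    (h1 : ∀ u v, (T1 u v).card ≤ 2) (h1' : ∀ u v, (T1' u v).card ≤ 2)
    (t0 : ∀ u v P Q, (u ++ P, v ++ Q) ∈ X → fl l u = fl l v →
      (P = [] ∧ Q = []) ∨ ∃ s t P' Q', P = s :: P' ∧ Q = t :: Q' ∧ ((s, t) ∈ Ta ∨ (s, t) ∈ Tb))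
    (t1 : ∀ u v P Q, (u ++ P, v ++ Q) ∈ X → Inv l u v → fl l u < fl l v →
      ∃ s P', P = s :: P' ∧ s ∈ T1 u v)
    (t1' : ∀ u v P Q, (u ++ P, v ++ Q) ∈ X → Inv l u v → fl l v < fl l u →
      ∃ s Q', Q = s :: Q' ∧ s ∈ T1' u v) :
    (X.ncard : ℝ) ≤ b ^ n := by
  rw [Set.ncard_eq_toFinset_card X hfin]
  have hwl : ∀ s : B ⊕ V, 1 ≤ wl l s := by
    rintro (c | x)
    · exact le_refl 1
    · exact hl x
  refine tree_genB21 (wl l) hwl b hb hb3 Ta Tb ha hb2 hbn T1 T1' h1 h1' hfin.toFinset n
    ?_ ?_ ?_ ?_
  · intro p hp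
    exact hX p (hfin.mem_toFinset.1 hp)
  · intro u v P Q hm h
    exact t0 u v P Q (hfin.mem_toFinset.1 hm) h
  · intro u v P Q hm hi h
    exact t1 u v P Q (hfin.mem_toFinset.1 hm) hi h
  · intro u v P Q hm hi h
    exact t1' u v P Q (hfin.mem_toFinset.1 hm) hi h

end

end Pool.Agent.WE
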