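import Pool.Agent.WE.SkCnt21
import Pool.Agent.WE.TreeB21

/-! # Number of partial skeletons, one variable of length at least two over two letters (R7b) -/

set_option autoImplicit false

namespace Pool.Agent.WE

open Classical Finset

noncomputable section

variable {A V : Type} [Fintype A] [Fintype V]

theorem Tbs_wl24 (l : V → ℕ) (hl : ∀ x, 2 ≤ l x) (p : (Option A ⊕ V) × (Option A ⊕ V))
    (hp : p ∈ Tbs A V) : wl l p.1 ≠ wl l p.2 := by
  unfold Tbs at hp
  rw [Finset.mem_union, Finset.mem_image, Finset.mem_image] at hp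
  rcases hp with ⟨x, _, rfl⟩ | ⟨x, _, rfl⟩
  · have h1 : wl l (Sum.inr x : Option A ⊕ V) = l x := rfl
    have h2 : wl l (Sum.inl none : Option A ⊕ V) = 1 := rfl
    have h3 := hl x
    show wl l (Sum.inr x : Option A ⊕ V) ≠ wl l (Sum.inl none : Option A ⊕ V)
    omega
  · have h1 : wl l (Sum.inr x : Option A ⊕ V) = l x := rfl
    have h2 : wl l (Sum.inl none : Option A ⊕ V) = 1 := rfl
    have h3 := hl x
    show wl l (Sum.inl none : Option A ⊕ V) ≠ wl l (Sum.inr x : Option A ⊕ V)
    omega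

/-- R7b -/
theorem sk_count2 (hA : Fintype.card A = 2)
    (hV : Fintype.card V = 1) (t n : ℕ) (l : V → ℕ) (hl : ∀ x, 2 ≤ l x) (M M' : Finset ℕ) :
    ({p : List (Option A ⊕ V) × List (Option A ⊕ V) | ∃ e : List (A ⊕ V) × List (A ⊕ V),
      Cls t n l M M' e ∧ p = (psk M l e.1 e.2, psk M' l e.2 e.1)}.ncard : ℝ) ≤ (11 / 5) ^ n := by
  have hl1 : ∀ x, 1 ≤ l x := fun x => le_trans (by norm_num) (hl x)
  refine tree2 l hl1 n (SkSet (A := A) t n l M M') (SkSet_len t n l M M') (SkSet_fin t n l M M')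
    (11 / 5) (by norm_num) (by norm_num) (Tas A V) (Tbs A V) ?_ ?_ (Tbs_wl24 l hl)
    (fun u v => T1s M u v) (fun u v => T1s M' v u) ?_ ?_ ?_ (SkSet_left t n l M M')
    (SkSet_right t n l M M')
  · have h1 := Tas_card (A := A) (V := V)
    rw [hA, hV] at h1
    exact h1
  · have h1 := Tbs_card (A := A) (V := V)
    rw [hV] at h1
    exact h1
  · intro u v
    have h1 := T1s_card M u v
    rw [hA, hV] at h1
    exact h1
  · intro u v
    have h1 := T1s_card M' v u
    rw [hA, hV] at h1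
    exact h1
  · exact SkSet_tie t n l hl1 M M'

end

end Pool.Agent.WE
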