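import Pool.Agent.WE.Gen24
import Pool.Agent.WE.SkCnt21
import Pool.Agent.WE.SkCntB24

/-! # R11c, R11d: growth of the equations with a non-erasing solution -/

set_option autoImplicit false

namespace Pool.Agent.WE

open Classical Finset

noncomputable section

/-- R11c -/
theorem N_bound {A V : Type} [Fintype A] [Fintype V] (hA : 1 ≤ Fintype.card A)
    (hV : 1 ≤ Fintype.card V) (g : ℝ) (hg : bet (Fintype.card A) (Fintype.card V) < g) :
    ∃ C : ℝ, 0 ≤ C ∧ ∀ n : ℕ, ({e : List (A ⊕ V) × List (A ⊕ V) | e.1.length + e.2.length = n ∧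
      ∃ σ : V → List A, (∀ x, σ x ≠ []) ∧ ap σ e.1 = ap σ e.2}.ncard : ℝ) ≤ C * g ^ n := by
  have hb : 1 ≤ bet (Fintype.card A) (Fintype.card V) := by
    unfold bet
    apply le_max_of_le_left
    rw [Real.one_le_sqrt]
    have h1 : (1 : ℝ) ≤ Fintype.card A := by exact_mod_cast hA
    have h2 : (1 : ℝ) ≤ Fintype.card V := by exact_mod_cast hV
    nlinarith
  obtain ⟨C, hC, h⟩ := N_gen (A := A) (V := V) (fun _ => True) (fun _ _ _ _ _ _ => trivial) _ hb
    (fun t n l M M' hl _ => sk_count hA hV t n l hl M M') g hg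
  refine ⟨C, hC, fun n => ?_⟩
  refine le_trans (le_of_eq ?_) (h n)
  congr 2
  ext e
  simp only [Set.mem_ofPred_eq, true_and]

/-- R11d -/
theorem N_two {A V : Type} [Fintype A] [Fintype V] (hA : Fintype.card A = 2)
    (hV : Fintype.card V = 1) (g : ℝ) (hg : 11 / 5 < g) :
    ∃ C : ℝ, 0 ≤ C ∧ ∀ n : ℕ, ({e : List (A ⊕ V) × List (A ⊕ V) | e.1.length + e.2.length = n ∧
      ∃ σ : V → List A, (∀ x, σ x ≠ []) ∧ (∀ x, 2 ≤ (σ x).length) ∧
        ap σ e.1 = ap σ e.2}.ncard : ℝ) ≤ C * g ^ n := by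
  refine N_gen (A := A) (V := V) (fun l => ∀ x, 2 ≤ l x) ?_ (11 / 5) (by norm_num)
    (fun t n l M M' _ hl => sk_count2 hA hV t n l hl M M') g hg
  intro n hn l l' h hl x
  have h1 := h (fun y => if y = x then 1 else 0) (-1) (by
    intro y
    have : (1 : ℤ) ≤ 2 * n := by omega
    split_ifs
    · simpa using this
    · simp) (by
    have : (1 : ℤ) ≤ 2 * n := by omega
    simpa using this)
  have e : ∀ l : V → ℕ, ∑ y, (if y = x then (1 : ℤ) else 0) * (l y : ℤ) = l x := by
    intro l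
    rw [Finset.sum_eq_single x]
    · simp
    · intro y _ hy
      rw [if_neg hy, zero_mul]
    · intro h
      exact absurd (Finset.mem_univ x) h
  rw [e, e] at h1
  have h2 := hl x
  have h3 := h1.1 (by omega)
  omega

end

end Pool.Agent.WE
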