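import Pool.Agent.WE.Pos21
import Pool.Agent.WE.Exch11

/-! # R8 : letters in blocks of the same type -/

set_option autoImplicit false

namespace Pool.Agent.WE

open Classical Finset

noncomputable section

theorem ap_append {A V : Type} (σ : V → List A) (u v : List (A ⊕ V)) :
    ap σ (u ++ v) = ap σ u ++ ap σ v := by
  unfold ap
  rw [List.flatMap_append]

theorem ap_inl {A V : Type} (σ : V → List A) (c : A) (v : List (A ⊕ V)) :
    ap σ (Sum.inl c :: v) = c :: ap σ v := by
  unfold ap
  rw [List.flatMap_cons]
  rfl

theorem ap_inr {A V : Type} (σ : V → List A) (x : V) (v : List (A ⊕ V)) :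
    ap σ (Sum.inr x :: v) = σ x ++ ap σ v := by
  unfold ap
  rw [List.flatMap_cons]
  rfl

theorem ap_drop {A V : Type} (σ : V → List A) (w : List (A ⊕ V)) (g r : ℕ) :
    (ap σ w)[pos (fun x => (σ x).length) w g + r]? = (ap σ (w.drop g))[r]? := by
  have h1 : ap σ w = ap σ (w.take g) ++ ap σ (w.drop g) := by
    rw [← ap_append, List.take_append_drop]
  have h2 : (ap σ (w.take g)).length = pos (fun x => (σ x).length) w g := ap_length σ _
  rw [h1, ← h2, List.getElem?_append_right (Nat.le_add_right _ _), Nat.add_sub_cancel_left]

/-- R8c: letter at a symbol -/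
theorem letter_get {A V : Type} (σ : V → List A) (w : List (A ⊕ V)) (i : ℕ) (c : A)
    (hi : w[i]? = some (Sum.inl c)) :
    (ap σ w)[pos (fun x => (σ x).length) w i]? = some c := by
  obtain ⟨h1, h2⟩ := List.getElem?_eq_some_iff.1 hi
  have h3 := ap_drop σ w i 0
  rw [add_zero] at h3
  rw [h3, List.drop_eq_getElem_cons h1, h2, ap_inl]
  rfl

/-- a variable of the word: its letters -/
theorem var_get {A V : Type} (σ : V → List A) (w : List (A ⊕ V)) (j : ℕ) (x : V)
    (hj : w[j]? = some (Sum.inr x)) (q : ℕ) (hq : q < (σ x).length) :
    (σ x)[q]? = (ap σ w)[pos (fun x => (σ x).length) w j + q]? := by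
  obtain ⟨h1, h2⟩ := List.getElem?_eq_some_iff.1 hj
  rw [ap_drop, List.drop_eq_getElem_cons h1, h2, ap_inr, List.getElem?_append_left hq]

theorem pos_succ_var {A V : Type} (l : V → ℕ) (w : List (A ⊕ V)) (j : ℕ) (x : V)
    (hj : w[j]? = some (Sum.inr x)) : pos l w (j + 1) = pos l w j + l x := by
  obtain ⟨h1, h2⟩ := List.getElem?_eq_some_iff.1 hj
  rw [pos_succ l w j h1, h2]
  rfl

/-- R8a: the letter of the leader from the symbols on the other side -/
theorem leader_get {A V : Type} (σ : V → List A) (w w' : List (A ⊕ V)) (h : ap σ w = ap σ w')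
    (j : ℕ) (x : V) (hj : w'[j]? = some (Sum.inr x)) (g r : ℕ)
    (h1 : pos (fun x => (σ x).length) w g ≤ pos (fun x => (σ x).length) w' j)
    (h2 : pos (fun x => (σ x).length) w' j - pos (fun x => (σ x).length) w g ≤ r)
    (h3 : r - (pos (fun x => (σ x).length) w' j - pos (fun x => (σ x).length) w g)
      < (σ x).length) :
    (σ x)[r - (pos (fun x => (σ x).length) w' j - pos (fun x => (σ x).length) w g)]? =
      (ap σ (w.drop g))[r]? := by
  rw [var_get σ w' j x hj _ h3, ← ap_drop, h]
  congr 1
  omega

/-- R8b: expansion of a skeleton -/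
theorem expand {A V : Type} (σ : V → List A) (T : List (Unit ⊕ V)) :
    ∃ (ex : ℕ → Option A) (Lam : Finset ℕ), Lam.card ≤ T.length ∧
      ∀ (w : List (A ⊕ V)), sk (w.take T.length) = T →
        ∀ r, r < fl (fun x => (σ x).length) T → r ∉ Lam → (ap σ w)[r]? = ex r := by
  induction T with
  | nil =>
    refine ⟨fun _ => none, ∅, le_refl _, ?_⟩
    intro w _ r hr
    exact absurd hr (Nat.not_lt_zero _)
  | cons s T ih =>
    obtain ⟨ex, Lam, hc, hex⟩ := ih
    cases s with
    | inl c =>
      refine ⟨fun r => ex (r - 1), insert 0 (Lam.image (fun r => r + 1)), ?_, ?_⟩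
      · refine le_trans (Finset.card_insert_le _ _) ?_
        have := Finset.card_image_le (s := Lam) (f := fun r => r + 1)
        rw [List.length_cons]
        omega
      · intro w hw r hr hL
        rw [List.length_cons] at hw
        cases w with
        | nil =>
          rw [List.take_nil] at hw
          exact absurd hw (by simp [sk])
        | cons s1 w1 =>
          rw [List.take_succ_cons] at hw
          unfold sk at hw
          rw [List.map_cons, List.cons.injEq] at hw
          cases s1 with
          | inr y => exact absurd hw.1 (by simp)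
          | inl c1 =>
            rw [ap_inl]
            have hr0 : r ≠ 0 := by
              intro h0
              exact hL (by rw [h0]; exact Finset.mem_insert_self _ _)
            obtain ⟨r1, rfl⟩ := Nat.exists_eq_succ_of_ne_zero hr0
            rw [fl_cons] at hr
            have hr' : r1 < fl (fun x => (σ x).length) T := by
              have : wl (fun x => (σ x).length) (Sum.inl c : Unit ⊕ V) = 1 := rfl
              omega
            have hL' : r1 ∉ Lam := by
              intro h1
              exact hL (Finset.mem_insert_of_mem (Finset.mem_image.2 ⟨r1, h1, rfl⟩))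
            exact hex w1 hw.2 r1 hr' hL'
    | inr y =>
      refine ⟨fun r => if r < (σ y).length then (σ y)[r]? else ex (r - (σ y).length),
        Lam.image (fun r => r + (σ y).length), ?_, ?_⟩
      · refine le_trans Finset.card_image_le ?_
        rw [List.length_cons]
        omega
      · intro w hw r hr hL
        rw [List.length_cons] at hw
        cases w with
        | nil =>
          rw [List.take_nil] at hw
          exact absurd hw (by simp [sk])
        | cons s1 w1 =>
          rw [List.take_succ_cons] at hw
          unfold sk at hw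
          rw [List.map_cons, List.cons.injEq] at hw
          cases s1 with
          | inl c1 => exact absurd hw.1 (by simp)
          | inr y1 =>
            have hy : y1 = y := by
              have := hw.1
              simpa using this
            subst hy
            rw [ap_inr]
            by_cases hlt : r < (σ y1).length
            · rw [List.getElem?_append_left hlt]
              simp only [hlt, if_true]
            · rw [List.getElem?_append_right (by omega)]
              simp only [hlt, if_false]
              rw [fl_cons] at hr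
              have hr' : r - (σ y1).length < fl (fun x => (σ x).length) T := by
                have : wl (fun x => (σ x).length) (Sum.inr y1 : Unit ⊕ V) = (σ y1).length := rfl
                omega
              refine hex w1 hw.2 _ hr' ?_
              intro h1
              exact hL (Finset.mem_image.2 ⟨_, h1, by omega⟩)

/-- R8d: blocks of the same type: the letter at the `m`-th place. `f j` is the index in `w` of the
symbol that covers the start of the leader `j` (the type starts there) -/
theorem const_type {A V : Type} (σ : V → List A) (w w' : List (A ⊕ V)) (h : ap σ w = ap σ w')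
    (x : V) (T : List (Unit ⊕ V)) (m : ℕ) (J : Finset ℕ) (f : ℕ → ℕ)
    (hx : ∀ j ∈ J, w'[j]? = some (Sum.inr x))
    (hT : ∀ j ∈ J, ((sk w).drop (f j)).take T.length = T)
    (hs : ∀ j ∈ J, pos (fun x => (σ x).length) w (f j) ≤ pos (fun x => (σ x).length) w' j)
    (he : ∀ j ∈ J, pos (fun x => (σ x).length) w' (j + 1) ≤
      pos (fun x => (σ x).length) w (f j + T.length))
    (hm1 : ∀ j ∈ J, pos (fun x => (σ x).length) w' j ≤ pos (fun x => (σ x).length) w (f j + m))
    (hm2 : ∀ j ∈ J, pos (fun x => (σ x).length) w (f j + m) <
      pos (fun x => (σ x).length) w' (j + 1))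
    (hm : m < T.length) (hst : T[m]? = some (Sum.inl ())) :
    (∀ j ∈ J, ∀ j' ∈ J, pos (fun x => (σ x).length) w' j - pos (fun x => (σ x).length) w (f j) =
        pos (fun x => (σ x).length) w' j' - pos (fun x => (σ x).length) w (f j') →
      w[f j + m]? = w[f j' + m]?) ∧
    (4 * T.length + 4 ≤ (J.image (fun j => pos (fun x => (σ x).length) w' j -
        pos (fun x => (σ x).length) w (f j))).card →
      ∀ j ∈ J, ∀ j' ∈ J, w[f j + m]? = w[f j' + m]?) := by
  set l : V → ℕ := fun x => (σ x).length with hl
  set δ : ℕ → ℕ := fun j => pos l w' j - pos l w (f j) with hδ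
  -- skeleton of the piece
  have hsk : ∀ j ∈ J, sk ((w.drop (f j)).take T.length) = T := by
    intro j hj
    have h1 := hT j hj
    unfold sk at h1 ⊢
    rw [List.map_take, List.map_drop]
    exact h1
  -- positions inside the piece
  have hpos : ∀ j ∈ J, ∀ i, i ≤ T.length → pos l w (f j + i) = pos l w (f j) + pos l T i := by
    intro j hj i hi
    have h1 : w.take (f j + i) = w.take (f j) ++ (w.drop (f j)).take i := by
      rw [List.take_add]
    have h2 : pos l T i = fl l ((w.drop (f j)).take i) := by
      have h3 := hsk j hj
      unfold pos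
      conv_lhs => rw [← h3]
      unfold sk
      rw [← List.map_take, fl_map, List.take_take, min_eq_left hi]
    unfold pos at h2 ⊢
    rw [h1, fl_append, h2]
  set ρ : ℕ := pos l T m with hρ
  -- the letter
  have hlet : ∀ j ∈ J, w[f j + m]? = ((σ x)[ρ - δ j]?).map Sum.inl ∧ δ j ≤ ρ ∧
      ρ - δ j < (σ x).length := by
    intro j hj
    have e1 : pos l w (f j + m) = pos l w (f j) + ρ := hpos j hj m hm.le
    have e2 := hs j hj
    have e3 := hm1 j hj
    have e4 := hm2 j hj
    have e5 := pos_succ_var l w' j x (hx j hj)
    have e6 : l x = (σ x).length := rfl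
    have hd1 : δ j ≤ ρ := by
      simp only [hδ]
      omega
    have hd2 : ρ - δ j < (σ x).length := by
      simp only [hδ]
      omega
    refine ⟨?_, hd1, hd2⟩
    have g1 : (σ x)[ρ - δ j]? = (ap σ (w.drop (f j)))[ρ]? :=
      leader_get σ w w' h j x (hx j hj) (f j) ρ e2 hd1 hd2
    have g2 : (sk w)[f j + m]? = some (Sum.inl ()) := by
      have h1 := hT j hj
      have h2 : (((sk w).drop (f j)).take T.length)[m]? = some (Sum.inl ()) := by
        rw [h1]
        exact hst
      rw [List.getElem?_take_of_lt hm, List.getElem?_drop] at h2
      exact h2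
    have g3 : ∃ c, w[f j + m]? = some (Sum.inl c) := by
      unfold sk at g2
      rw [List.getElem?_map] at g2
      cases hw : w[f j + m]? with
      | none =>
        rw [hw] at g2
        exact absurd g2 (by simp)
      | some s =>
        cases s with
        | inl c => exact ⟨c, rfl⟩
        | inr y =>
          rw [hw] at g2
          exact absurd g2 (by simp)
    obtain ⟨c, hc⟩ := g3
    have g4 := letter_get σ w (f j + m) c hc
    have g5 : (ap σ (w.drop (f j)))[ρ]? = some c := by
      rw [← ap_drop, ← g4]
      congr 1
      exact e1.symm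
    rw [g1, g5, hc]
    rfl
  constructor
  · intro j hj j' hj' hdd
    rw [(hlet j hj).1, (hlet j' hj').1]
    have : δ j = δ j' := hdd
    rw [this]
  · intro hcard j hj j' hj'
    obtain ⟨ex, Lam, hc, hex⟩ := expand σ T
    have key := exchange (fun q => (σ x)[q]?) (σ x).length ρ (J.image δ) Lam (by
      intro a ha
      obtain ⟨i, hi, rfl⟩ := Finset.mem_image.1 ha
      exact (hlet i hi).2) (by
      intro a ha b hb r hr h1 h2 h3 h4
      obtain ⟨i, hi, rfl⟩ := Finset.mem_image.1 ha
      obtain ⟨i', hi', rfl⟩ := Finset.mem_image.1 hb
      have gen : ∀ i ∈ J, δ i ≤ r → r - δ i < (σ x).length → (σ x)[r - δ i]? = ex r := by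
        intro i hi h1 h2
        have g1 : (σ x)[r - δ i]? = (ap σ (w.drop (f i)))[r]? :=
          leader_get σ w w' h i x (hx i hi) (f i) r (hs i hi) h1 h2
        rw [g1]
        refine hex (w.drop (f i)) (hsk i hi) r ?_ hr
        have e1 := hpos i hi T.length (le_refl _)
        have e2 := hs i hi
        have e3 := he i hi
        have e5 := pos_succ_var l w' i x (hx i hi)
        have e6 : l x = (σ x).length := rfl
        rw [pos_len l T (le_refl _)] at e1
        have e7 : δ i = pos l w' i - pos l w (f i) := rfl
        show r < fl l T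
        omega
      show (σ x)[r - δ i]? = (σ x)[r - δ i']?
      rw [gen i hi h1 h2, gen i' hi' h3 h4]) (by
      refine le_trans ?_ hcard
      omega)
    have k1 := key (δ j) (Finset.mem_image_of_mem _ hj) (δ j') (Finset.mem_image_of_mem _ hj')
    rw [(hlet j hj).1, (hlet j' hj').1]
    have k2 : (σ x)[ρ - δ j]? = (σ x)[ρ - δ j']? := k1
    rw [k2]

end

end Pool.Agent.WE
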