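import Pool.Agent.WE.Defs

/-! # Word equations: lower bounds (row R1) -/

set_option autoImplicit false

namespace Pool.Agent.WE

open Classical Finset

noncomputable section

/-- the words of length `m` -/
def LL11 (α : Type) [Fintype α] : ℕ → Finset (List α)
  | 0 => {[]}
  | m + 1 => (univ ×ˢ LL11 α m).image (fun p => p.1 :: p.2)

theorem mem_LL11 {α : Type} [Fintype α] (m : ℕ) (w : List α) : w ∈ LL11 α m ↔ w.length = m := by
  induction m generalizing w with
  | zero =>
    simp only [LL11, Finset.mem_singleton]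
    exact List.length_eq_zero_iff.symm
  | succ m ih =>
    simp only [LL11, Finset.mem_image, Finset.mem_product, Finset.mem_univ, true_and]
    constructor
    · rintro ⟨p, hp, rfl⟩
      rw [List.length_cons, (ih p.2).1 hp]
    · intro h
      rcases w with _ | ⟨x, w⟩
      · simp at h
      · exact ⟨(x, w), (ih w).2 (by simpa using h), rfl⟩

theorem sum_LL11 {α : Type} [Fintype α] (F : List α → ℝ) (φ : α → ℝ) (h0 : F [] = 1)
    (h1 : ∀ x w, F (x :: w) = φ x * F w) (m : ℕ) :
    ∑ w ∈ LL11 α m, F w = (∑ x, φ x) ^ m := by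
  induction m with
  | zero => simp [LL11, h0]
  | succ m ih =>
    simp only [LL11]
    rw [Finset.sum_image, Finset.sum_product]
    · simp only [h1]
      rw [pow_succ', ← ih, Finset.sum_mul]
      apply Finset.sum_congr rfl
      intro x _
      rw [Finset.mul_sum]
    · intro p _ q _ h
      simp only [List.cons.injEq] at h
      exact Prod.ext h.1 h.2

theorem card_LL11 (α : Type) [Fintype α] (m : ℕ) : (LL11 α m).card = Fintype.card α ^ m := by
  have h := sum_LL11 (α := α) (fun _ => (1 : ℝ)) (fun _ => 1) rfl (fun _ _ => by norm_num) m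
  simp only [Finset.sum_const, nsmul_eq_mul, mul_one, Finset.card_univ] at h
  exact_mod_cast h

/-- R1a Cauchy-Schwarz -/
theorem cs_lower {α A : Type} [Fintype α] [Fintype A] (f : α → List A)
    (hf : ∀ s, (f s).length ≤ 1) (c : A → ℝ) (hc0 : ∀ y, 0 ≤ c y) (hc : ∑ y, c y ^ 2 = 1) (m : ℕ) :
    (∑ s, ((f s).map c).prod) ^ (2 * m) ≤ ((m : ℝ) + 1) *
      (({e : List α × List α | e.1.length = m ∧ e.2.length = m ∧
        e.1.flatMap f = e.2.flatMap f}.ncard : ℕ) : ℝ) := by
  have _ := hc0
  set wt : List A → ℝ := fun w => (w.map c).prod with hwt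
  have hwt_append : ∀ u v, wt (u ++ v) = wt u * wt v := by
    intro u v
    simp only [hwt, List.map_append, List.prod_append]
  set g : List α → List A := fun L => L.flatMap f with hg
  set I : Finset (List A) := (LL11 α m).image g with hI
  set N : List A → ℝ := fun w => (((LL11 α m).filter (fun L => g L = w)).card : ℝ) with hN
  -- total weight
  have hsum : ∑ L ∈ LL11 α m, wt (g L) = (∑ s, wt (f s)) ^ m := by
    apply sum_LL11
    · simp [hwt, hg]
    · intro x w
      simp only [hg, List.flatMap_cons]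
      exact hwt_append _ _
  have hsum2 : ∑ L ∈ LL11 α m, wt (g L) = ∑ w ∈ I, N w * wt w := by
    rw [← Finset.sum_fiberwise_of_maps_to (s := LL11 α m) (t := I) (g := g)
      (fun L hL => Finset.mem_image_of_mem g hL)]
    apply Finset.sum_congr rfl
    intro w _
    have h1 : ∀ L ∈ (LL11 α m).filter (fun L => g L = w), wt (g L) = wt w := by
      intro L hL
      rw [(Finset.mem_filter.1 hL).2]
    rw [Finset.sum_congr rfl h1, Finset.sum_const, nsmul_eq_mul]
  -- number of pairs
  have hM : ∑ w ∈ I, N w ^ 2 = (({e : List α × List α | e.1.length = m ∧ e.2.length = m ∧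
        e.1.flatMap f = e.2.flatMap f}.ncard : ℕ) : ℝ) := by
    have h1 : {e : List α × List α | e.1.length = m ∧ e.2.length = m ∧
        e.1.flatMap f = e.2.flatMap f} =
        ((((LL11 α m) ×ˢ (LL11 α m)).filter (fun e => g e.1 = g e.2) :
          Finset (List α × List α)) : Set (List α × List α)) := by
      ext e
      simp only [Set.mem_ofPred_eq, Finset.coe_filter, Finset.mem_product, mem_LL11, hg]
      tauto
    rw [h1, Set.ncard_coe_finset]
    have h2 : (((LL11 α m) ×ˢ (LL11 α m)).filter (fun e => g e.1 = g e.2)).card =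
        ∑ w ∈ I, ((LL11 α m).filter (fun L => g L = w)).card ^ 2 := by
      rw [Finset.card_eq_sum_card_fiberwise (f := fun e => g e.1) (t := I)]
      · apply Finset.sum_congr rfl
        intro w _
        rw [sq, ← Finset.card_product]
        congr 1
        ext e
        simp only [Finset.mem_filter, Finset.mem_product]
        constructor
        · rintro ⟨⟨⟨h3, h4⟩, h5⟩, h6⟩
          exact ⟨⟨h3, h6⟩, h4, by rw [← h5, h6]⟩
        · rintro ⟨⟨h3, h6⟩, h4, h5⟩
          exact ⟨⟨⟨h3, h4⟩, by rw [h5, h6]⟩, h6⟩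
      · intro e he
        simp only [Finset.coe_filter, Finset.mem_product, Set.mem_ofPred_eq] at he
        exact Finset.mem_image_of_mem g he.1.1
    rw [h2]
    push_cast
    rfl
  -- weights
  have hW : ∑ w ∈ I, wt w ^ 2 ≤ (m : ℝ) + 1 := by
    have hsub : I ⊆ (range (m + 1)).biUnion (fun j => LL11 A j) := by
      intro w hw
      rw [hI, Finset.mem_image] at hw
      obtain ⟨L, hL, rfl⟩ := hw
      rw [Finset.mem_biUnion]
      refine ⟨(g L).length, ?_, (mem_LL11 _ _).2 rfl⟩
      rw [Finset.mem_range]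
      have h1 : ∀ L : List α, (g L).length ≤ L.length := by
        intro L
        induction L with
        | nil => simp [hg]
        | cons x L ih =>
          simp only [hg, List.flatMap_cons, List.length_append, List.length_cons] at ih ⊢
          have := hf x
          omega
      have h2 := h1 L
      rw [(mem_LL11 _ _).1 hL] at h2
      omega
    have h1 : ∑ w ∈ I, wt w ^ 2 ≤ ∑ w ∈ (range (m + 1)).biUnion (fun j => LL11 A j), wt w ^ 2 :=
      Finset.sum_le_sum_of_subset_of_nonneg hsub (fun _ _ _ => by positivity)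
    refine h1.trans (le_of_eq ?_)
    rw [Finset.sum_biUnion]
    · have h2 : ∀ j ∈ range (m + 1), ∑ w ∈ LL11 A j, wt w ^ 2 = 1 := by
        intro j _
        rw [sum_LL11 (fun w => wt w ^ 2) (fun y => c y ^ 2), hc, one_pow]
        · simp [hwt]
        · intro x w
          simp only [hwt, List.map_cons, List.prod_cons]
          ring
      rw [Finset.sum_congr rfl h2, Finset.sum_const, nsmul_eq_mul, Finset.card_range]
      push_cast
      ring
    · intro i _ j _ hij
      rw [Function.onFun, Finset.disjoint_left]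
      intro w hw hw'
      rw [mem_LL11] at hw hw'
      exact hij (hw.symm.trans hw')
  have hCS := Finset.sum_mul_sq_le_sq_mul_sq I N wt
  rw [hM, ← hsum2, hsum] at hCS
  have e : (∑ s, wt (f s)) ^ (2 * m) = ((∑ s, wt (f s)) ^ m) ^ 2 := by
    rw [← pow_mul, mul_comm]
  rw [e]
  refine hCS.trans ?_
  rw [mul_comm ((m : ℝ) + 1)]
  exact mul_le_mul_of_nonneg_left hW (by positivity)

theorem solv_finite11 (a k n : ℕ) : (solv a k n).Finite := by
  have h : (solv a k n) ⊆ ⋃ i ∈ Finset.range (n + 1),
      ({w | w.length = i} ×ˢ {w | w.length = n - i} : Set (Eqn a k)) := by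
    rintro e ⟨h1, _⟩
    rw [Set.mem_iUnion₂]
    refine ⟨e.1.length, ?_, rfl, ?_⟩
    · rw [Finset.mem_range]
      omega
    · show e.2.length = n - e.1.length
      omega
  exact ((Finset.range (n + 1)).finite_toSet.biUnion (fun i _ =>
    (List.finite_length_eq _ _).prod (List.finite_length_eq _ _))).subset h

/-- R1b -/
theorem eps_lower (a k : ℕ) (ha : 1 ≤ a) (hk : 1 ≤ k) (n : ℕ) :
    ((k : ℝ) + Real.sqrt a) ^ n ≤ ((k : ℝ) + Real.sqrt a) * (n + 1) * ((solv a k n).ncard : ℝ) := by
  have ha' : (0 : ℝ) < Real.sqrt a := Real.sqrt_pos.2 (by exact_mod_cast ha)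
  have hsq : Real.sqrt a * Real.sqrt a = a := Real.mul_self_sqrt (by positivity)
  set f : Fin a ⊕ Fin k → List (Fin a) := Sum.elim (fun c => [c]) (fun _ => []) with hf
  have hf1 : ∀ s, (f s).length ≤ 1 := by
    rintro (s | s) <;> simp [hf]
  set b : ℝ := (k : ℝ) + Real.sqrt a with hb
  have hk' : (1 : ℝ) ≤ k := by exact_mod_cast hk
  have hb1 : 1 ≤ b := by rw [hb]; linarith
  have hcs := cs_lower f hf1 (fun _ => 1 / Real.sqrt a) (fun _ => by positivity) (by
    rw [Finset.sum_const, Finset.card_univ, Fintype.card_fin, nsmul_eq_mul]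
    rw [div_pow, one_pow, sq, hsq]
    have : (a : ℝ) ≠ 0 := by
      have : (1 : ℝ) ≤ a := by exact_mod_cast ha
      linarith
    field_simp)
  have hS : ∑ s, ((f s).map (fun _ => 1 / Real.sqrt a)).prod = b := by
    rw [Fintype.sum_sum_type]
    simp only [hf, Sum.elim_inl, Sum.elim_inr, List.map_cons, List.map_nil, List.prod_cons,
      List.prod_nil, mul_one, Finset.sum_const, Finset.card_univ, Fintype.card_fin, nsmul_eq_mul]
    rw [hb, add_comm (k : ℝ)]
    congr 1
    rw [mul_one_div, div_eq_iff ha'.ne', hsq]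
  simp only [hS] at hcs
  rcases Nat.even_or_odd' n with ⟨m, rfl | rfl⟩
  · have h1 : {e : List (Fin a ⊕ Fin k) × List (Fin a ⊕ Fin k) | e.1.length = m ∧
        e.2.length = m ∧ e.1.flatMap f = e.2.flatMap f} ⊆ solv a k (2 * m) := by
      rintro e ⟨h1, h2, h3⟩
      exact ⟨by omega, fun _ => [], h3⟩
    have h2 : (({e : List (Fin a ⊕ Fin k) × List (Fin a ⊕ Fin k) | e.1.length = m ∧
        e.2.length = m ∧ e.1.flatMap f = e.2.flatMap f}.ncard : ℕ) : ℝ) ≤
        ((solv a k (2 * m)).ncard : ℝ) := by
      exact_mod_cast Set.ncard_le_ncard h1 (solv_finite11 _ _ _)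
    refine (hcs m).trans ?_
    have h3 : ((m : ℝ) + 1) ≤ b * ((2 * m : ℕ) + 1) := by
      push_cast
      have : (0 : ℝ) ≤ m := by positivity
      nlinarith
    refine (mul_le_mul_of_nonneg_left h2 (by positivity)).trans ?_
    exact mul_le_mul_of_nonneg_right h3 (by positivity)
  · set x0 : Fin k := ⟨0, hk⟩ with hx0
    have h1 : (fun e : List (Fin a ⊕ Fin k) × List (Fin a ⊕ Fin k) =>
        ((Sum.inr x0 :: e.1, e.2) : Eqn a k)) ''
        {e : List (Fin a ⊕ Fin k) × List (Fin a ⊕ Fin k) | e.1.length = m ∧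
        e.2.length = m ∧ e.1.flatMap f = e.2.flatMap f} ⊆ solv a k (2 * m + 1) := by
      rintro _ ⟨e, ⟨h1, h2, h3⟩, rfl⟩
      refine ⟨by simp only [List.length_cons]; omega, fun _ => [], ?_⟩
      show ap _ (Sum.inr x0 :: e.1) = ap _ e.2
      unfold ap
      rw [List.flatMap_cons]
      exact h3
    have hinj : Function.Injective (fun e : List (Fin a ⊕ Fin k) × List (Fin a ⊕ Fin k) =>
        ((Sum.inr x0 :: e.1, e.2) : Eqn a k)) := by
      intro e e' h
      simp only [Prod.mk.injEq, List.cons.injEq, true_and] at h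
      exact Prod.ext h.1 h.2
    have h2 : (({e : List (Fin a ⊕ Fin k) × List (Fin a ⊕ Fin k) | e.1.length = m ∧
        e.2.length = m ∧ e.1.flatMap f = e.2.flatMap f}.ncard : ℕ) : ℝ) ≤
        ((solv a k (2 * m + 1)).ncard : ℝ) := by
      have h3 := Set.ncard_le_ncard h1 (solv_finite11 _ _ _)
      rw [Set.ncard_image_of_injective _ hinj] at h3
      exact_mod_cast h3
    have h3 : ((m : ℝ) + 1) ≤ ((2 * m + 1 : ℕ) + 1) := by
      push_cast
      have : (0 : ℝ) ≤ m := by positivity
      linarith
    have h4 := (hcs m).trans (mul_le_mul h3 h2 (by positivity) (by positivity))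
    rw [pow_succ']
    have h5 := mul_le_mul_of_nonneg_left h4 (show 0 ≤ b by linarith)
    refine h5.trans (le_of_eq ?_)
    ring

/-- a solvable equation that is not solved by the empty substitution has no solution of length
zero -/
theorem minLen_ne11 {a k : ℕ} {e : Eqn a k} (h : ∃ σ, Sol σ e) (h' : ¬ Sol (fun _ => []) e) :
    minLen e ≠ 0 := by
  intro h0
  obtain ⟨σ, hσ⟩ := h
  have hne : {m | ∃ σ, Sol σ e ∧ slen σ = m}.Nonempty := ⟨slen σ, σ, hσ, rfl⟩
  obtain ⟨τ, hτ, hτ0⟩ := Nat.sInf_mem hne
  have h1 : slen τ = 0 := by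
    rw [hτ0]
    exact h0
  apply h'
  have h2 : τ = fun _ => [] := by
    funext x
    unfold slen at h1
    rw [Finset.sum_eq_zero_iff] at h1
    exact List.length_eq_zero_iff.1 (h1 x (Finset.mem_univ _))
  rw [← h2]
  exact hτ

/-- R1c -/
theorem nt_lower (k : ℕ) (hk : 1 ≤ k) (m : ℕ) :
    ((k : ℝ) - 1 + Real.sqrt 5) ^ (2 * m) ≤
      ((m : ℝ) + 1) * ({e ∈ solv 2 k (2 * m + 4) | minLen e ≠ 0}.ncard : ℝ) := by
  have h5 : (0 : ℝ) < Real.sqrt 5 := Real.sqrt_pos.2 (by norm_num)
  have hsq : Real.sqrt 5 * Real.sqrt 5 = 5 := Real.mul_self_sqrt (by norm_num)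
  set x0 : Fin k := ⟨0, hk⟩ with hx0
  set τ : Fin k → List (Fin 2) := fun x => if x = x0 then [0] else [] with hτ
  set f : Fin 2 ⊕ Fin k → List (Fin 2) := Sum.elim (fun c => [c]) τ with hf
  have hf1 : ∀ s, (f s).length ≤ 1 := by
    rintro (s | s)
    · simp [hf]
    · simp only [hf, Sum.elim_inr, hτ]
      split_ifs <;> simp
  set c : Fin 2 → ℝ := ![2 / Real.sqrt 5, 1 / Real.sqrt 5] with hc
  have hcs := cs_lower f hf1 c (by
    intro y
    fin_cases y
    · simp only [hc]
      show (0 : ℝ) ≤ 2 / Real.sqrt 5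
      positivity
    · simp only [hc]
      show (0 : ℝ) ≤ 1 / Real.sqrt 5
      positivity) (by
    rw [Fin.sum_univ_two]
    simp only [hc, Matrix.cons_val_zero, Matrix.cons_val_one]
    rw [div_pow, div_pow, sq (Real.sqrt 5), hsq]
    norm_num) m
  have hS : ∑ s, ((f s).map c).prod = (k : ℝ) - 1 + Real.sqrt 5 := by
    rw [Fintype.sum_sum_type, Fin.sum_univ_two]
    simp only [hf, Sum.elim_inl, Sum.elim_inr, List.map_cons, List.map_nil, List.prod_cons,
      List.prod_nil, mul_one]
    have h1 : ∀ x : Fin k, ((τ x).map c).prod = if x = x0 then c 0 else 1 := by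
      intro x
      simp only [hτ]
      split_ifs <;> simp
    rw [Finset.sum_congr rfl (fun x _ => h1 x)]
    have h2 : ∑ x : Fin k, (if x = x0 then c 0 else 1) = c 0 + ((k : ℝ) - 1) := by
      rw [← Finset.add_sum_erase _ _ (Finset.mem_univ x0), if_pos rfl]
      congr 1
      have h3 : ∀ x ∈ (Finset.univ : Finset (Fin k)).erase x0,
          (if x = x0 then c 0 else (1 : ℝ)) = 1 := by
        intro x hx
        rw [if_neg (Finset.ne_of_mem_erase hx)]
      rw [Finset.sum_congr rfl h3, Finset.sum_const, nsmul_eq_mul, mul_one,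
        Finset.card_erase_of_mem (Finset.mem_univ _), Finset.card_univ, Fintype.card_fin,
        Nat.cast_sub hk]
      simp
    rw [h2]
    simp only [hc, Matrix.cons_val_zero, Matrix.cons_val_one]
    have h6 : 5 / Real.sqrt 5 = Real.sqrt 5 := by
      rw [div_eq_iff h5.ne', hsq]
    have h7 : 2 / Real.sqrt 5 + 1 / Real.sqrt 5 + (2 / Real.sqrt 5 + ((k : ℝ) - 1)) =
        (k : ℝ) - 1 + 5 / Real.sqrt 5 := by ring
    rw [h7, h6]
  rw [hS] at hcs
  refine hcs.trans (mul_le_mul_of_nonneg_left ?_ (by positivity))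
  set F : List (Fin 2 ⊕ Fin k) × List (Fin 2 ⊕ Fin k) → Eqn 2 k := fun e =>
    (Sum.inr x0 :: Sum.inl 1 :: e.1, Sum.inl 0 :: Sum.inl 1 :: e.2) with hF
  have hinj : Function.Injective F := by
    intro e e' h
    simp only [hF, Prod.mk.injEq, List.cons.injEq, true_and] at h
    exact Prod.ext h.1 h.2
  have hsub : F '' {e : List (Fin 2 ⊕ Fin k) × List (Fin 2 ⊕ Fin k) | e.1.length = m ∧
      e.2.length = m ∧ e.1.flatMap f = e.2.flatMap f} ⊆
      {e ∈ solv 2 k (2 * m + 4) | minLen e ≠ 0} := by
    rintro _ ⟨e, ⟨h1, h2, h3⟩, rfl⟩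
    have hsol : Sol τ (F e) := by
      show ap τ _ = ap τ _
      simp only [hF]
      unfold ap
      simp only [List.flatMap_cons, Sum.elim_inl, Sum.elim_inr]
      have h4 : τ x0 = [0] := by simp [hτ]
      rw [h4]
      have h5 : List.flatMap (Sum.elim (fun c => [c]) τ) e.1 =
          List.flatMap (Sum.elim (fun c => [c]) τ) e.2 := h3
      rw [h5]
    refine ⟨⟨by simp only [hF, List.length_cons]; omega, τ, hsol⟩, ?_⟩
    apply minLen_ne11 ⟨τ, hsol⟩
    intro h
    unfold Sol ap at h
    simp only [hF, List.flatMap_cons, Sum.elim_inl, Sum.elim_inr, List.nil_append,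
      List.singleton_append, List.cons.injEq] at h
    exact absurd h.1 (by decide)
  have hfin : {e ∈ solv 2 k (2 * m + 4) | minLen e ≠ 0}.Finite :=
    (solv_finite11 _ _ _).subset (fun e he => he.1)
  have h6 := Set.ncard_le_ncard hsub hfin
  rw [Set.ncard_image_of_injective _ hinj] at h6
  exact_mod_cast h6

/-- R1d -/
theorem big_lower (a k : ℕ) (hk : 1 ≤ k) (n : ℕ) :
    ((k : ℝ) + a - 1) ^ n ≤ ((solv a k (n + 1)).ncard : ℝ) := by
  set x0 : Fin k := ⟨0, hk⟩ with hx0
  let β := {s : Fin a ⊕ Fin k // s ≠ Sum.inr x0}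
  have hcard : Fintype.card β = a + k - 1 := by
    have h := Fintype.card_subtype_compl (fun s : Fin a ⊕ Fin k => s = Sum.inr x0)
    rw [Fintype.card_subtype_eq, Fintype.card_sum, Fintype.card_fin, Fintype.card_fin] at h
    rw [← h]
  set F : List β → Eqn a k := fun w => (w.map Subtype.val, [Sum.inr x0]) with hF
  have hinj : Function.Injective F := by
    intro w w' h
    simp only [hF, Prod.mk.injEq, and_true] at h
    exact List.map_injective_iff.2 Subtype.val_injective h
  have hsub : F '' ((LL11 β n : Finset (List β)) : Set (List β)) ⊆ solv a k (n + 1) := by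
    rintro _ ⟨w, hw, rfl⟩
    have hw' : w.length = n := (mem_LL11 _ _).1 hw
    set ε : Fin k → List (Fin a) := fun _ => [] with hε
    set σ : Fin k → List (Fin a) := fun x => if x = x0 then ap ε (w.map Subtype.val) else []
      with hσ
    refine ⟨by simp only [hF, List.length_map, List.length_singleton, hw'], σ, ?_⟩
    show ap σ (w.map Subtype.val) = ap σ [Sum.inr x0]
    have h1 : ap σ [Sum.inr x0] = ap ε (w.map Subtype.val) := by
      have : σ x0 = ap ε (w.map Subtype.val) := by simp [hσ]
      conv_rhs => rw [← this]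
      unfold ap
      simp
    rw [h1]
    unfold ap
    have h2 : ∀ w : List β, List.flatMap (Sum.elim (fun c => [c]) σ) (w.map Subtype.val) =
        List.flatMap (Sum.elim (fun c => [c]) ε) (w.map Subtype.val) := by
      intro w
      induction w with
      | nil => rfl
      | cons s w ih =>
        rw [List.map_cons, List.flatMap_cons, List.flatMap_cons, ih]
        congr 1
        obtain ⟨s, hs⟩ := s
        rcases s with s | s
        · rfl
        · have : s ≠ x0 := fun h => hs (by rw [h])
          simp [hσ, hε, this]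
    exact h2 w
  have h1 := Set.ncard_le_ncard hsub (solv_finite11 _ _ _)
  rw [Set.ncard_image_of_injective _ hinj, Set.ncard_coe_finset, card_LL11, hcard] at h1
  have h2 : ((a + k - 1 : ℕ) : ℝ) = (k : ℝ) + a - 1 := by
    rw [Nat.cast_sub (by omega)]
    push_cast
    ring
  rw [← h2]
  exact_mod_cast h1

end

end Pool.Agent.WE
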