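import Pool.Agent.WE.Er11
import Pool.Agent.WE.Low11

/-! # Word equations: equations that are not solved by the empty substitution (rows R12e, R12e')

The growth of the equations with a non-erasing solution (`N_bound`, `N_two`) enters as a
hypothesis. -/

set_option autoImplicit false

namespace Pool.Agent.WE

open Classical Finset

noncomputable section

/-- restriction to the variables in `D` -/
def res11 {A V : Type} (D : Finset V) : A ⊕ V → Option (A ⊕ D) :=
  Sum.elim (fun c => some (Sum.inl c)) (fun x => if h : x ∈ D then some (Sum.inr ⟨x, h⟩) else none)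

theorem res_inj11 {A V : Type} (D : Finset V) (x y : A ⊕ V) (g : A ⊕ D) (hx : res11 D x = some g)
    (hy : res11 D y = some g) : x = y := by
  rcases x with x | x <;> rcases y with y | y
  · simp only [res11, Sum.elim_inl, Option.some.injEq] at hx hy
    rw [← hx] at hy
    simp only [Sum.inl.injEq] at hy
    rw [hy]
  · simp only [res11, Sum.elim_inl, Sum.elim_inr, Option.some.injEq] at hx hy
    split_ifs at hy with h
    rw [← hx] at hy
    simp at hy
  · simp only [res11, Sum.elim_inl, Sum.elim_inr, Option.some.injEq] at hx hy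
    split_ifs at hx with h
    rw [← hy] at hx
    simp at hx
  · simp only [res11, Sum.elim_inr] at hx hy
    split_ifs at hx with h
    split_ifs at hy with h'
    rw [← hx] at hy
    simp only [Option.some.injEq, Sum.inr.injEq, Subtype.mk.injEq] at hy
    rw [hy]

theorem ap_res11 {A V : Type} (D : Finset V) (σ : V → List A) (hD : ∀ x, x ∉ D → σ x = [])
    (w : List (A ⊕ V)) : ap (fun x : D => σ x) (w.filterMap (res11 D)) = ap σ w := by
  induction w with
  | nil => rfl
  | cons s w ih =>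
    rcases s with s | s
    · have h : res11 D (Sum.inl s : A ⊕ V) = some (Sum.inl s) := rfl
      rw [List.filterMap_cons_some h]
      unfold ap at ih ⊢
      rw [List.flatMap_cons, List.flatMap_cons, ih]
      rfl
    · by_cases hs : s ∈ D
      · have h : res11 D (Sum.inr s : A ⊕ V) = some (Sum.inr ⟨s, hs⟩) := by
          simp only [res11, Sum.elim_inr]
          rw [dif_pos hs]
        rw [List.filterMap_cons_some h]
        unfold ap at ih ⊢
        rw [List.flatMap_cons, List.flatMap_cons, ih]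
        rfl
      · have h : res11 D (Sum.inr s : A ⊕ V) = none := by
          simp only [res11, Sum.elim_inr]
          rw [dif_neg hs]
        rw [List.filterMap_cons_none h]
        unfold ap at ih ⊢
        rw [List.flatMap_cons, ih]
        have h2 : Sum.elim (fun c => [c]) σ (Sum.inr s : A ⊕ V) = [] := hD s hs
        rw [h2, List.nil_append]

/-- the number of erased symbols -/
theorem card_res11 (a k : ℕ) (D : Finset (Fin k)) :
    ((univ.filter (fun x : Fin a ⊕ Fin k => res11 D x = none)).card : ℝ) =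
      (k : ℝ) - D.card := by
  have h1 : (univ.filter (fun x : Fin a ⊕ Fin k => res11 D x = none)) =
      (Dᶜ).map ⟨Sum.inr, Sum.inr_injective⟩ := by
    ext x
    rw [Finset.mem_filter, Finset.mem_map]
    rcases x with x | x
    · simp [res11]
    · simp only [Finset.mem_univ, true_and, Finset.mem_compl, Function.Embedding.coeFn_mk,
        Sum.inr.injEq, exists_eq_right, res11, Sum.elim_inr]
      by_cases h : x ∈ D
      · rw [dif_pos h]
        simp [h]
      · rw [dif_neg h]
        simp [h]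
  rw [h1, Finset.card_map, Finset.card_compl, Fintype.card_fin,
    Nat.cast_sub (by simpa using Finset.card_le_univ D)]

/-- one set `D` of non-erased variables -/
theorem one_D11 (a k : ℕ) (D : Finset (Fin k)) (p : (D → List (Fin a)) → Prop) (g C : ℝ)
    (hC : 0 ≤ C) (hg0 : 0 ≤ g - (k - D.card))
    (hN : ∀ n : ℕ, ({e : List (Fin a ⊕ D) × List (Fin a ⊕ D) | e.1.length + e.2.length = n ∧
      ∃ σ : D → List (Fin a), p σ ∧ ap σ e.1 = ap σ e.2}.ncard : ℝ) ≤
        C * (g - (k - D.card)) ^ n) (n : ℕ) :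
    ({e : Eqn a k | e.1.length + e.2.length = n ∧ ∃ σ : Fin k → List (Fin a),
      (∀ x, x ∉ D → σ x = []) ∧ p (fun x : D => σ x) ∧ Sol σ e}.ncard : ℝ) ≤
        C * (n + 1) * g ^ n := by
  set Y : Set (List (Fin a ⊕ D) × List (Fin a ⊕ D)) :=
    {e | ∃ σ : D → List (Fin a), p σ ∧ ap σ e.1 = ap σ e.2} with hY
  have hYc : ∀ m1 m2, ({e ∈ Y | e.1.length = m1 ∧ e.2.length = m2}.ncard : ℝ) ≤
      C * (g - (k - D.card)) ^ (m1 + m2) := by
    intro m1 m2
    refine le_trans ?_ (hN (m1 + m2))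
    have hfin : {e : List (Fin a ⊕ D) × List (Fin a ⊕ D) | e.1.length + e.2.length = m1 + m2 ∧
      ∃ σ : D → List (Fin a), p σ ∧ ap σ e.1 = ap σ e.2}.Finite := by
      have h : {e : List (Fin a ⊕ D) × List (Fin a ⊕ D) | e.1.length + e.2.length = m1 + m2 ∧
          ∃ σ : D → List (Fin a), p σ ∧ ap σ e.1 = ap σ e.2} ⊆
          ⋃ i ∈ Finset.range (m1 + m2 + 1),
          ({w | w.length = i} ×ˢ {w | w.length = m1 + m2 - i}) := by
        rintro e ⟨h1, _⟩
        rw [Set.mem_iUnion₂]
        refine ⟨e.1.length, ?_, rfl, ?_⟩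
        · rw [Finset.mem_range]
          omega
        · show e.2.length = m1 + m2 - e.1.length
          omega
      exact ((Finset.range (m1 + m2 + 1)).finite_toSet.biUnion (fun i _ =>
        (List.finite_length_eq _ _).prod (List.finite_length_eq _ _))).subset h
    have hsub : {e ∈ Y | e.1.length = m1 ∧ e.2.length = m2} ⊆
        {e : List (Fin a ⊕ D) × List (Fin a ⊕ D) | e.1.length + e.2.length = m1 + m2 ∧
          ∃ σ : D → List (Fin a), p σ ∧ ap σ e.1 = ap σ e.2} := by
      rintro e ⟨h1, h2, h3⟩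
      exact ⟨by omega, h1⟩
    exact_mod_cast Set.ncard_le_ncard hsub hfin
  have her := er (res11 D) (fun x y z => res_inj11 D x y z) Y C (g - (k - D.card)) hC hg0 hYc
  rw [card_res11 a k D] at her
  have e0 : (k : ℝ) - D.card + (g - (k - D.card)) = g := by ring
  rw [e0] at her
  have hsub : {e : Eqn a k | e.1.length + e.2.length = n ∧ ∃ σ : Fin k → List (Fin a),
      (∀ x, x ∉ D → σ x = []) ∧ p (fun x : D => σ x) ∧ Sol σ e} ⊆
      ⋃ i ∈ Finset.range (n + 1), {e : Eqn a k | e.1.length = i ∧ e.2.length = n - i ∧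
        (e.1.filterMap (res11 D), e.2.filterMap (res11 D)) ∈ Y} := by
    rintro e ⟨h1, σ, h2, h3, h4⟩
    rw [Set.mem_iUnion₂]
    refine ⟨e.1.length, by rw [Finset.mem_range]; omega, rfl, by omega,
      (fun x : D => σ x), h3, ?_⟩
    show ap _ _ = ap _ _
    rw [ap_res11 D σ h2, ap_res11 D σ h2]
    exact h4
  have hfin : ∀ i, {e : Eqn a k | e.1.length = i ∧ e.2.length = n - i ∧
        (e.1.filterMap (res11 D), e.2.filterMap (res11 D)) ∈ Y}.Finite := fun i =>
    ((List.finite_length_eq _ i).prod (List.finite_length_eq _ (n - i))).subset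
      (fun e he => ⟨he.1, he.2.1⟩)
  have h1 := (Set.ncard_le_ncard hsub ((Finset.range (n + 1)).finite_toSet.biUnion
    (fun i _ => hfin i))).trans (Finset.set_ncard_biUnion_le _ _)
  have h2 : ({e : Eqn a k | e.1.length + e.2.length = n ∧ ∃ σ : Fin k → List (Fin a),
      (∀ x, x ∉ D → σ x = []) ∧ p (fun x : D => σ x) ∧ Sol σ e}.ncard : ℝ) ≤
      ∑ i ∈ Finset.range (n + 1), ({e : Eqn a k | e.1.length = i ∧ e.2.length = n - i ∧
        (e.1.filterMap (res11 D), e.2.filterMap (res11 D)) ∈ Y}.ncard : ℝ) := by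
    exact_mod_cast h1
  refine h2.trans ?_
  have h3 := Finset.sum_le_card_nsmul (Finset.range (n + 1))
    (fun i => ({e : Eqn a k | e.1.length = i ∧ e.2.length = n - i ∧
        (e.1.filterMap (res11 D), e.2.filterMap (res11 D)) ∈ Y}.ncard : ℝ)) (C * g ^ n) (by
    intro i hi
    have h4 := her i (n - i)
    have h5 : i + (n - i) = n := by
      have := Finset.mem_range.1 hi
      omega
    rw [h5] at h4
    exact h4)
  rw [Finset.card_range, nsmul_eq_mul] at h3
  refine h3.trans (le_of_eq ?_)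
  push_cast
  ring

theorem bet_nonneg11 (a d : ℕ) : 0 ≤ bet a d := by
  unfold bet
  exact le_max_of_le_left (Real.sqrt_nonneg _)

/-- R12e with the growth of the non-erasing equations as hypothesis -/
theorem nt_upper_of11 (a k : ℕ) (hk : 1 ≤ k) (g : ℝ)
    (hN : ∀ D : Finset (Fin k), D.Nonempty → ∀ g : ℝ, bet a D.card < g → ∃ C : ℝ, 0 ≤ C ∧
      ∀ n : ℕ, ({e : List (Fin a ⊕ D) × List (Fin a ⊕ D) | e.1.length + e.2.length = n ∧
        ∃ σ : D → List (Fin a), (∀ x, σ x ≠ []) ∧ ap σ e.1 = ap σ e.2}.ncard : ℝ) ≤ C * g ^ n)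
    (hg : ∀ d : ℕ, 1 ≤ d → d ≤ k → (k : ℝ) - d + bet a d < g) :
    ∃ C : ℝ, 0 ≤ C ∧ ∀ n : ℕ, ({e ∈ solv a k n | minLen e ≠ 0}.ncard : ℝ) ≤
      C * (n + 1) * g ^ n := by
  have hD : ∀ D : Finset (Fin k), ∃ C : ℝ, 0 ≤ C ∧ (D.Nonempty → ∀ n : ℕ,
      ({e : Eqn a k | e.1.length + e.2.length = n ∧ ∃ σ : Fin k → List (Fin a),
      (∀ x, x ∉ D → σ x = []) ∧ (∀ x : D, σ x ≠ []) ∧ Sol σ e}.ncard : ℝ) ≤
        C * (n + 1) * g ^ n) := by
    intro D
    by_cases hne : D.Nonempty
    · have hd1 : 1 ≤ D.card := Finset.card_pos.2 hne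
      have hd2 : D.card ≤ k := by simpa using Finset.card_le_univ D
      have hlt := hg D.card hd1 hd2
      have hlt' : bet a D.card < g - (k - D.card) := by linarith
      obtain ⟨C, hC, hC2⟩ := hN D hne _ hlt'
      refine ⟨C, hC, fun _ n => ?_⟩
      exact one_D11 a k D (fun σ => ∀ x, σ x ≠ []) g C hC
        ((bet_nonneg11 a D.card).trans hlt'.le) hC2 n
    · exact ⟨0, le_refl 0, fun h => absurd h hne⟩
  choose C hC hC2 using hD
  refine ⟨∑ D : Finset (Fin k), C D, Finset.sum_nonneg (fun D _ => hC D), fun n => ?_⟩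
  have hsub : {e ∈ solv a k n | minLen e ≠ 0} ⊆
      ⋃ D ∈ (univ : Finset (Finset (Fin k))).filter (fun D => D.Nonempty),
      {e : Eqn a k | e.1.length + e.2.length = n ∧ ∃ σ : Fin k → List (Fin a),
      (∀ x, x ∉ D → σ x = []) ∧ (∀ x : D, σ x ≠ []) ∧ Sol σ e} := by
    rintro e ⟨⟨h1, σ, hσ⟩, h2⟩
    rw [Set.mem_iUnion₂]
    refine ⟨univ.filter (fun x => σ x ≠ []), ?_, h1, σ, ?_, ?_, hσ⟩
    · rw [Finset.mem_filter]
      refine ⟨Finset.mem_univ _, ?_⟩
      by_contra h
      rw [Finset.not_nonempty_iff_eq_empty, Finset.filter_eq_empty_iff] at h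
      apply h2
      have h3 : slen σ = 0 := by
        unfold slen
        apply Finset.sum_eq_zero
        intro x _
        have := h (Finset.mem_univ x)
        rw [not_not] at this
        rw [this]
        rfl
      have h4 : minLen e ≤ slen σ := Nat.sInf_le ⟨σ, hσ, rfl⟩
      omega
    · intro x hx
      by_contra h
      exact hx (Finset.mem_filter.2 ⟨Finset.mem_univ _, h⟩)
    · intro x
      exact (Finset.mem_filter.1 x.2).2
  have hfin : ∀ D : Finset (Fin k), {e : Eqn a k | e.1.length + e.2.length = n ∧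
      ∃ σ : Fin k → List (Fin a),
      (∀ x, x ∉ D → σ x = []) ∧ (∀ x : D, σ x ≠ []) ∧ Sol σ e}.Finite := fun D =>
    (solv_finite11 a k n).subset (fun e he => ⟨he.1, he.2.imp (fun σ h => h.2.2)⟩)
  have h1 := (Set.ncard_le_ncard hsub ((Finset.finite_toSet _).biUnion
    (fun D _ => hfin D))).trans (Finset.set_ncard_biUnion_le _ _)
  have h2 : ({e ∈ solv a k n | minLen e ≠ 0}.ncard : ℝ) ≤
      ∑ D ∈ (univ : Finset (Finset (Fin k))).filter (fun D => D.Nonempty),
      ({e : Eqn a k | e.1.length + e.2.length = n ∧ ∃ σ : Fin k → List (Fin a),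
      (∀ x, x ∉ D → σ x = []) ∧ (∀ x : D, σ x ≠ []) ∧ Sol σ e}.ncard : ℝ) := by
    exact_mod_cast h1
  have hg0 : 0 ≤ g := by
    have h3 := hg 1 (le_refl 1) hk
    have h4 := bet_nonneg11 a 1
    have h5 : (1 : ℝ) ≤ k := by exact_mod_cast hk
    push_cast at h3
    linarith
  have h3 : ∑ D ∈ (univ : Finset (Finset (Fin k))).filter (fun D => D.Nonempty),
      ({e : Eqn a k | e.1.length + e.2.length = n ∧ ∃ σ : Fin k → List (Fin a),
      (∀ x, x ∉ D → σ x = []) ∧ (∀ x : D, σ x ≠ []) ∧ Sol σ e}.ncard : ℝ) ≤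
      ∑ D ∈ (univ : Finset (Finset (Fin k))).filter (fun D => D.Nonempty),
        C D * (n + 1) * g ^ n :=
    Finset.sum_le_sum (fun D hD => hC2 D (Finset.mem_filter.1 hD).2 n)
  refine (h2.trans h3).trans ?_
  rw [Finset.sum_mul, Finset.sum_mul]
  apply Finset.sum_le_sum_of_subset_of_nonneg (Finset.filter_subset _ _)
  intro D _ _
  have := hC D
  positivity

theorem bet_two_le11 {d : ℕ} (hd : 2 ≤ d) : bet 2 d ≤ d + 6 / 5 := by
  have hd' : (2 : ℝ) ≤ d := by exact_mod_cast hd
  unfold bet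
  apply max_le
  · rw [Real.sqrt_le_left (by positivity)]
    push_cast
    nlinarith
  · push_cast
    linarith

/-- R12e' with the growth of the non-erasing equations as hypotheses -/
theorem nt2_upper_of11 (k : ℕ) (hk : 1 ≤ k) (g : ℝ) (hg : (k : ℝ) + 6 / 5 < g)
    (hN : ∀ D : Finset (Fin k), D.Nonempty → ∀ g : ℝ, bet 2 D.card < g → ∃ C : ℝ, 0 ≤ C ∧
      ∀ n : ℕ, ({e : List (Fin 2 ⊕ D) × List (Fin 2 ⊕ D) | e.1.length + e.2.length = n ∧
        ∃ σ : D → List (Fin 2), (∀ x, σ x ≠ []) ∧ ap σ e.1 = ap σ e.2}.ncard : ℝ) ≤ C * g ^ n)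
    (hN2 : ∀ D : Finset (Fin k), D.card = 1 → ∀ g : ℝ, 11 / 5 < g → ∃ C : ℝ, 0 ≤ C ∧
      ∀ n : ℕ, ({e : List (Fin 2 ⊕ D) × List (Fin 2 ⊕ D) | e.1.length + e.2.length = n ∧
        ∃ σ : D → List (Fin 2), (∀ x, σ x ≠ []) ∧ (∀ x, 2 ≤ (σ x).length) ∧
          ap σ e.1 = ap σ e.2}.ncard : ℝ) ≤ C * g ^ n) :
    ∃ C : ℝ, 0 ≤ C ∧ ∀ n : ℕ, ({e ∈ solv 2 k n | 2 ≤ minLen e}.ncard : ℝ) ≤
      C * (n + 1) * g ^ n := by
  have hk' : (1 : ℝ) ≤ k := by exact_mod_cast hk
  have hg0 : 0 ≤ g := by linarith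
  -- the set of equations for a given D
  set T : Finset (Fin k) → ℕ → Set (Eqn 2 k) := fun D n =>
    {e | e.1.length + e.2.length = n ∧ ∃ σ : Fin k → List (Fin 2),
      (∀ x, x ∉ D → σ x = []) ∧
      ((∀ x : D, σ x ≠ []) ∧ (D.card = 1 → ∀ x : D, 2 ≤ (σ x).length)) ∧ Sol σ e} with hT
  have hD : ∀ D : Finset (Fin k), ∃ C : ℝ, 0 ≤ C ∧ (D.Nonempty → ∀ n : ℕ,
      ((T D n).ncard : ℝ) ≤ C * (n + 1) * g ^ n) := by
    intro D
    by_cases hne : D.Nonempty
    · have hd1 : 1 ≤ D.card := Finset.card_pos.2 hne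
      have hd2 : D.card ≤ k := by simpa using Finset.card_le_univ D
      rcases Nat.lt_or_ge D.card 2 with h1 | h2
      · have hc : D.card = 1 := by omega
        have hlt : 11 / 5 < g - ((k : ℝ) - D.card) := by
          rw [hc]
          push_cast
          linarith
        obtain ⟨C, hC, hC2⟩ := hN2 D hc _ hlt
        refine ⟨C, hC, fun _ n => ?_⟩
        refine one_D11 2 k D (fun σ => (∀ x, σ x ≠ []) ∧
          (D.card = 1 → ∀ x, 2 ≤ (σ x).length)) g C hC (by linarith) ?_ n
        intro n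
        refine le_trans (le_of_eq ?_) (hC2 n)
        congr 2
        ext e
        simp only [Set.mem_ofPred_eq]
        constructor
        · rintro ⟨h3, σ, ⟨h4, h5⟩, h6⟩
          exact ⟨h3, σ, h4, h5 hc, h6⟩
        · rintro ⟨h3, σ, h4, h5, h6⟩
          exact ⟨h3, σ, ⟨h4, fun _ => h5⟩, h6⟩
      · have hlt : bet 2 D.card < g - ((k : ℝ) - D.card) := by
          have := bet_two_le11 h2
          linarith
        obtain ⟨C, hC, hC2⟩ := hN D hne _ hlt
        refine ⟨C, hC, fun _ n => ?_⟩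
        refine one_D11 2 k D (fun σ => (∀ x, σ x ≠ []) ∧
          (D.card = 1 → ∀ x, 2 ≤ (σ x).length)) g C hC
          ((bet_nonneg11 2 D.card).trans hlt.le) ?_ n
        intro n
        refine le_trans (le_of_eq ?_) (hC2 n)
        congr 2
        ext e
        simp only [Set.mem_ofPred_eq]
        constructor
        · rintro ⟨h3, σ, ⟨h4, h5⟩, h6⟩
          exact ⟨h3, σ, h4, h6⟩
        · rintro ⟨h3, σ, h4, h6⟩
          exact ⟨h3, σ, ⟨h4, fun h => by omega⟩, h6⟩
    · exact ⟨0, le_refl 0, fun h => absurd h hne⟩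
  choose C hC hC2 using hD
  refine ⟨∑ D : Finset (Fin k), C D, Finset.sum_nonneg (fun D _ => hC D), fun n => ?_⟩
  have hsub : {e ∈ solv 2 k n | 2 ≤ minLen e} ⊆
      ⋃ D ∈ (univ : Finset (Finset (Fin k))).filter (fun D => D.Nonempty), T D n := by
    rintro e ⟨⟨h1, σ, hσ⟩, h2⟩
    have h4 : minLen e ≤ slen σ := Nat.sInf_le ⟨σ, hσ, rfl⟩
    rw [Set.mem_iUnion₂]
    set D := univ.filter (fun x => σ x ≠ []) with hDdef
    have hout : ∀ x, x ∉ D → σ x = [] := by
      intro x hx
      by_contra h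
      exact hx (Finset.mem_filter.2 ⟨Finset.mem_univ _, h⟩)
    refine ⟨D, ?_, h1, σ, hout, ⟨?_, ?_⟩, hσ⟩
    · rw [Finset.mem_filter]
      refine ⟨Finset.mem_univ _, ?_⟩
      by_contra h
      rw [Finset.not_nonempty_iff_eq_empty] at h
      have h3 : slen σ = 0 := by
        unfold slen
        apply Finset.sum_eq_zero
        intro x _
        rw [hout x (by rw [h]; exact Finset.notMem_empty x)]
        rfl
      omega
    · intro x
      exact (Finset.mem_filter.1 x.2).2
    · intro hc x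
      obtain ⟨y, hy⟩ := Finset.card_eq_one.1 hc
      have hmem : ∀ z, z ∈ D → z = y := by
        intro z hz
        rw [hy, Finset.mem_singleton] at hz
        exact hz
      have hx : (x : Fin k) = y := hmem _ x.2
      have h3 : slen σ = (σ y).length := by
        unfold slen
        rw [Finset.sum_eq_single y]
        · intro z _ hz
          rw [hout z (by rw [hy, Finset.mem_singleton]; exact hz)]
          rfl
        · intro h
          exact absurd (Finset.mem_univ y) h
      rw [hx]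
      omega
  have hfin : ∀ D : Finset (Fin k), (T D n).Finite := fun D =>
    (solv_finite11 2 k n).subset (fun e he => ⟨he.1, he.2.imp (fun σ h => h.2.2)⟩)
  have h1 := (Set.ncard_le_ncard hsub ((Finset.finite_toSet _).biUnion
    (fun D _ => hfin D))).trans (Finset.set_ncard_biUnion_le _ _)
  have h2 : ({e ∈ solv 2 k n | 2 ≤ minLen e}.ncard : ℝ) ≤
      ∑ D ∈ (univ : Finset (Finset (Fin k))).filter (fun D => D.Nonempty),
      ((T D n).ncard : ℝ) := by
    exact_mod_cast h1
  have h3 : ∑ D ∈ (univ : Finset (Finset (Fin k))).filter (fun D => D.Nonempty),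
      ((T D n).ncard : ℝ) ≤
      ∑ D ∈ (univ : Finset (Finset (Fin k))).filter (fun D => D.Nonempty),
        C D * (n + 1) * g ^ n :=
    Finset.sum_le_sum (fun D hD => hC2 D (Finset.mem_filter.1 hD).2 n)
  refine (h2.trans h3).trans ?_
  rw [Finset.sum_mul, Finset.sum_mul]
  apply Finset.sum_le_sum_of_subset_of_nonneg (Finset.filter_subset _ _)
  intro D _ _
  have := hC D
  positivity

end

end Pool.Agent.WE
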