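import Pool.Agent.WE.Gr11
import Pool.Agent.WE.Nt11

/-! # R12e: upper bounds for the equations that are not solved by the empty substitution -/

set_option autoImplicit false

namespace Pool.Agent.WE

open Classical Finset

noncomputable section

theorem nt_upper (a k : ℕ) (ha : 2 ≤ a) (hk : 1 ≤ k) (g : ℝ)
    (hg : ∀ d : ℕ, 1 ≤ d → d ≤ k → (k : ℝ) - d + bet a d < g) :
    ∃ C : ℝ, 0 ≤ C ∧ ∀ n : ℕ, ({e ∈ solv a k n | minLen e ≠ 0}.ncard : ℝ) ≤
      C * (n + 1) * g ^ n := by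
  apply nt_upper_of11 a k hk g _ hg
  intro D hD g' hg'
  have h1 : 1 ≤ Fintype.card (Fin a) := by rw [Fintype.card_fin]; omega
  have h2 : 1 ≤ Fintype.card D := by rw [Fintype.card_coe]; exact Finset.card_pos.2 hD
  exact N_bound h1 h2 g' (by rw [Fintype.card_fin, Fintype.card_coe]; exact hg')

theorem nt2_upper (k : ℕ) (hk : 1 ≤ k) (g : ℝ) (hg : (k : ℝ) + 6 / 5 < g) :
    ∃ C : ℝ, 0 ≤ C ∧ ∀ n : ℕ, ({e ∈ solv 2 k n | 2 ≤ minLen e}.ncard : ℝ) ≤
      C * (n + 1) * g ^ n := by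
  apply nt2_upper_of11 k hk g hg
  · intro D hD g' hg'
    have h1 : 1 ≤ Fintype.card (Fin 2) := by rw [Fintype.card_fin]; omega
    have h2 : 1 ≤ Fintype.card D := by rw [Fintype.card_coe]; exact Finset.card_pos.2 hD
    exact N_bound h1 h2 g' (by rw [Fintype.card_fin, Fintype.card_coe]; exact hg')
  · intro D hD g' hg'
    exact N_two (Fintype.card_fin 2) (by rw [Fintype.card_coe]; exact hD) g' hg'

end

end Pool.Agent.WE
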