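import Pool.Agent.WE.Low11

set_option autoImplicit false

namespace Pool.Agent.WE

open Classical Finset

noncomputable section

theorem short_count (a k : ℕ) (ha : 1 ≤ a) (m : ℕ) :
    {σ : Fin k → List (Fin a) | slen σ ≤ m}.Finite ∧
    {σ : Fin k → List (Fin a) | slen σ ≤ m}.ncard ≤ (m + 1) ^ k * a ^ m := by
  set G : Finset (Fin k → Fin (m + 1)) := univ.filter (fun l => ∑ x, (l x : ℕ) ≤ m) with hG
  set U : Finset (Fin k → List (Fin a)) :=
    G.biUnion (fun l => Fintype.piFinset (fun x => LL11 (Fin a) (l x))) with hU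
  have hsub : {σ : Fin k → List (Fin a) | slen σ ≤ m} ⊆ (U : Set (Fin k → List (Fin a))) := by
    intro σ hσ
    have hσ : ∑ x, (σ x).length ≤ m := hσ
    have hlt : ∀ x, (σ x).length < m + 1 := by
      intro x
      have := Finset.single_le_sum (f := fun x => (σ x).length) (fun _ _ => Nat.zero_le _)
        (Finset.mem_univ x)
      omega
    rw [Finset.mem_coe, hU, Finset.mem_biUnion]
    refine ⟨fun x => ⟨(σ x).length, hlt x⟩, ?_, ?_⟩
    · rw [hG, Finset.mem_filter]
      exact ⟨Finset.mem_univ _, hσ⟩
    · rw [Fintype.mem_piFinset]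
      intro x
      rw [mem_LL11]
  have hcard : U.card ≤ (m + 1) ^ k * a ^ m := by
    have h1 : U.card ≤ G.card * a ^ m := by
      apply Finset.card_biUnion_le_card_mul
      intro l hl
      rw [Fintype.card_piFinset]
      have h2 : ∀ x ∈ (univ : Finset (Fin k)), (LL11 (Fin a) (l x)).card = a ^ (l x : ℕ) := by
        intro x _
        rw [card_LL11, Fintype.card_fin]
      rw [Finset.prod_congr rfl h2, Finset.prod_pow_eq_pow_sum]
      exact Nat.pow_le_pow_right ha (Finset.mem_filter.1 hl).2
    refine h1.trans (Nat.mul_le_mul_right _ ?_)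
    refine (Finset.card_le_univ _).trans (le_of_eq ?_)
    rw [Fintype.card_fun, Fintype.card_fin, Fintype.card_fin]
  refine ⟨(Finset.finite_toSet U).subset hsub, ?_⟩
  have h := Set.ncard_le_ncard hsub (Finset.finite_toSet U)
  rw [Set.ncard_coe_finset] at h
  exact h.trans hcard

end

end Pool.Agent.WE
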