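import Pool.Agent.WE.Low11
import Pool.Agent.WE.FixAll24
import Pool.Agent.WE.Num11
import Pool.Agent.WE.NtB11
import Pool.Agent.WE.Sm11
import Pool.Agent.WE.Bt11

/-! # R13: the typical length of a minimal solution of a word equation -/

set_option autoImplicit false

namespace Pool.Agent.WE

open Classical Finset

noncomputable section

theorem minLen_facts {a k : ℕ} {e : Eqn a k} (h : ∃ σ, Sol σ e) :
    (∃ σ, Sol σ e ∧ slen σ = minLen e) ∧ (∀ σ, Sol σ e → minLen e ≤ slen σ) ∧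
    (minLen e = 0 ↔ Sol (fun _ => []) e) := by
  have h1 : {m | ∃ σ, Sol σ e ∧ slen σ = m}.Nonempty := by
    obtain ⟨σ, hσ⟩ := h
    exact ⟨slen σ, σ, hσ, rfl⟩
  have h2 : ∀ σ, Sol σ e → minLen e ≤ slen σ := fun σ hσ => Nat.sInf_le ⟨σ, hσ, rfl⟩
  refine ⟨Nat.sInf_mem h1, h2, ?_, ?_⟩
  · intro h3
    by_contra h4
    exact minLen_ne11 h h4 h3
  · intro h3
    have h4 := h2 _ h3
    have h5 : slen (fun _ : Fin k => ([] : List (Fin a))) = 0 := by
      unfold slen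
      simp
    omega

/-- the equations solved by the empty substitution -/
theorem eps_upper11 (a k : ℕ) (ha : 1 ≤ a) (n : ℕ) :
    ({e ∈ solv a k n | minLen e = 0}.ncard : ℝ) ≤ (n + 1) * ((k : ℝ) + Real.sqrt a) ^ n := by
  refine le_trans ?_ (fixed_all a k ha (fun _ => []) n)
  have hsub : {e ∈ solv a k n | minLen e = 0} ⊆
      {e : Eqn a k | e.1.length + e.2.length = n ∧ Sol (fun _ => []) e} := by
    rintro e ⟨⟨h1, h2⟩, h3⟩
    exact ⟨h1, (minLen_facts h2).2.2.1 h3⟩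
  have hfin : {e : Eqn a k | e.1.length + e.2.length = n ∧ Sol (fun _ => []) e}.Finite :=
    (solv_finite11 a k n).subset (fun e he => ⟨he.1, _, he.2⟩)
  exact_mod_cast Set.ncard_le_ncard hsub hfin

/-- split of the solvable equations -/
theorem solv_split11 (a k n : ℕ) : ((solv a k n).ncard : ℝ) ≤
    ({e ∈ solv a k n | minLen e ≠ 0}.ncard : ℝ) + ({e ∈ solv a k n | minLen e = 0}.ncard : ℝ) := by
  have h : solv a k n ⊆ {e ∈ solv a k n | minLen e ≠ 0} ∪ {e ∈ solv a k n | minLen e = 0} := by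
    intro e he
    by_cases h0 : minLen e = 0
    · exact Or.inr ⟨he, h0⟩
    · exact Or.inl ⟨he, h0⟩
  have hfin : ({e ∈ solv a k n | minLen e ≠ 0} ∪ {e ∈ solv a k n | minLen e = 0}).Finite :=
    (solv_finite11 a k n).subset (fun e he => he.elim (fun h => h.1) (fun h => h.1))
  have h1 := (Set.ncard_le_ncard h hfin).trans (Set.ncard_union_le _ _)
  exact_mod_cast h1

theorem solv_upper11 (a k : ℕ) (ha : 1 ≤ a) (g G : ℝ) (hg : 0 < g) (hG : g < G)
    (hG2 : (k : ℝ) + Real.sqrt a < G)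
    (h : ∃ C : ℝ, 0 ≤ C ∧ ∀ n : ℕ, ({e ∈ solv a k n | minLen e ≠ 0}.ncard : ℝ) ≤
      C * (n + 1) * g ^ n) :
    ∃ C : ℝ, ∀ n : ℕ, ((solv a k n).ncard : ℝ) ≤ C * G ^ n := by
  obtain ⟨C, hC, h⟩ := h
  have hs : 0 < (k : ℝ) + Real.sqrt a := by
    have : (1 : ℝ) ≤ a := by exact_mod_cast ha
    have : 0 < Real.sqrt a := Real.sqrt_pos.2 (by linarith)
    positivity
  obtain ⟨K1, hK1, h1⟩ := absorb11 1 hg hG
  obtain ⟨K2, hK2, h2⟩ := absorb11 1 hs hG2
  refine ⟨C * K1 + K2, fun n => ?_⟩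
  have h3 := solv_split11 a k n
  have h4 := h n
  have h5 := eps_upper11 a k ha n
  have h6 := h1 n
  have h7 := h2 n
  rw [pow_one] at h6 h7
  have h8 : C * (n + 1) * g ^ n ≤ C * (K1 * G ^ n) := by
    rw [mul_assoc]
    exact mul_le_mul_of_nonneg_left h6 hC
  calc ((solv a k n).ncard : ℝ) ≤ C * (K1 * G ^ n) + K2 * G ^ n := by linarith
    _ = (C * K1 + K2) * G ^ n := by ring

theorem result1 (k : ℕ) (hk : 1 ≤ k) :
    (∃ C θ : ℝ, 0 ≤ θ ∧ θ < 1 ∧ ∀ n : ℕ,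
      ({e ∈ solv 2 k n | minLen e ≠ 0}.ncard : ℝ) ≤ C * θ ^ n * ((solv 2 k n).ncard : ℝ)) ∧
    (∀ g : ℝ, (k : ℝ) - 1 + Real.sqrt 5 < g → ∃ C : ℝ, ∀ n : ℕ,
      ({e ∈ solv 2 k n | minLen e ≠ 0}.ncard : ℝ) ≤ C * g ^ n) ∧
    (∀ m : ℕ, ((k : ℝ) - 1 + Real.sqrt 5) ^ (2 * m) ≤
      ((m : ℝ) + 1) * ({e ∈ solv 2 k (2 * m + 4) | minLen e ≠ 0}.ncard : ℝ)) ∧
    (∀ n : ℕ, ((k : ℝ) + Real.sqrt 2) ^ n ≤
      ((k : ℝ) + Real.sqrt 2) * (n + 1) * ((solv 2 k n).ncard : ℝ)) ∧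
    (∀ g : ℝ, (k : ℝ) + Real.sqrt 2 < g → ∃ C : ℝ, ∀ n : ℕ, ((solv 2 k n).ncard : ℝ) ≤ C * g ^ n) ∧
    (∃ C θ : ℝ, 0 ≤ θ ∧ θ < 1 ∧ ∀ m : ℕ,
      ({e ∈ solv 2 k (2 * m + 4) | 2 ≤ minLen e}.ncard : ℝ) ≤
        C * θ ^ m * ({e ∈ solv 2 k (2 * m + 4) | minLen e ≠ 0}.ncard : ℝ)) := by
  have hk1 : (1 : ℝ) ≤ k := by exact_mod_cast hk
  have h5a : Real.sqrt 5 < 23 / 10 := by
    rw [Real.sqrt_lt' (by norm_num)]
    norm_num
  have h5b : 223 / 100 < Real.sqrt 5 := by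
    rw [Real.lt_sqrt (by norm_num)]
    norm_num
  have h2a : 7 / 5 < Real.sqrt 2 := by
    rw [Real.lt_sqrt (by norm_num)]
    norm_num
  have hNT : ∀ g : ℝ, (k : ℝ) - 1 + Real.sqrt 5 < g → ∃ C : ℝ, 0 ≤ C ∧ ∀ n : ℕ,
      ({e ∈ solv 2 k n | minLen e ≠ 0}.ncard : ℝ) ≤ C * (n + 1) * g ^ n := by
    intro g hg
    exact nt_upper 2 k le_rfl hk g (fun d h1 h2 => (bet_two k d h1 h2).trans_lt hg)
  have hcast : Real.sqrt ((2 : ℕ) : ℝ) = Real.sqrt 2 := by norm_num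
  have hlow : ∀ n : ℕ, ((k : ℝ) + Real.sqrt 2) ^ n ≤
      ((k : ℝ) + Real.sqrt 2) * (n + 1) * ((solv 2 k n).ncard : ℝ) := by
    intro n
    have h := eps_lower 2 k (by norm_num) hk n
    rw [hcast] at h
    exact h
  refine ⟨?_, ?_, nt_lower k hk, hlow, ?_, ?_⟩
  · obtain ⟨C, hC, hN⟩ := hNT ((k : ℝ) + 13 / 10) (by linarith)
    set b := (k : ℝ) + Real.sqrt 2 with hb
    have hb0 : 0 < b := by rw [hb]; linarith
    set ρ := ((k : ℝ) + 13 / 10) / b with hρ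
    have hρ0 : 0 < ρ := div_pos (by linarith) hb0
    have hρ1 : ρ < 1 := (div_lt_one hb0).2 (by rw [hb]; linarith)
    obtain ⟨θ, hθ, hθ1⟩ := exists_between hρ1
    obtain ⟨K, hK, hK2⟩ := absorb11 2 hρ0 hθ
    refine ⟨C * b * K, θ, (hρ0.trans hθ).le, hθ1, fun n => ?_⟩
    have h1 := hN n
    have h2 := hlow n
    have h3 : ((k : ℝ) + 13 / 10) ^ n = ρ ^ n * b ^ n := by
      rw [← mul_pow, hρ, div_mul_cancel₀ _ hb0.ne']
    have h4 : (0 : ℝ) ≤ ((solv 2 k n).ncard : ℝ) := by positivity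
    calc ({e ∈ solv 2 k n | minLen e ≠ 0}.ncard : ℝ) ≤ C * (n + 1) * ((k : ℝ) + 13 / 10) ^ n := h1
      _ = C * (n + 1) * ρ ^ n * b ^ n := by rw [h3]; ring
      _ ≤ C * (n + 1) * ρ ^ n * (b * (n + 1) * ((solv 2 k n).ncard : ℝ)) :=
          mul_le_mul_of_nonneg_left h2 (by positivity)
      _ = C * b * (((n : ℝ) + 1) ^ 2 * ρ ^ n) * ((solv 2 k n).ncard : ℝ) := by ring
      _ ≤ C * b * (K * θ ^ n) * ((solv 2 k n).ncard : ℝ) := by
          apply mul_le_mul_of_nonneg_right _ h4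
          exact mul_le_mul_of_nonneg_left (hK2 n) (by positivity)
      _ = C * b * K * θ ^ n * ((solv 2 k n).ncard : ℝ) := by ring
  · intro g hg
    obtain ⟨g', h1, h2⟩ := exists_between hg
    obtain ⟨C, hC, hN⟩ := hNT g' h1
    have hg' : 0 < g' := by linarith
    obtain ⟨K, hK, hK2⟩ := absorb11 1 hg' h2
    refine ⟨C * K, fun n => ?_⟩
    have h3 := hK2 n
    rw [pow_one] at h3
    calc ({e ∈ solv 2 k n | minLen e ≠ 0}.ncard : ℝ) ≤ C * (n + 1) * g' ^ n := hN n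
      _ = C * (((n : ℝ) + 1) * g' ^ n) := by ring
      _ ≤ C * (K * g ^ n) := mul_le_mul_of_nonneg_left h3 hC
      _ = C * K * g ^ n := by ring
  · intro g hg
    apply solv_upper11 2 k (by norm_num) ((k : ℝ) + 13 / 10) g (by linarith) (by linarith)
      (by rw [hcast]; exact hg) (hNT _ (by linarith))
  · obtain ⟨C, hC, hN⟩ := nt2_upper k hk ((k : ℝ) + 122 / 100) (by linarith)
    set b := (k : ℝ) - 1 + Real.sqrt 5 with hb
    have hb0 : 0 < b := by rw [hb]; linarith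
    set g := (k : ℝ) + 122 / 100 with hg
    have hg0 : 0 < g := by rw [hg]; linarith
    set ρ := (g / b) ^ 2 with hρ
    have hρ0 : 0 < ρ := by rw [hρ]; positivity
    have hρ1 : ρ < 1 := by
      rw [hρ]
      apply pow_lt_one₀ (by positivity) _ (by norm_num)
      rw [div_lt_one hb0, hb, hg]
      linarith
    obtain ⟨θ, hθ, hθ1⟩ := exists_between hρ1
    obtain ⟨K, hK, hK2⟩ := absorb11 2 hρ0 hθ
    refine ⟨C * g ^ 4 * 5 * K, θ, (hρ0.trans hθ).le, hθ1, fun m => ?_⟩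
    have h1 := hN (2 * m + 4)
    have h2 := nt_lower k hk m
    rw [← hb] at h2
    have h3 : g ^ (2 * m + 4) = g ^ 4 * (ρ ^ m * b ^ (2 * m)) := by
      rw [pow_mul b 2 m, ← mul_pow, hρ, ← mul_pow, div_mul_cancel₀ _ hb0.ne', ← pow_mul, pow_add]
      ring
    set N : ℝ := ({e ∈ solv 2 k (2 * m + 4) | minLen e ≠ 0}.ncard : ℝ) with hNdef
    have h4 : (0 : ℝ) ≤ N := by rw [hNdef]; positivity
    have hm : (0 : ℝ) ≤ m := by positivity
    calc ({e ∈ solv 2 k (2 * m + 4) | 2 ≤ minLen e}.ncard : ℝ)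
        ≤ C * (((2 * m + 4 : ℕ) : ℝ) + 1) * g ^ (2 * m + 4) := h1
      _ = C * (2 * m + 5) * (g ^ 4 * ρ ^ m * b ^ (2 * m)) := by rw [h3]; push_cast; ring
      _ ≤ C * (5 * ((m : ℝ) + 1)) * (g ^ 4 * ρ ^ m * (((m : ℝ) + 1) * N)) := by
          apply mul_le_mul
          · exact mul_le_mul_of_nonneg_left (by linarith) hC
          · exact mul_le_mul_of_nonneg_left h2 (by positivity)
          · positivity
          · positivity
      _ = C * g ^ 4 * 5 * (((m : ℝ) + 1) ^ 2 * ρ ^ m) * N := by ring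
      _ ≤ C * g ^ 4 * 5 * (K * θ ^ m) * N := by
          apply mul_le_mul_of_nonneg_right _ h4
          exact mul_le_mul_of_nonneg_left (hK2 m) (by positivity)
      _ = C * g ^ 4 * 5 * K * θ ^ m * N := by ring

theorem result2 (a k : ℕ) (ha : 3 ≤ a) (hk : 1 ≤ k) :
    (∃ δ C θ : ℝ, 0 < δ ∧ 0 ≤ θ ∧ θ < 1 ∧ ∀ n : ℕ,
      ({e ∈ solv a k n | (minLen e : ℝ) < δ * n}.ncard : ℝ) ≤
        C * θ ^ n * ((solv a k n).ncard : ℝ)) ∧
    (∀ n : ℕ, ((k : ℝ) + a - 1) ^ n ≤ ((solv a k (n + 1)).ncard : ℝ)) ∧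
    (∀ g : ℝ, (k : ℝ) + a - 1 < g → ∃ C : ℝ, ∀ n : ℕ, ((solv a k n).ncard : ℝ) ≤ C * g ^ n) := by
  have hk1 : (1 : ℝ) ≤ k := by exact_mod_cast hk
  have ha3 : (3 : ℝ) ≤ a := by exact_mod_cast ha
  have hsq : Real.sqrt a < a - 1 := by
    rw [Real.sqrt_lt' (by linarith)]
    nlinarith
  have hsq0 : 0 < Real.sqrt a := Real.sqrt_pos.2 (by linarith)
  refine ⟨?_, big_lower a k hk, ?_⟩
  · set B := (k : ℝ) + a - 1 with hB
    have hB0 : 0 < B := by rw [hB]; linarith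
    have hB1 : 1 ≤ B := by rw [hB]; linarith
    set s := (k : ℝ) + Real.sqrt a with hs
    have hs0 : 0 < s := by rw [hs]; linarith
    set τ := Real.sqrt (s / B) with hτ
    have hτ0 : 0 < τ := Real.sqrt_pos.2 (div_pos hs0 hB0)
    have hτ1 : τ < 1 := by
      rw [hτ, Real.sqrt_lt' one_pos, one_pow, div_lt_one hB0, hB, hs]
      linarith
    have hτ2 : τ * τ = s / B := Real.mul_self_sqrt (div_pos hs0 hB0).le
    obtain ⟨N0, hN0⟩ := exists_pow_lt_of_lt_one (show (0 : ℝ) < 1 / a by positivity) hτ1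
    set N := N0 + 1 with hN
    have hN1 : (a : ℝ) * τ ^ N ≤ 1 := by
      have h1 : τ ^ N ≤ τ ^ N0 := pow_le_pow_of_le_one hτ0.le hτ1.le (by omega)
      have h2 : τ ^ N ≤ 1 / a := h1.trans hN0.le
      calc (a : ℝ) * τ ^ N ≤ a * (1 / a) := mul_le_mul_of_nonneg_left h2 (by linarith)
        _ = 1 := by field_simp
    obtain ⟨θ, hθ, hθ1⟩ := exists_between hτ1
    obtain ⟨K, hK, hK2⟩ := absorb11 (k + 1) hτ0 hθ
    have hNpos : (0 : ℝ) < (N : ℝ) := by rw [hN]; positivity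
    refine ⟨1 / N, K * B, θ, by positivity, (hτ0.trans hθ).le, hθ1, fun n => ?_⟩
    set m := n / N with hm
    have hmN : m * N ≤ n := Nat.div_mul_le_self n N
    have hmn : m ≤ n := Nat.div_le_self n N
    obtain ⟨hSf, hSc⟩ := short_count a k (by omega) m
    have hsub : {e ∈ solv a k n | (minLen e : ℝ) < 1 / N * n} ⊆
        ⋃ σ ∈ hSf.toFinset, {e : Eqn a k | e.1.length + e.2.length = n ∧ Sol σ e} := by
      rintro e ⟨⟨h1, h2⟩, h3⟩
      obtain ⟨σ, hσ, hσ2⟩ := (minLen_facts h2).1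
      rw [Set.mem_iUnion₂]
      refine ⟨σ, ?_, h1, hσ⟩
      rw [Set.Finite.mem_toFinset]
      show slen σ ≤ m
      rw [hσ2, hm, Nat.le_div_iff_mul_le (by omega)]
      have h4 : (minLen e : ℝ) * N < n := by
        rw [one_div, inv_mul_eq_div, lt_div_iff₀ hNpos] at h3
        exact h3
      have h5 : minLen e * N < n := by exact_mod_cast h4
      exact h5.le
    have hfin : ∀ σ : Fin k → List (Fin a),
        {e : Eqn a k | e.1.length + e.2.length = n ∧ Sol σ e}.Finite := fun σ =>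
      (solv_finite11 a k n).subset (fun e he => ⟨he.1, σ, he.2⟩)
    have h1 := (Set.ncard_le_ncard hsub ((Finset.finite_toSet _).biUnion
      (fun σ _ => hfin σ))).trans (Finset.set_ncard_biUnion_le _ _)
    have h2 : ({e ∈ solv a k n | (minLen e : ℝ) < 1 / N * n}.ncard : ℝ) ≤
        ∑ σ ∈ hSf.toFinset,
          ({e : Eqn a k | e.1.length + e.2.length = n ∧ Sol σ e}.ncard : ℝ) := by
      exact_mod_cast h1
    have h3 : ∑ σ ∈ hSf.toFinset,
        ({e : Eqn a k | e.1.length + e.2.length = n ∧ Sol σ e}.ncard : ℝ) ≤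
        ∑ σ ∈ hSf.toFinset, ((n : ℝ) + 1) * s ^ n :=
      Finset.sum_le_sum (fun σ _ => fixed_all a k (by omega) σ n)
    rw [Finset.sum_const, nsmul_eq_mul, ← Set.ncard_eq_toFinset_card _ hSf] at h3
    have h4 : ({σ : Fin k → List (Fin a) | slen σ ≤ m}.ncard : ℝ) ≤
        ((n : ℝ) + 1) ^ k * (a : ℝ) ^ m := by
      have h5 : ({σ : Fin k → List (Fin a) | slen σ ≤ m}.ncard : ℝ) ≤
        (((m + 1) ^ k * a ^ m : ℕ) : ℝ) := by exact_mod_cast hSc
      push_cast at h5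
      refine h5.trans (mul_le_mul_of_nonneg_right ?_ (by positivity))
      apply pow_le_pow_left₀ (by positivity)
      have : (m : ℝ) ≤ n := by exact_mod_cast hmn
      linarith
    have h6 : (a : ℝ) ^ m * τ ^ n ≤ 1 := by
      have h7 : τ ^ n ≤ τ ^ (m * N) := pow_le_pow_of_le_one hτ0.le hτ1.le hmN
      calc (a : ℝ) ^ m * τ ^ n ≤ a ^ m * τ ^ (m * N) :=
            mul_le_mul_of_nonneg_left h7 (by positivity)
        _ = (a * τ ^ N) ^ m := by rw [mul_pow, ← pow_mul, mul_comm m N]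
        _ ≤ 1 := pow_le_one₀ (by positivity) hN1
    have h8 : s ^ n = τ ^ n * τ ^ n * B ^ n := by
      rw [← mul_pow, ← mul_pow, hτ2, div_mul_cancel₀ _ hB0.ne']
    rcases Nat.eq_zero_or_pos n with h0 | h0
    · have h9 : {e ∈ solv a k n | (minLen e : ℝ) < 1 / N * n} = ∅ := by
        ext e
        simp only [Set.mem_ofPred_eq, Set.mem_empty_iff_false, iff_false, not_and, not_lt]
        intro _
        rw [h0]
        simp
      rw [h9, Set.ncard_empty]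
      have : 0 ≤ θ := (hτ0.trans hθ).le
      simp only [Nat.cast_zero]
      positivity
    · have h9 : B ^ n ≤ B * ((solv a k n).ncard : ℝ) := by
        obtain ⟨n', rfl⟩ : ∃ n', n = n' + 1 := ⟨n - 1, by omega⟩
        have := big_lower a k hk n'
        rw [pow_succ, mul_comm]
        exact mul_le_mul_of_nonneg_left this hB0.le
      set S : ℝ := ((solv a k n).ncard : ℝ) with hS
      have hS0 : 0 ≤ S := by rw [hS]; positivity
      have h10 : ((n : ℝ) + 1) ^ (k + 1) * τ ^ n ≤ K * θ ^ n := hK2 n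
      calc ({e ∈ solv a k n | (minLen e : ℝ) < 1 / N * n}.ncard : ℝ)
          ≤ ({σ : Fin k → List (Fin a) | slen σ ≤ m}.ncard : ℝ) * (((n : ℝ) + 1) * s ^ n) :=
            h2.trans h3
        _ ≤ (((n : ℝ) + 1) ^ k * (a : ℝ) ^ m) * (((n : ℝ) + 1) * s ^ n) :=
            mul_le_mul_of_nonneg_right h4 (by positivity)
        _ = (((n : ℝ) + 1) ^ (k + 1) * τ ^ n) * ((a : ℝ) ^ m * τ ^ n) * B ^ n := by
            rw [h8]; ring
        _ ≤ (K * θ ^ n) * 1 * (B * S) := by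
            have hθ0 : 0 ≤ θ := (hτ0.trans hθ).le
            apply mul_le_mul _ h9 (by positivity) (by positivity)
            exact mul_le_mul h10 h6 (by positivity) (by positivity)
        _ = K * B * θ ^ n * S := by ring
  · intro g hg
    obtain ⟨g', h1, h2⟩ := exists_between hg
    apply solv_upper11 a k (by omega) g' g (by linarith) h2 (by linarith)
    exact nt_upper a k (by omega) hk g' (fun d h3 h4 => (bet_three a k d ha h3 h4).trans_lt h1)

end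

end Pool.Agent.WE
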