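import Pool.Agent.WE.Fib21

/-! # R10 : one side of an equation is determined by its partial skeleton and a bounded code -/

set_option autoImplicit false

namespace Pool.Agent.WE

open Classical Finset

noncomputable section

/-- the block of a leader is an interval -/
theorem blk_interval {B B' V : Type} (l : V → ℕ) (hl : ∀ x, 1 ≤ l x) (w : List (B ⊕ V))
    (w' : List (B' ⊕ V)) (hf : fl l w = fl l w') (j i0 : ℕ) (hj : j < w'.length)
    (h1 : pos l w i0 ≤ pos l w' j) (h2 : pos l w' j < pos l w (i0 + 1)) :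
    (∀ i, i ∈ blk l w w' j ↔ i0 < i ∧ i ≤ i0 + (blk l w w' j).card) ∧
    i0 + (blk l w w' j).card < w.length ∧
    pos l w' (j + 1) ≤ pos l w (i0 + (blk l w w' j).card + 1) := by
  have e1 : pos l w' j < pos l w' (j + 1) := pos_lt hl w' (Nat.lt_succ_self j) hj
  have e2 : pos l w' (j + 1) ≤ fl l w' := pos_le_fl l w' (j + 1)
  obtain ⟨i1, c1, c2, c3⟩ := cover l w (p := pos l w' (j + 1) - 1) (by omega)
  have hi01 : i0 ≤ i1 := by
    by_contra hc
    have h5 : pos l w (i1 + 1) ≤ pos l w i0 := pos_mono l w (by omega)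
    omega
  have hblk : blk l w w' j = Finset.Ioc i0 i1 := by
    ext i
    unfold blk
    rw [Finset.mem_filter, Finset.mem_range, Finset.mem_Ioc]
    constructor
    · rintro ⟨a1, a2, a3⟩
      constructor
      · by_contra hc
        have h5 : pos l w i ≤ pos l w i0 := pos_mono l w (by omega)
        omega
      · by_contra hc
        have h5 : pos l w (i1 + 1) ≤ pos l w i := pos_mono l w (by omega)
        omega
    · rintro ⟨a1, a2⟩
      have h5 : pos l w (i0 + 1) ≤ pos l w i := pos_mono l w (by omega)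
      have h6 : pos l w i ≤ pos l w i1 := pos_mono l w a2
      exact ⟨by omega, by omega, by omega⟩
  have hcard : (blk l w w' j).card = i1 - i0 := by
    rw [hblk, Nat.card_Ioc]
  have h7 : i0 + (blk l w w' j).card = i1 := by omega
  rw [h7]
  refine ⟨?_, c1, by omega⟩
  intro i
  rw [hblk, Finset.mem_Ioc]

theorem card_image_le_of_iff21 {ι : Type} (J : Finset ι) (f g : ι → ℕ)
    (h : ∀ j ∈ J, ∀ j' ∈ J, g j = g j' → f j = f j') : (J.image f).card ≤ (J.image g).card := by
  rcases J.eq_empty_or_nonempty with hJ | hJ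
  · subst hJ
    simp
  haveI : Nonempty ι := ⟨hJ.choose⟩
  have h1 : ∀ r ∈ J.image f, ∃ j, j ∈ J ∧ f j = r := fun r hr => by
    obtain ⟨j, hj, hr⟩ := Finset.mem_image.1 hr
    exact ⟨j, hj, hr⟩
  choose! pick hp1 hp2 using h1
  apply Finset.card_le_card_of_injOn (fun r => g (pick r))
  · intro r hr
    exact Finset.mem_coe.2 (Finset.mem_image_of_mem _ (hp1 r hr))
  · intro r hr r' hr' hrr
    have h2 := h _ (hp1 r hr) _ (hp1 r' hr') hrr
    rw [hp2 r hr, hp2 r' hr'] at h2
    exact h2

/-! ### The one-sided lemma -/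

/-- one-sided class -/
def Sd {A V : Type} [Fintype V] (t n : ℕ) (l : V → ℕ) (M : Finset ℕ) (P : List (Option A ⊕ V))
    (S' : List (Unit ⊕ V)) (e : List (A ⊕ V) × List (A ⊕ V)) : Prop :=
  e.1.length + e.2.length = n ∧ mrk t l e.1 e.2 = M ∧ psk M l e.1 e.2 = P ∧ sk e.2 = S' ∧
    ∃ σ : V → List A, (∀ x, σ x ≠ []) ∧ ap σ e.1 = ap σ e.2 ∧ Eqv n (fun x => (σ x).length) l

theorem psk_get {A B' V : Type} (M : Finset ℕ) (l : V → ℕ) (w : List (A ⊕ V))
    (w' : List (B' ⊕ V)) (i : ℕ) : (psk M l w w')[i]? =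
      (w[i]?).map (fun s => Sum.map (fun c => if kept M l w w' i then some c else none) id s) := by
  unfold psk
  rw [List.getElem?_mapIdx]

theorem psk_length {A B' V : Type} (M : Finset ℕ) (l : V → ℕ) (w : List (A ⊕ V))
    (w' : List (B' ⊕ V)) : (psk M l w w').length = w.length := by
  unfold psk
  rw [List.length_mapIdx]

theorem sk_length {B V : Type} (w : List (B ⊕ V)) : (sk w).length = w.length := by
  unfold sk
  rw [List.length_map]

theorem sk_get {B V : Type} (w : List (B ⊕ V)) (i : ℕ) :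
    (sk w)[i]? = (w[i]?).map (Sum.map (fun _ => ()) id) := by
  unfold sk
  rw [List.getElem?_map]

theorem sk_psk {A B' V : Type} (M : Finset ℕ) (l : V → ℕ) (w : List (A ⊕ V))
    (w' : List (B' ⊕ V)) : sk (psk M l w w') = sk w := by
  apply List.ext_getElem?
  intro i
  rw [sk_get, sk_get, psk_get]
  cases w[i]? with
  | none => rfl
  | some s => cases s <;> rfl

theorem pos_psk {A B' V : Type} (M : Finset ℕ) (l : V → ℕ) (w : List (A ⊕ V))
    (w' : List (B' ⊕ V)) (i : ℕ) : pos l (psk M l w w') i = pos l w i := by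
  rw [← pos_sk l (psk M l w w'), sk_psk, pos_sk]

theorem fl_psk {A B' V : Type} (M : Finset ℕ) (l : V → ℕ) (w : List (A ⊕ V))
    (w' : List (B' ⊕ V)) : fl l (psk M l w w') = fl l w := by
  rw [← fl_sk l (psk M l w w'), sk_psk, fl_sk]

theorem blk_congr {B B' B1 B1' V : Type} (l : V → ℕ) (w : List (B ⊕ V)) (w' : List (B' ⊕ V))
    (u : List (B1 ⊕ V)) (u' : List (B1' ⊕ V)) (h : sk w = sk u) (h' : sk w' = sk u') (j : ℕ) :
    blk l w w' j = blk l u u' j := by
  have e1 : w.length = u.length := by rw [← sk_length w, h, sk_length]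
  have e2 : ∀ i, pos l w i = pos l u i := fun i => by rw [← pos_sk l w, h, pos_sk]
  have e3 : ∀ i, pos l w' i = pos l u' i := fun i => by rw [← pos_sk l w', h', pos_sk]
  unfold blk
  rw [e1]
  simp only [e2, e3]

end

end Pool.Agent.WE
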