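import Pool.Agent.WE.Side21

/-! # R10 : the one-sided lemma and the fibre bound -/

set_option autoImplicit false

namespace Pool.Agent.WE

open Classical Finset

noncomputable section

/-- types of blocks -/
abbrev Typ (V : Type) (t : ℕ) : Type := {T : List (Unit ⊕ V) // T.length ≤ t + 1} × V × Fin (t + 1)

instance {V : Type} [Fintype V] (t : ℕ) : Finite {T : List (Unit ⊕ V) // T.length ≤ t + 1} :=
  (List.finite_length_le (Unit ⊕ V) (t + 1)).to_subtype

/-- codes of one side -/
abbrev Kd (A V : Type) (t : ℕ) : Type :=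
  (V → Option A) × (V → Option A) × (Typ V t → (Fin (4 * (t + 1) + 3 + 1) → Option (A ⊕ V)))

instance {A V : Type} [Fintype A] [Fintype V] (t : ℕ) : Finite (Kd A V t) := inferInstance

/-- facts about a member of the one-sided class -/
theorem sd_facts {A V : Type} [Fintype V] {t n : ℕ} {l : V → ℕ} {M : Finset ℕ}
    {P : List (Option A ⊕ V)} {S' : List (Unit ⊕ V)} {e : List (A ⊕ V) × List (A ⊕ V)}
    (h : Sd t n l M P S' e) : sk e.1 = sk P ∧ e.1.length = P.length ∧ e.2.length = S'.length ∧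
      (∀ i, pos l e.1 i = pos l P i) ∧ (∀ i, pos l e.2 i = pos l S' i) ∧ fl l P = fl l S' ∧
      e.1.length ≤ n ∧ e.2.length ≤ n := by
  obtain ⟨h1, h2, h3, h4, σ, hσ, hsol, heq⟩ := h
  have g1 : sk e.1 = sk P := by rw [← h3, sk_psk]
  have g2 : e.1.length = P.length := by rw [← h3, psk_length]
  have g3 : e.2.length = S'.length := by rw [← h4, sk_length]
  have g4 : ∀ i, pos l e.1 i = pos l P i := fun i => by rw [← h3, pos_psk]
  have g5 : ∀ i, pos l e.2 i = pos l S' i := fun i => by rw [← h4, pos_sk]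
  have g6 : fl l e.1 = fl l e.2 := by
    rw [← eqv_fl heq e.1 e.2 (by omega) (by omega), ← ap_length, ← ap_length, hsol]
  refine ⟨g1, g2, g3, g4, g5, ?_, by omega, by omega⟩
  rw [← h3, fl_psk, g6, ← h4, fl_sk]

theorem side_key {A V : Type} [Fintype V] (t n : ℕ) (l : V → ℕ) (hl : ∀ x, 1 ≤ l x)
    (M : Finset ℕ) (P : List (Option A ⊕ V)) (S' : List (Unit ⊕ V))
    (f : ℕ → ℕ) (hf : ∀ j, j < S'.length → f j < P.length ∧ pos l P (f j) ≤ pos l S' j ∧
      pos l S' j < pos l P (f j + 1)) (e : List (A ⊕ V) × List (A ⊕ V)) (he : Sd t n l M P S' e)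
    (T : List (Unit ⊕ V)) (hTl : T.length ≤ t + 1) (x : V) (m : ℕ) (J : Finset ℕ)
    (hJ : ∀ j ∈ J, j < S'.length ∧ S'[j]? = some (Sum.inr x) ∧
      ((sk P).drop (f j)).take ((blk l P S' j).card + 1) = T ∧ 1 ≤ m ∧ m < T.length ∧
      T[m]? = some (Sum.inl ())) :
    (∀ j ∈ J, ∀ j' ∈ J, pos l S' j - pos l P (f j) = pos l S' j' - pos l P (f j') →
      e.1[f j + m]? = e.1[f j' + m]?) ∧
    (4 * (t + 1) + 3 < (J.image (fun j => pos l S' j - pos l P (f j))).card →
      ∀ j ∈ J, ∀ j' ∈ J, e.1[f j + m]? = e.1[f j' + m]?) := by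
  obtain ⟨g1, g2, g3, g4, g5, g6, g7, g8⟩ := sd_facts he
  obtain ⟨h1, h2, h3, h4, σ, hσ, hsol, heq⟩ := he
  obtain ⟨w, w'⟩ := e
  simp only at g1 g2 g3 g4 g5 g7 g8 h1 h2 h3 h4 hsol
  rcases J.eq_empty_or_nonempty with hJe | ⟨j0, hj0⟩
  · subst hJe
    constructor
    · intro j hj
      exact absurd hj (Finset.notMem_empty j)
    · intro _ j hj
      exact absurd hj (Finset.notMem_empty j)
  have hm : m < T.length := (hJ j0 hj0).2.2.2.2.1
  have hst : T[m]? = some (Sum.inl ()) := (hJ j0 hj0).2.2.2.2.2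
  -- the block of `j`
  have hint := fun j (hj : j ∈ J) => blk_interval l hl P S' g6 j (f j) (hJ j hj).1
    (hf j (hJ j hj).1).2.1 (hf j (hJ j hj).1).2.2
  have hTlen : ∀ j ∈ J, T.length = (blk l P S' j).card + 1 := by
    intro j hj
    rw [← (hJ j hj).2.2.1, List.length_take, List.length_drop, sk_length]
    have := (hint j hj).2.1
    omega
  have hδ : ∀ j ∈ J, pos (fun x => (σ x).length) w (f j) ≤ pos (fun x => (σ x).length) w' j := by
    intro j hj
    have a1 := (hf j (hJ j hj).1).2.1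
    have a2 := eqv_gt heq w w' g7 g8 (f j) j
    rw [g4, g5] at a2
    omega
  have hδ' : ∀ j ∈ J, pos l w (f j) ≤ pos l w' j := by
    intro j hj
    rw [g4, g5]
    exact (hf j (hJ j hj).1).2.1
  have hdd : ∀ j ∈ J, ∀ j' ∈ J, (pos l S' j - pos l P (f j) = pos l S' j' - pos l P (f j') ↔
      pos (fun x => (σ x).length) w' j - pos (fun x => (σ x).length) w (f j) =
      pos (fun x => (σ x).length) w' j' - pos (fun x => (σ x).length) w (f j')) := by
    intro j hj j' hj'
    have a1 := hδ j hj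
    have a2 := hδ j' hj'
    have a3 := hδ' j hj
    have a4 := hδ' j' hj'
    have a5 := eqv_diff heq w w' g7 g8 (f j') (f j) j' j
    rw [← g4, ← g4, ← g5, ← g5]
    omega
  have key := const_type σ w w' hsol x T m J f (by
    intro j hj
    have a1 := (hJ j hj).2.1
    rw [← h4, sk_get] at a1
    cases hw : w'[j]? with
    | none =>
      rw [hw] at a1
      exact absurd a1 (by simp)
    | some s =>
      cases s with
      | inl c =>
        rw [hw] at a1
        exact absurd a1 (by simp)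
      | inr y =>
        rw [hw] at a1
        simpa using a1) (by
    intro j hj
    rw [g1, hTlen j hj]
    exact (hJ j hj).2.2.1) hδ (by
    intro j hj
    rw [hTlen j hj, ← Nat.add_assoc]
    have a1 := (hint j hj).2.2
    have a2 := eqv_lt heq w w' g7 g8 (f j + (blk l P S' j).card + 1) (j + 1)
    rw [g4, g5] at a2
    omega) (by
    intro j hj
    have a1 := (hJ j hj).2.2.2.1
    have a2 := (hf j (hJ j hj).1).2.2
    have a3 : pos l P (f j + 1) ≤ pos l P (f j + m) := pos_mono l P (by omega)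
    have a4 := eqv_lt heq w w' g7 g8 (f j + m) j
    rw [g4, g5] at a4
    omega) (by
    intro j hj
    have a1 := (hJ j hj).2.2.2.1
    have a2 := hTlen j hj
    have a3 : f j + m ∈ blk l P S' j := by
      rw [(hint j hj).1]
      omega
    unfold blk at a3
    rw [Finset.mem_filter] at a3
    have a4 := eqv_lt heq w w' g7 g8 (f j + m) (j + 1)
    rw [g4, g5] at a4
    exact a4.2 a3.2.2) hm hst
  constructor
  · intro j hj j' hj' hjj
    exact key.1 j hj j' hj' ((hdd j hj j' hj').1 hjj)
  · intro hcard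
    apply key.2
    have a1 := card_image_le_of_iff21 J (fun j => pos l S' j - pos l P (f j))
      (fun j => pos (fun x => (σ x).length) w' j - pos (fun x => (σ x).length) w (f j))
      (fun j hj j' hj' hjj => (hdd j hj j' hj').2 hjj)
    omega

end

end Pool.Agent.WE
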