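import Pool.Agent.WE.SideB21

/-! # R10 : the one-sided lemma and the fibre bound -/

set_option autoImplicit false

namespace Pool.Agent.WE

open Classical Finset

noncomputable section

theorem side {A V : Type} [Fintype A] [Fintype V] (t n : ℕ) (l : V → ℕ) (hl : ∀ x, 1 ≤ l x)
    (M : Finset ℕ) (P : List (Option A ⊕ V)) (S' : List (Unit ⊕ V)) :
    ∃ code : {e : List (A ⊕ V) × List (A ⊕ V) // Sd t n l M P S' e} → Kd A V t,
      ∀ e e', code e = code e' → e.1.1 = e'.1.1 := by
  by_cases hne : Nonempty {e : List (A ⊕ V) × List (A ⊕ V) // Sd t n l M P S' e}
  swap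
  · exact ⟨fun e => absurd ⟨e⟩ hne, fun e => absurd ⟨e⟩ hne⟩
  obtain ⟨⟨e0, he0⟩⟩ := hne
  have hfl : fl l P = fl l S' := (sd_facts he0).2.2.2.2.2.1
  have hf0 : ∀ j, ∃ i, j < S'.length → i < P.length ∧ pos l P i ≤ pos l S' j ∧
      pos l S' j < pos l P (i + 1) := by
    intro j
    by_cases hj : j < S'.length
    · have e1 : pos l S' j < pos l S' (j + 1) := pos_lt hl S' (Nat.lt_succ_self j) hj
      have e2 : pos l S' (j + 1) ≤ fl l S' := pos_le_fl l S' (j + 1)
      obtain ⟨i, hi⟩ := cover l P (p := pos l S' j) (by omega)
      exact ⟨i, fun _ => hi⟩
    · exact ⟨0, fun h => absurd h hj⟩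
  choose f hf using hf0
  -- the occurrences of a type
  let J : Typ V t → Finset ℕ := fun τ => (range S'.length).filter (fun j =>
    S'[j]? = some (Sum.inr τ.2.1) ∧ ((sk P).drop (f j)).take ((blk l P S' j).card + 1) = τ.1.1 ∧
    1 ≤ (τ.2.2 : ℕ) ∧ (τ.2.2 : ℕ) < τ.1.1.length ∧ (τ.1.1)[(τ.2.2 : ℕ)]? = some (Sum.inl ()))
  have hJ : ∀ τ : Typ V t, ∀ j ∈ J τ, j < S'.length ∧ S'[j]? = some (Sum.inr τ.2.1) ∧
      ((sk P).drop (f j)).take ((blk l P S' j).card + 1) = τ.1.1 ∧ 1 ≤ (τ.2.2 : ℕ) ∧
      (τ.2.2 : ℕ) < τ.1.1.length ∧ (τ.1.1)[(τ.2.2 : ℕ)]? = some (Sum.inl ()) := by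
    intro τ j hj
    obtain ⟨h1, h2⟩ := Finset.mem_filter.1 hj
    exact ⟨Finset.mem_range.1 h1, h2⟩
  have hcode : ∀ τ : Typ V t, ∃ code : {e : List (A ⊕ V) × List (A ⊕ V) // Sd t n l M P S' e} →
      (Fin (4 * (t + 1) + 3 + 1) → Option (A ⊕ V)),
      ∀ e e', code e = code e' → ∀ j ∈ J τ, e.1.1[f j + (τ.2.2 : ℕ)]? = e'.1.1[f j + (τ.2.2 : ℕ)]? := by
    intro τ
    apply code_lemma (J τ) (fun j => pos l S' j - pos l P (f j)) (4 * (t + 1) + 3)
      (fun (e : {e : List (A ⊕ V) × List (A ⊕ V) // Sd t n l M P S' e}) j =>
        e.1.1[f j + (τ.2.2 : ℕ)]?)
    · intro e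
      exact (side_key t n l hl M P S' f hf e.1 e.2 τ.1.1 τ.1.2 τ.2.1 τ.2.2 (J τ) (hJ τ)).1
    · intro e
      exact (side_key t n l hl M P S' f hf e.1 e.2 τ.1.1 τ.1.2 τ.2.1 τ.2.2 (J τ) (hJ τ)).2
  choose codeT hcodeT using hcode
  -- the substitution of an equation
  have hsub : ∀ e : {e : List (A ⊕ V) × List (A ⊕ V) // Sd t n l M P S' e},
      ∃ σ : V → List A, (∀ x, σ x ≠ []) ∧ ap σ e.1.1 = ap σ e.1.2 ∧
        Eqv n (fun x => (σ x).length) l := fun e => e.2.2.2.2.2
  choose sg hsg1 hsg2 hsg3 using hsub
  refine ⟨fun e => (fun x => (sg e x)[0]?, fun x => (sg e x)[(sg e x).length - 1]?,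
    fun τ => codeT τ e), ?_⟩
  intro e e' hee
  have hc1 : ∀ x, (sg e x)[0]? = (sg e' x)[0]? := fun x => congrFun (congrArg Prod.fst hee) x
  have hc2 : ∀ x, (sg e x)[(sg e x).length - 1]? = (sg e' x)[(sg e' x).length - 1]? := fun x =>
    congrFun (congrArg (fun q => q.2.1) hee) x
  have hc3 : ∀ τ, codeT τ e = codeT τ e' := fun τ =>
    congrFun (congrArg (fun q => q.2.2) hee) τ
  apply List.ext_getElem?
  intro i
  -- a letter that is not kept
  have hstar : ∀ e : {e : List (A ⊕ V) × List (A ⊕ V) // Sd t n l M P S' e},
      P[i]? = some (Sum.inl none) → ∃ c, e.1.1[i]? = some (Sum.inl c) ∧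
        ¬ kept M l e.1.1 e.1.2 i := by
    intro e hP
    have h1 := psk_get M l e.1.1 e.1.2 i
    rw [e.2.2.2.1, hP] at h1
    cases hw : e.1.1[i]? with
    | none =>
      rw [hw] at h1
      exact absurd h1 (by simp)
    | some s =>
      rw [hw] at h1
      cases s with
      | inr x => exact absurd h1 (by simp)
      | inl c =>
        refine ⟨c, rfl, ?_⟩
        intro hk
        simp [hk] at h1
  cases hP : P[i]? with
  | none =>
    have hlen : P.length ≤ i := List.getElem?_eq_none_iff.1 hP
    have a1 := (sd_facts e.2).2.1
    have a2 := (sd_facts e'.2).2.1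
    rw [List.getElem?_eq_none (by omega), List.getElem?_eq_none (by omega)]
  | some s =>
    have hpk : ∀ e : {e : List (A ⊕ V) × List (A ⊕ V) // Sd t n l M P S' e},
        some s = (e.1.1[i]?).map
          (fun s => Sum.map (fun c => if kept M l e.1.1 e.1.2 i then some c else none) id s) := by
      intro e
      have h1 := psk_get M l e.1.1 e.1.2 i
      rw [e.2.2.2.1, hP] at h1
      exact h1
    cases s with
    | inr x =>
      have gen : ∀ e : {e : List (A ⊕ V) × List (A ⊕ V) // Sd t n l M P S' e},
          e.1.1[i]? = some (Sum.inr x) := by
        intro e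
        have h1 := hpk e
        cases hw : e.1.1[i]? with
        | none =>
          rw [hw] at h1
          exact absurd h1 (by simp)
        | some s =>
          rw [hw] at h1
          cases s with
          | inl c => exact absurd h1 (by simp)
          | inr y =>
            have h2 : x = y := by simpa using h1
            rw [h2]
      rw [gen e, gen e']
    | inl oc =>
      cases oc with
      | some c =>
        have gen : ∀ e : {e : List (A ⊕ V) × List (A ⊕ V) // Sd t n l M P S' e},
            e.1.1[i]? = some (Sum.inl c) := by
          intro e
          have h1 := hpk e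
          cases hw : e.1.1[i]? with
          | none =>
            rw [hw] at h1
            exact absurd h1 (by simp)
          | some s =>
            rw [hw] at h1
            cases s with
            | inr y => exact absurd h1 (by simp)
            | inl c' =>
              by_cases hk : kept M l e.1.1 e.1.2 i
              · simp only [hk, if_true, Option.map_some, Sum.map_inl, Option.some.injEq,
                  Sum.inl.injEq] at h1
                rw [h1]
              · simp [hk] at h1
        rw [gen e, gen e']
      | none =>
        have hiP : i < P.length := (List.getElem?_eq_some_iff.1 hP).1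
        have e1 : pos l P i < pos l P (i + 1) := pos_lt hl P (Nat.lt_succ_self i) hiP
        have e2 : pos l P (i + 1) ≤ fl l P := pos_le_fl l P (i + 1)
        have e3 : pos l P (i + 1) = pos l P i + 1 := by
          rw [pos_succ l P i hiP, (List.getElem?_eq_some_iff.1 hP).2]
          rfl
        obtain ⟨j, hj1, hj2, hj3⟩ := cover l S' (p := pos l P i) (by omega)
        rcases Nat.lt_or_ge (pos l S' j) (pos l P i) with hlt | hge
        · -- a follower: the leader is a variable
          have hxj : ∃ x, S'[j]? = some (Sum.inr x) := by
            have a1 : S'[j]? = some S'[j] := List.getElem?_eq_getElem hj1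
            cases hs : S'[j] with
            | inr x => exact ⟨x, by rw [a1, hs]⟩
            | inl c =>
              have a2 := pos_succ l S' j hj1
              rw [hs] at a2
              have a3 : wl l (Sum.inl c : Unit ⊕ V) = 1 := rfl
              omega
          obtain ⟨x, hx⟩ := hxj
          have hvar : ∀ e : {e : List (A ⊕ V) × List (A ⊕ V) // Sd t n l M P S' e},
              e.1.2[j]? = some (Sum.inr x) := by
            intro e
            have a1 := hx
            rw [← e.2.2.2.2.1, sk_get] at a1
            cases hw : e.1.2[j]? with
            | none =>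
              rw [hw] at a1
              exact absurd a1 (by simp)
            | some s =>
              cases s with
              | inl c =>
                rw [hw] at a1
                exact absurd a1 (by simp)
              | inr y =>
                rw [hw] at a1
                simpa using a1
          rcases Nat.lt_or_ge (pos l P (i + 1)) (pos l S' (j + 1)) with hin | hlast
          · -- interior: the block is short
            obtain ⟨b1, b2, b3⟩ := blk_interval l hl P S' hfl j (f j) hj1 (hf j hj1).2.1
              (hf j hj1).2.2
            have hib : i ∈ blk l P S' j := by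
              unfold blk
              rw [Finset.mem_filter, Finset.mem_range]
              exact ⟨hiP, hlt, hj3⟩
            have hb : (blk l P S' j).card ≤ t := by
              by_contra hc
              obtain ⟨c, hc1, hc2⟩ := hstar e hP
              apply hc2
              left
              obtain ⟨a1, a2, a3, a4, a5, a6, a7, a8⟩ := sd_facts e.2
              rw [← e.2.2.1]
              unfold mrk
              rw [Finset.mem_filter, Finset.mem_range]
              refine ⟨by omega, j, by omega, ?_, ?_, ?_⟩
              · rw [blk_congr l e.1.1 e.1.2 P S' a1 (by rw [e.2.2.2.2.1]; rw [← e.2.2.2.2.1]; simp [sk])]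
                exact hib
              · rw [a4, a5]
                exact hin
              · rw [blk_congr l e.1.1 e.1.2 P S' a1 (by rw [e.2.2.2.2.1]; rw [← e.2.2.2.2.1]; simp [sk])]
                omega
            have hi2 := (b1 i).1 hib
            have hTl : (((sk P).drop (f j)).take ((blk l P S' j).card + 1)).length =
                (blk l P S' j).card + 1 := by
              rw [List.length_take, List.length_drop, sk_length]
              omega
            have hmem : j ∈ J (⟨((sk P).drop (f j)).take ((blk l P S' j).card + 1), by omega⟩, x,
                ⟨i - f j, by omega⟩) := by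
              refine Finset.mem_filter.2 ⟨Finset.mem_range.2 hj1, hx, rfl, ?_, ?_, ?_⟩
              · show 1 ≤ i - f j
                omega
              · show i - f j < (((sk P).drop (f j)).take ((blk l P S' j).card + 1)).length
                omega
              · show (((sk P).drop (f j)).take ((blk l P S' j).card + 1))[i - f j]? = _
                rw [List.getElem?_take_of_lt (by omega), List.getElem?_drop, sk_get,
                  show f j + (i - f j) = i by omega, hP]
                rfl
            have h4 := hcodeT _ e e' (hc3 _) j hmem
            have h5 : f j + (i - f j) = i := by omega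
            simp only [h5] at h4
            exact h4
          · -- last follower
            have gen : ∀ e : {e : List (A ⊕ V) × List (A ⊕ V) // Sd t n l M P S' e},
                e.1.1[i]? = ((sg e x)[(sg e x).length - 1]?).map Sum.inl := by
              intro e
              obtain ⟨c, hc1, hc2⟩ := hstar e hP
              obtain ⟨a1, a2, a3, a4, a5, a6, a7, a8⟩ := sd_facts e.2
              have d1 := letter_get (sg e) e.1.1 i c hc1
              have d2 := eqv_eq (hsg3 e) e.1.1 e.1.2 a7 a8 (i + 1) (j + 1)
              rw [a4, a5] at d2
              have d3 := d2.2 (by omega)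
              have d4 := pos_succ_var (fun x => (sg e x).length) e.1.2 j x (hvar e)
              have d5 : pos (fun x => (sg e x).length) e.1.1 (i + 1) =
                  pos (fun x => (sg e x).length) e.1.1 i + 1 := by
                have hi' : i < e.1.1.length := (List.getElem?_eq_some_iff.1 hc1).1
                rw [pos_succ _ _ i hi', (List.getElem?_eq_some_iff.1 hc1).2]
                rfl
              have d6 : 1 ≤ (sg e x).length := List.length_pos_iff.2 (hsg1 e x)
              have d7 := var_get (sg e) e.1.2 j x (hvar e) ((sg e x).length - 1) (by omega)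
              rw [← hsg2 e] at d7
              have d8 : pos (fun x => (sg e x).length) e.1.2 j + ((sg e x).length - 1) =
                  pos (fun x => (sg e x).length) e.1.1 i := by
                have : (fun x => (sg e x).length) x = (sg e x).length := rfl
                omega
              rw [d8, d1] at d7
              rw [d7, hc1]
              rfl
            rw [gen e, gen e', hc2]
        · -- a tie
          have heq : pos l S' j = pos l P i := by omega
          have gen : ∀ e : {e : List (A ⊕ V) × List (A ⊕ V) // Sd t n l M P S' e},
              ∃ x, S'[j]? = some (Sum.inr x) ∧ e.1.1[i]? = ((sg e x)[0]?).map Sum.inl := by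
            intro e
            obtain ⟨c, hc1, hc2⟩ := hstar e hP
            obtain ⟨a1, a2, a3, a4, a5, a6, a7, a8⟩ := sd_facts e.2
            have hj' : j < e.1.2.length := by omega
            have b1 : e.1.2[j]? = some e.1.2[j] := List.getElem?_eq_getElem hj'
            cases hs : e.1.2[j] with
            | inl c' =>
              exfalso
              apply hc2
              right
              refine ⟨j, c', ?_, ?_⟩
              · rw [a4, a5]
                exact heq
              · rw [b1, hs]
            | inr x =>
              rw [hs] at b1
              refine ⟨x, ?_, ?_⟩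
              · rw [← e.2.2.2.2.1, sk_get, b1]
                rfl
              · have d1 := letter_get (sg e) e.1.1 i c hc1
                have d2 := eqv_eq (hsg3 e) e.1.1 e.1.2 a7 a8 i j
                rw [a4, a5] at d2
                have d3 := d2.2 heq.symm
                have d6 : 1 ≤ (sg e x).length := List.length_pos_iff.2 (hsg1 e x)
                have d7 := var_get (sg e) e.1.2 j x b1 0 (by omega)
                rw [← hsg2 e, add_zero, ← d3, d1] at d7
                rw [d7, hc1]
                rfl
          obtain ⟨x, hx1, hx2⟩ := gen e
          obtain ⟨x', hx1', hx2'⟩ := gen e'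
          have hxx : x = x' := by
            rw [hx1] at hx1'
            simpa using hx1'
          subst hxx
          rw [hx2, hx2', hc1]

end

end Pool.Agent.WE
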