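import Pool.Agent.WE.Tree11
import Pool.Agent.WE.Side21
import Pool.Agent.WE.Let21

/-! # R7 : number of partial skeletons -/

set_option autoImplicit false

namespace Pool.Agent.WE

open Classical Finset

noncomputable section

section
variable {A V : Type}

/-- at a tie a letter is kept iff the other symbol is a letter -/
theorem kept_tie (t : ℕ) (l : V → ℕ) (hl : ∀ x, 1 ≤ l x) (w w' : List (A ⊕ V)) (i j : ℕ)
    (hj : j < w'.length) (h : pos l w i = pos l w' j) :
    kept (mrk t l w w') l w w' i ↔ ∃ c, w'[j]? = some (Sum.inl c) := by
  constructor
  · rintro (hk | ⟨j', c, hk1, hk2⟩)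
    · exfalso
      unfold mrk at hk
      rw [Finset.mem_filter] at hk
      obtain ⟨_, j', hj', hb, _, _⟩ := hk
      unfold blk at hb
      rw [Finset.mem_filter] at hb
      obtain ⟨_, hb1, hb2⟩ := hb
      have h1 : pos l w' j < pos l w' (j + 1) := pos_lt hl w' (Nat.lt_succ_self j) hj
      have h2 := cover_unique l w' (p := pos l w' j) (i := j') (j := j) (le_refl _) h1
        (by omega) (by omega)
      subst h2
      omega
    · have hj' : j' < w'.length := (List.getElem?_eq_some_iff.1 hk2).1
      have h0 : j' = j := by
        by_contra hne
        rcases Nat.lt_or_gt_of_ne hne with h1 | h1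
        · have := pos_lt hl w' h1 (by omega)
          omega
        · have := pos_lt hl w' h1 (by omega)
          omega
      subst h0
      exact ⟨c, hk2⟩
  · rintro ⟨c, hc⟩
    exact Or.inr ⟨j, c, h.symm, hc⟩

/-- a letter that starts inside a symbol of the other side is kept iff it is marked -/
theorem kept_follow (l : V → ℕ) (w w' : List (A ⊕ V)) (M : Finset ℕ) (i j : ℕ)
    (h1 : pos l w' j < pos l w i) (h2 : pos l w i < pos l w' (j + 1)) :
    kept M l w w' i ↔ i ∈ M := by
  constructor
  · rintro (hk | ⟨j', c, hk1, _⟩)
    · exact hk
    · exfalso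
      rcases Nat.lt_or_ge j' (j + 1) with h | h
      · have := pos_mono l w' (show j' ≤ j by omega)
        omega
      · have := pos_mono l w' h
        omega
  · intro h
    exact Or.inl h

variable [Fintype A] [Fintype V]

/-- possible symbols at a one-sided step -/
def T1s (M : Finset ℕ) (u v : List (Option A ⊕ V)) : Finset (Option A ⊕ V) :=
  if u.length ∈ M then
    (match v.getLast? with
      | some (Sum.inr x) => (univ : Finset A).image (fun c => (Sum.inl (some c) : Option A ⊕ V)) ∪
          ((univ : Finset V).erase x).image Sum.inr
      | _ => ∅)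
  else insert (Sum.inl none) ((univ : Finset V).image Sum.inr)

theorem T1s_card (M : Finset ℕ) (u v : List (Option A ⊕ V)) :
    (T1s M u v).card ≤ max (Fintype.card A + (Fintype.card V - 1)) (Fintype.card V + 1) := by
  unfold T1s
  split_ifs
  · split
    · refine le_trans (Finset.card_union_le _ _) (le_trans (add_le_add Finset.card_image_le
        Finset.card_image_le) ?_)
      rw [Finset.card_erase_of_mem (Finset.mem_univ _), Finset.card_univ, Finset.card_univ]
      exact le_max_left _ _
    · rw [Finset.card_empty]
      exact Nat.zero_le _
  · refine le_trans (Finset.card_insert_le _ _) ?_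
    refine le_trans (Nat.add_le_add_right Finset.card_image_le 1) ?_
    rw [Finset.card_univ]
    exact le_max_right _ _

/-- the one-sided step -/
theorem step_one (t : ℕ) (l : V → ℕ) (w w' : List (A ⊕ V))
    (hf : fl l w = fl l w') (M M' : Finset ℕ) (hM : mrk t l w w' = M)
    (u v' P Q : List (Option A ⊕ V)) (r : Option A ⊕ V) (hu : u ++ P = psk M l w w')
    (hv : (v' ++ [r]) ++ Q = psk M' l w' w) (h1 : fl l v' < fl l u)
    (h2 : fl l u < fl l (v' ++ [r])) :
    ∃ s P', P = s :: P' ∧ s ∈ T1s M u (v' ++ [r]) := by
  have pu : pos l w u.length = fl l u := by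
    rw [← pos_psk M l w w', ← hu]
    unfold pos
    rw [List.take_left]
  have pv' : pos l w' v'.length = fl l v' := by
    rw [← pos_psk M' l w' w, ← hv]
    unfold pos
    rw [List.append_assoc, List.take_left]
  have pv : pos l w' (v'.length + 1) = fl l (v' ++ [r]) := by
    have h3 : v'.length + 1 = (v' ++ [r]).length := by
      rw [List.length_append]
      rfl
    rw [← pos_psk M' l w' w, ← hv, h3]
    unfold pos
    rw [List.take_left]
  have hle : fl l (v' ++ [r]) ≤ fl l w' := by
    rw [← pv]
    exact pos_le_fl l w' _
  have hlen : u.length < w.length := by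
    by_contra hc
    have h3 := pos_len l w (i := u.length) (by omega)
    omega
  have hPl : P ≠ [] := by
    intro hP
    have h3 := congrArg List.length hu
    rw [hP, List.append_nil, psk_length] at h3
    omega
  obtain ⟨s, P', hsP⟩ := List.exists_cons_of_ne_nil hPl
  refine ⟨s, P', hsP, ?_⟩
  -- the symbols
  have hs : (psk M l w w')[u.length]? = some s := by
    rw [← hu, hsP, List.getElem?_append_right (le_refl _), Nat.sub_self]
    rfl
  have hr : (psk M' l w' w)[v'.length]? = some r := by
    rw [← hv, List.append_assoc, List.getElem?_append_right (le_refl _), Nat.sub_self]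
    rfl
  rw [psk_get] at hs hr
  obtain ⟨sw, hsw⟩ : ∃ sw, w[u.length]? = some sw := by
    cases hw : w[u.length]? with
    | none =>
      rw [hw] at hs
      exact absurd hs (by simp)
    | some sw => exact ⟨sw, rfl⟩
  obtain ⟨rw', hrw⟩ : ∃ rw', w'[v'.length]? = some rw' := by
    cases hw : w'[v'.length]? with
    | none =>
      rw [hw] at hr
      exact absurd hr (by simp)
    | some rw' => exact ⟨rw', rfl⟩
  rw [hsw] at hs
  rw [hrw] at hr
  -- the leader is a variable
  have hvl : v'.length < w'.length := (List.getElem?_eq_some_iff.1 hrw).1
  have hps := pos_succ l w' v'.length hvl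
  rw [(List.getElem?_eq_some_iff.1 hrw).2] at hps
  cases rw' with
  | inl c =>
    exfalso
    have h3 : wl l (Sum.inl c : A ⊕ V) = 1 := rfl
    omega
  | inr x =>
    have hrx : r = Sum.inr x := by
      simpa using hr.symm
    have hkf := kept_follow l w w' M u.length v'.length (by omega) (by omega)
    unfold T1s
    by_cases hi : u.length ∈ M
    · rw [if_pos hi, List.getLast?_concat, hrx]
      simp only
      cases sw with
      | inl c =>
        rw [Finset.mem_union]
        left
        have hk : kept M l w w' u.length := hkf.2 hi
        have h3 : s = Sum.inl (some c) := by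
          simp only [Option.map_some, Sum.map_inl, hk, if_true, Option.some.injEq] at hs
          exact hs.symm
        rw [h3]
        exact Finset.mem_image_of_mem _ (Finset.mem_univ c)
      | inr y =>
        rw [Finset.mem_union]
        right
        have h3 : s = Sum.inr y := by
          simpa using hs.symm
        rw [h3]
        refine Finset.mem_image_of_mem _ (Finset.mem_erase.2 ⟨?_, Finset.mem_univ y⟩)
        intro hxy
        have hi' := hi
        rw [← hM] at hi'
        unfold mrk at hi'
        rw [Finset.mem_filter] at hi'
        obtain ⟨_, j, hj, hb, hlast, _⟩ := hi'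
        unfold blk at hb
        rw [Finset.mem_filter] at hb
        have h4 := cover_unique l w' (p := pos l w u.length) (i := j) (j := v'.length)
          (by omega) (by omega) (by omega) hb.2.2
        rw [h4] at hlast
        have h5 := pos_succ l w u.length hlen
        rw [(List.getElem?_eq_some_iff.1 hsw).2] at h5
        have h6 : wl l (Sum.inr y : A ⊕ V) = l y := rfl
        have h7 : wl l (Sum.inr x : A ⊕ V) = l x := rfl
        rw [hxy] at h6
        rw [hxy] at h5
        omega
    · rw [if_neg hi]
      cases sw with
      | inl c =>
        have hk : ¬ kept M l w w' u.length := fun h => hi (hkf.1 h)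
        have h3 : s = Sum.inl none := by
          simp only [Option.map_some, Sum.map_inl, hk, if_false, Option.some.injEq] at hs
          exact hs.symm
        rw [h3]
        exact Finset.mem_insert_self _ _
      | inr y =>
        have h3 : s = Sum.inr y := by
          simpa using hs.symm
        rw [h3]
        exact Finset.mem_insert_of_mem (Finset.mem_image_of_mem _ (Finset.mem_univ y))

/-- pairs of symbols of the first kind at a tie -/
def Tas (A V : Type) [Fintype A] [Fintype V] : Finset ((Option A ⊕ V) × (Option A ⊕ V)) :=
  (univ : Finset A).image (fun c => (Sum.inl (some c), Sum.inl (some c))) ∪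
    (univ : Finset (V × V)).image (fun q => (Sum.inr q.1, Sum.inr q.2))

/-- pairs of symbols of the second kind at a tie -/
def Tbs (A V : Type) [Fintype V] : Finset ((Option A ⊕ V) × (Option A ⊕ V)) :=
  (univ : Finset V).image (fun x => (Sum.inr x, Sum.inl none)) ∪
    (univ : Finset V).image (fun x => (Sum.inl none, Sum.inr x))

theorem Tas_card : (Tas A V).card ≤ Fintype.card A + Fintype.card V * Fintype.card V := by
  unfold Tas
  refine le_trans (Finset.card_union_le _ _) (le_trans (add_le_add Finset.card_image_le
    Finset.card_image_le) ?_)
  rw [Finset.card_univ, Finset.card_univ, Fintype.card_prod]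

theorem Tbs_card : (Tbs A V).card ≤ Fintype.card V + Fintype.card V := by
  unfold Tbs
  refine le_trans (Finset.card_union_le _ _) (le_trans (add_le_add Finset.card_image_le
    Finset.card_image_le) ?_)
  rw [Finset.card_univ]

/-- the step at a tie -/
theorem step_two (t n : ℕ) (l : V → ℕ) (hl : ∀ x, 1 ≤ l x) (M M' : Finset ℕ)
    (e : List (A ⊕ V) × List (A ⊕ V)) (he : Cls t n l M M' e)
    (u v P Q : List (Option A ⊕ V)) (hu : u ++ P = psk M l e.1 e.2)
    (hv : v ++ Q = psk M' l e.2 e.1) (h : fl l u = fl l v) :
    (P = [] ∧ Q = []) ∨ ∃ s r P' Q', P = s :: P' ∧ Q = r :: Q' ∧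
      ((s, r) ∈ Tas A V ∨ (s, r) ∈ Tbs A V) := by
  obtain ⟨hn, hM, hM', σ, hσ, hsol, heq⟩ := he
  obtain ⟨w, w'⟩ := e
  simp only at hn hM hM' hsol hu hv
  have hf : fl l w = fl l w' := by
    rw [← eqv_fl heq w w' (by omega) (by omega), ← ap_length, ← ap_length, hsol]
  have pu : pos l w u.length = fl l u := by
    rw [← pos_psk M l w w', ← hu]
    unfold pos
    rw [List.take_left]
  have pv : pos l w' v.length = fl l v := by
    rw [← pos_psk M' l w' w, ← hv]
    unfold pos
    rw [List.take_left]
  have lu : u.length + P.length = w.length := by
    have h3 := congrArg List.length hu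
    rw [List.length_append, psk_length] at h3
    exact h3
  have lv : v.length + Q.length = w'.length := by
    have h3 := congrArg List.length hv
    rw [List.length_append, psk_length] at h3
    exact h3
  -- both ended or none
  have hboth : u.length < w.length ↔ v.length < w'.length := by
    constructor
    · intro h3
      by_contra hc
      have h4 := pos_lt hl w h3 (le_refl _)
      rw [pos_len l w (le_refl _)] at h4
      have h5 := pos_len l w' (i := v.length) (by omega)
      omega
    · intro h3
      by_contra hc
      have h4 := pos_lt hl w' h3 (le_refl _)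
      rw [pos_len l w' (le_refl _)] at h4
      have h5 := pos_len l w (i := u.length) (by omega)
      omega
  by_cases hlen : u.length < w.length
  swap
  · left
    have hlen' : ¬ v.length < w'.length := fun h3 => hlen (hboth.2 h3)
    exact ⟨List.length_eq_zero_iff.1 (by omega), List.length_eq_zero_iff.1 (by omega)⟩
  right
  have hlen' := hboth.1 hlen
  have hPl : P ≠ [] := by
    intro hP
    rw [hP, List.length_nil] at lu
    omega
  have hQl : Q ≠ [] := by
    intro hQ
    rw [hQ, List.length_nil] at lv
    omega
  obtain ⟨s, P', hsP⟩ := List.exists_cons_of_ne_nil hPl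
  obtain ⟨r, Q', hrQ⟩ := List.exists_cons_of_ne_nil hQl
  refine ⟨s, r, P', Q', hsP, hrQ, ?_⟩
  have hs : (psk M l w w')[u.length]? = some s := by
    rw [← hu, hsP, List.getElem?_append_right (le_refl _), Nat.sub_self]
    rfl
  have hr : (psk M' l w' w)[v.length]? = some r := by
    rw [← hv, hrQ, List.getElem?_append_right (le_refl _), Nat.sub_self]
    rfl
  rw [psk_get, List.getElem?_eq_getElem hlen] at hs
  rw [psk_get, List.getElem?_eq_getElem hlen'] at hr
  have hpp : pos l w u.length = pos l w' v.length := by omega
  have kt1 := kept_tie t l hl w w' u.length v.length hlen' hpp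
  have kt2 := kept_tie t l hl w' w v.length u.length hlen hpp.symm
  rw [hM] at kt1
  rw [hM'] at kt2
  have gw : w[u.length]? = some w[u.length] := List.getElem?_eq_getElem hlen
  have gw' : w'[v.length]? = some w'[v.length] := List.getElem?_eq_getElem hlen'
  cases hsw : w[u.length] with
  | inl c =>
    cases hrw : w'[v.length] with
    | inl c' =>
      left
      rw [hsw] at hs gw
      rw [hrw] at hr gw'
      have k1 : kept M l w w' u.length := kt1.2 ⟨c', gw'⟩
      have k2 : kept M' l w' w v.length := kt2.2 ⟨c, gw⟩
      simp only [Option.map_some, Sum.map_inl, k1, if_true, Option.some.injEq] at hs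
      simp only [Option.map_some, Sum.map_inl, k2, if_true, Option.some.injEq] at hr
      have g1 := letter_get σ w u.length c gw
      have g2 := letter_get σ w' v.length c' gw'
      have g3 := (eqv_eq heq w w' (by omega) (by omega) u.length v.length).2 hpp
      rw [← hsol, ← g3, g1] at g2
      have g4 : c = c' := by simpa using g2
      unfold Tas
      rw [Finset.mem_union]
      left
      rw [← hs, ← hr, ← g4]
      exact Finset.mem_image.2 ⟨c, Finset.mem_univ c, rfl⟩
    | inr y =>
      right
      rw [hsw] at hs
      rw [hrw] at hr gw'
      have k1 : ¬ kept M l w w' u.length := by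
        intro h3
        obtain ⟨c', hc'⟩ := kt1.1 h3
        rw [gw'] at hc'
        exact absurd hc' (by simp)
      simp only [Option.map_some, Sum.map_inl, k1, if_false, Option.some.injEq] at hs
      have hr' : r = Sum.inr y := by simpa using hr.symm
      unfold Tbs
      rw [Finset.mem_union]
      right
      rw [← hs, hr']
      exact Finset.mem_image.2 ⟨y, Finset.mem_univ y, rfl⟩
  | inr x =>
    cases hrw : w'[v.length] with
    | inl c' =>
      right
      rw [hsw] at hs gw
      rw [hrw] at hr
      have k2 : ¬ kept M' l w' w v.length := by
        intro h3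
        obtain ⟨c, hc⟩ := kt2.1 h3
        rw [gw] at hc
        exact absurd hc (by simp)
      simp only [Option.map_some, Sum.map_inl, k2, if_false, Option.some.injEq] at hr
      have hs' : s = Sum.inr x := by simpa using hs.symm
      unfold Tbs
      rw [Finset.mem_union]
      left
      rw [← hr, hs']
      exact Finset.mem_image.2 ⟨x, Finset.mem_univ x, rfl⟩
    | inr y =>
      left
      rw [hsw] at hs
      rw [hrw] at hr
      have hs' : s = Sum.inr x := by simpa using hs.symm
      have hr' : r = Sum.inr y := by simpa using hr.symm
      unfold Tas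
      rw [Finset.mem_union]
      right
      rw [hs', hr']
      exact Finset.mem_image.2 ⟨(x, y), Finset.mem_univ _, rfl⟩

end

end

end Pool.Agent.WE
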