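import Pool.Agent.WE.Defs

/-! # Word equations: the tree lemma (row R3)

Pairs of words read symbol by symbol, the side that is behind reads next. -/

set_option autoImplicit false

namespace Pool.Agent.WE

open Classical

noncomputable section

/-- total length of a word, `l s` is the length of the symbol `s` -/
def tl11 {S : Type} (l : S → ℕ) (u : List S) : ℕ := (u.map l).sum

theorem tl11_nil {S : Type} (l : S → ℕ) : tl11 l [] = 0 := rfl

theorem tl11_append {S : Type} (l : S → ℕ) (u v : List S) : tl11 l (u ++ v) = tl11 l u + tl11 l v := by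
  unfold tl11
  rw [List.map_append, List.sum_append]

theorem tl11_cons {S : Type} (l : S → ℕ) (s : S) (v : List S) : tl11 l (s :: v) = l s + tl11 l v := by
  unfold tl11
  rw [List.map_cons, List.sum_cons]

theorem tl11_snoc {S : Type} (l : S → ℕ) (u : List S) (s : S) : tl11 l (u ++ [s]) = tl11 l u + l s := by
  rw [tl11_append, tl11_cons, tl11_nil, add_zero]

/-- the invariant of the reading order -/
def Inv11 {S : Type} (l : S → ℕ) (u v : List S) : Prop :=
  tl11 l u = tl11 l v ∨
    (tl11 l u < tl11 l v ∧ ∃ v' r, v = v' ++ [r] ∧ tl11 l v' < tl11 l u) ∨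
    (tl11 l v < tl11 l u ∧ ∃ u' r, u = u' ++ [r] ∧ tl11 l u' < tl11 l v)

theorem Inv11.nil {S : Type} (l : S → ℕ) : Inv11 l [] [] := Or.inl rfl

theorem Inv11.both {S : Type} {l : S → ℕ} (hl : ∀ s, 1 ≤ l s) {u v : List S}
    (h : tl11 l u = tl11 l v) (s t : S) : Inv11 l (u ++ [s]) (v ++ [t]) := by
  unfold Inv11
  rw [tl11_snoc, tl11_snoc]
  have h1 := hl s
  have h2 := hl t
  rcases lt_trichotomy (l s) (l t) with h3 | h3 | h3
  · exact Or.inr (Or.inl ⟨by omega, v, t, rfl, by omega⟩)
  · exact Or.inl (by omega)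
  · exact Or.inr (Or.inr ⟨by omega, u, s, rfl, by omega⟩)

theorem Inv11.left {S : Type} {l : S → ℕ} (hl : ∀ s, 1 ≤ l s) {u v : List S}
    (h : Inv11 l u v) (h' : tl11 l u < tl11 l v) (s : S) : Inv11 l (u ++ [s]) v := by
  have h1 := hl s
  unfold Inv11 at h ⊢
  rw [tl11_snoc]
  obtain ⟨v', r, hv, hv'⟩ : ∃ v' r, v = v' ++ [r] ∧ tl11 l v' < tl11 l u := by
    rcases h with h | ⟨_, h⟩ | ⟨h, _⟩
    · omega
    · exact h
    · omega
  rcases lt_trichotomy (tl11 l u + l s) (tl11 l v) with h3 | h3 | h3
  · exact Or.inr (Or.inl ⟨h3, v', r, hv, by omega⟩)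
  · exact Or.inl h3
  · exact Or.inr (Or.inr ⟨h3, u, s, rfl, h'⟩)

theorem Inv11.symm {S : Type} {l : S → ℕ} {u v : List S} (h : Inv11 l u v) : Inv11 l v u := by
  rcases h with h | h | h
  · exact Or.inl h.symm
  · exact Or.inr (Or.inr h)
  · exact Or.inr (Or.inl h)

theorem Inv11.right {S : Type} {l : S → ℕ} (hl : ∀ s, 1 ≤ l s) {u v : List S}
    (h : Inv11 l u v) (h' : tl11 l v < tl11 l u) (t : S) : Inv11 l u (v ++ [t]) :=
  (h.symm.left hl h' t).symm

/-- **the tree lemma**, generic form -/
theorem tree_gen11 {S : Type} (l : S → ℕ) (hl : ∀ s, 1 ≤ l s) (b : ℝ) (hb : 1 ≤ b)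
    (T2 : List S → List S → Finset (S × S)) (T1 T1' : List S → List S → Finset S)
    (hT2 : ∀ u v, ((T2 u v).card : ℝ) ≤ b ^ 2) (hT1 : ∀ u v, ((T1 u v).card : ℝ) ≤ b)
    (hT1' : ∀ u v, ((T1' u v).card : ℝ) ≤ b)
    (X : Finset (List S × List S)) (n : ℕ) (hn : ∀ p ∈ X, p.1.length + p.2.length = n)
    (t0 : ∀ u v P Q, (u ++ P, v ++ Q) ∈ X → Inv11 l u v → tl11 l u = tl11 l v →
      (P = [] ∧ Q = []) ∨ ∃ s t P' Q', P = s :: P' ∧ Q = t :: Q' ∧ (s, t) ∈ T2 u v)
    (t1 : ∀ u v P Q, (u ++ P, v ++ Q) ∈ X → Inv11 l u v → tl11 l u < tl11 l v →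
      ∃ s P', P = s :: P' ∧ s ∈ T1 u v)
    (t2 : ∀ u v P Q, (u ++ P, v ++ Q) ∈ X → Inv11 l u v → tl11 l v < tl11 l u →
      ∃ t Q', Q = t :: Q' ∧ t ∈ T1' u v) :
    (X.card : ℝ) ≤ b ^ n := by
  have hb0 : 0 ≤ b := by linarith
  set F : List S → List S → Finset (List S × List S) := fun u v =>
    X.filter (fun p => u <+: p.1 ∧ v <+: p.2) with hF
  have hmem : ∀ u v p, p ∈ F u v ↔ p ∈ X ∧ ∃ P Q, p = (u ++ P, v ++ Q) := by
    intro u v p
    simp only [hF, Finset.mem_filter]
    constructor
    · rintro ⟨h1, ⟨P, hP⟩, ⟨Q, hQ⟩⟩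
      exact ⟨h1, P, Q, by rw [hP, hQ]⟩
    · rintro ⟨h1, P, Q, rfl⟩
      exact ⟨h1, ⟨P, rfl⟩, ⟨Q, rfl⟩⟩
  have key : ∀ k : ℕ, ∀ u v, Inv11 l u v → u.length + v.length + k = n →
      ((F u v).card : ℝ) ≤ b ^ k := by
    intro k
    induction k using Nat.strong_induction_on with
    | _ k ih =>
      intro u v hI hk
      rcases lt_trichotomy (tl11 l u) (tl11 l v) with h | h | h
      · -- the left side reads
        rcases (F u v).eq_empty_or_nonempty with h0 | ⟨p, hp⟩
        · rw [h0, Finset.card_empty]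
          push_cast
          positivity
        have hk1 : 1 ≤ k := by
          obtain ⟨h1, P, Q, rfl⟩ := (hmem u v p).1 hp
          obtain ⟨s, P', hP, _⟩ := t1 u v P Q h1 hI h
          have := hn _ h1
          simp only [List.length_append, hP, List.length_cons] at this
          omega
        have hsub : F u v ⊆ (T1 u v).biUnion (fun s => F (u ++ [s]) v) := by
          intro p hp
          obtain ⟨h1, P, Q, rfl⟩ := (hmem u v p).1 hp
          obtain ⟨s, P', hP, hs⟩ := t1 u v P Q h1 hI h
          rw [Finset.mem_biUnion]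
          refine ⟨s, hs, (hmem _ _ _).2 ⟨h1, P', Q, ?_⟩⟩
          rw [hP, List.append_assoc, List.singleton_append]
        have h2 : ((F u v).card : ℝ) ≤ ((T1 u v).card : ℝ) * b ^ (k - 1) := by
          have h3 : (F u v).card ≤ ∑ s ∈ T1 u v, (F (u ++ [s]) v).card :=
            (Finset.card_le_card hsub).trans Finset.card_biUnion_le
          have h4 : ((F u v).card : ℝ) ≤ ∑ s ∈ T1 u v, ((F (u ++ [s]) v).card : ℝ) := by
            exact_mod_cast h3
          refine h4.trans ?_
          have := Finset.sum_le_card_nsmul (T1 u v) (fun s => ((F (u ++ [s]) v).card : ℝ))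
            (b ^ (k - 1)) (fun s _ => ih (k - 1) (by omega) (u ++ [s]) v (hI.left hl h s)
              (by rw [List.length_append, List.length_singleton]; omega))
          rwa [nsmul_eq_mul] at this
        refine h2.trans ?_
        have h5 : b ^ k = b * b ^ (k - 1) := by
          rw [← pow_succ']
          congr 1
          omega
        rw [h5]
        exact mul_le_mul_of_nonneg_right (hT1 u v) (by positivity)
      · -- both sides read
        by_cases hk0 : k = 0
        · subst hk0
          have hsub : F u v ⊆ {(u, v)} := by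
            intro p hp
            obtain ⟨h1, P, Q, rfl⟩ := (hmem u v p).1 hp
            have := hn _ h1
            simp only [List.length_append] at this
            have hP : P = [] := List.length_eq_zero_iff.1 (by omega)
            have hQ : Q = [] := List.length_eq_zero_iff.1 (by omega)
            rw [hP, hQ, List.append_nil, List.append_nil, Finset.mem_singleton]
          have := Finset.card_le_card hsub
          rw [Finset.card_singleton] at this
          rw [pow_zero]
          exact_mod_cast this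
        rcases (F u v).eq_empty_or_nonempty with h0 | ⟨p, hp⟩
        · rw [h0, Finset.card_empty]
          push_cast
          positivity
        have hstep : ∀ P Q, (u ++ P, v ++ Q) ∈ X →
            ∃ s t P' Q', P = s :: P' ∧ Q = t :: Q' ∧ (s, t) ∈ T2 u v := by
          intro P Q h1
          rcases t0 u v P Q h1 hI h with ⟨hP, hQ⟩ | h2
          · exfalso
            have := hn _ h1
            simp only [List.length_append, hP, hQ, List.length_nil] at this
            omega
          · exact h2
        have hk2 : 2 ≤ k := by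
          obtain ⟨h1, P, Q, rfl⟩ := (hmem u v p).1 hp
          obtain ⟨s, t, P', Q', hP, hQ, _⟩ := hstep P Q h1
          have := hn _ h1
          simp only [List.length_append, hP, hQ, List.length_cons] at this
          omega
        have hsub : F u v ⊆ (T2 u v).biUnion (fun s => F (u ++ [s.1]) (v ++ [s.2])) := by
          intro p hp
          obtain ⟨h1, P, Q, rfl⟩ := (hmem u v p).1 hp
          obtain ⟨s, t, P', Q', hP, hQ, hs⟩ := hstep P Q h1
          rw [Finset.mem_biUnion]
          refine ⟨(s, t), hs, (hmem _ _ _).2 ⟨h1, P', Q', ?_⟩⟩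
          rw [hP, hQ, List.append_assoc, List.singleton_append, List.append_assoc,
            List.singleton_append]
        have h2 : ((F u v).card : ℝ) ≤ ((T2 u v).card : ℝ) * b ^ (k - 2) := by
          have h3 : (F u v).card ≤ ∑ s ∈ T2 u v, (F (u ++ [s.1]) (v ++ [s.2])).card :=
            (Finset.card_le_card hsub).trans Finset.card_biUnion_le
          have h4 : ((F u v).card : ℝ) ≤
              ∑ s ∈ T2 u v, ((F (u ++ [s.1]) (v ++ [s.2])).card : ℝ) := by
            exact_mod_cast h3
          refine h4.trans ?_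
          have := Finset.sum_le_card_nsmul (T2 u v)
            (fun s => ((F (u ++ [s.1]) (v ++ [s.2])).card : ℝ))
            (b ^ (k - 2)) (fun s _ => ih (k - 2) (by omega) (u ++ [s.1]) (v ++ [s.2])
              (Inv11.both hl h s.1 s.2)
              (by rw [List.length_append, List.length_singleton, List.length_append,
                List.length_singleton]; omega))
          rwa [nsmul_eq_mul] at this
        refine h2.trans ?_
        have h5 : b ^ k = b ^ 2 * b ^ (k - 2) := by
          rw [← pow_add]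
          congr 1
          omega
        rw [h5]
        exact mul_le_mul_of_nonneg_right (hT2 u v) (by positivity)
      · -- the right side reads
        rcases (F u v).eq_empty_or_nonempty with h0 | ⟨p, hp⟩
        · rw [h0, Finset.card_empty]
          push_cast
          positivity
        have hk1 : 1 ≤ k := by
          obtain ⟨h1, P, Q, rfl⟩ := (hmem u v p).1 hp
          obtain ⟨s, P', hP, _⟩ := t2 u v P Q h1 hI h
          have := hn _ h1
          simp only [List.length_append, hP, List.length_cons] at this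
          omega
        have hsub : F u v ⊆ (T1' u v).biUnion (fun s => F u (v ++ [s])) := by
          intro p hp
          obtain ⟨h1, P, Q, rfl⟩ := (hmem u v p).1 hp
          obtain ⟨s, Q', hQ, hs⟩ := t2 u v P Q h1 hI h
          rw [Finset.mem_biUnion]
          refine ⟨s, hs, (hmem _ _ _).2 ⟨h1, P, Q', ?_⟩⟩
          rw [hQ, List.append_assoc, List.singleton_append]
        have h2 : ((F u v).card : ℝ) ≤ ((T1' u v).card : ℝ) * b ^ (k - 1) := by
          have h3 : (F u v).card ≤ ∑ s ∈ T1' u v, (F u (v ++ [s])).card :=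
            (Finset.card_le_card hsub).trans Finset.card_biUnion_le
          have h4 : ((F u v).card : ℝ) ≤ ∑ s ∈ T1' u v, ((F u (v ++ [s])).card : ℝ) := by
            exact_mod_cast h3
          refine h4.trans ?_
          have := Finset.sum_le_card_nsmul (T1' u v) (fun s => ((F u (v ++ [s])).card : ℝ))
            (b ^ (k - 1)) (fun s _ => ih (k - 1) (by omega) u (v ++ [s]) (hI.right hl h s)
              (by rw [List.length_append, List.length_singleton]; omega))
          rwa [nsmul_eq_mul] at this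
        refine h2.trans ?_
        have h5 : b ^ k = b * b ^ (k - 1) := by
          rw [← pow_succ']
          congr 1
          omega
        rw [h5]
        exact mul_le_mul_of_nonneg_right (hT1' u v) (by positivity)
  have h1 := key n [] [] (Inv11.nil l) (by simp)
  have h2 : F [] [] = X := by
    simp only [hF]
    apply Finset.filter_true_of_mem
    intro p _
    exact ⟨List.nil_prefix, List.nil_prefix⟩
  rwa [h2] at h1

/-! ### The form of the blueprint -/

def Inv {B V : Type} (l : V → ℕ) (u v : List (B ⊕ V)) : Prop :=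
  fl l u = fl l v ∨ (fl l u < fl l v ∧ ∃ v' r, v = v' ++ [r] ∧ fl l v' < fl l u) ∨
    (fl l v < fl l u ∧ ∃ u' r, u = u' ++ [r] ∧ fl l u' < fl l v)

theorem tree {B V : Type} (l : V → ℕ) (hl : ∀ x, 1 ≤ l x) (n : ℕ)
    (X : Set (List (B ⊕ V) × List (B ⊕ V))) (hX : ∀ e ∈ X, e.1.length + e.2.length = n)
    (hfin : X.Finite) (b : ℝ) (hb : 1 ≤ b) (T2 : Finset ((B ⊕ V) × (B ⊕ V)))
    (h2 : (T2.card : ℝ) ≤ b ^ 2) (T1 T1' : List (B ⊕ V) → List (B ⊕ V) → Finset (B ⊕ V))
    (h1 : ∀ u v, ((T1 u v).card : ℝ) ≤ b) (h1' : ∀ u v, ((T1' u v).card : ℝ) ≤ b)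
    (t0 : ∀ u v P Q, (u ++ P, v ++ Q) ∈ X → fl l u = fl l v →
      (P = [] ∧ Q = []) ∨ ∃ s t P' Q', P = s :: P' ∧ Q = t :: Q' ∧ (s, t) ∈ T2)
    (t1 : ∀ u v P Q, (u ++ P, v ++ Q) ∈ X → Inv l u v → fl l u < fl l v →
      ∃ s P', P = s :: P' ∧ s ∈ T1 u v)
    (t1' : ∀ u v P Q, (u ++ P, v ++ Q) ∈ X → Inv l u v → fl l v < fl l u →
      ∃ s Q', Q = s :: Q' ∧ s ∈ T1' u v) :
    (X.ncard : ℝ) ≤ b ^ n := by
  rw [Set.ncard_eq_toFinset_card X hfin]
  have hwl : ∀ s : B ⊕ V, 1 ≤ wl l s := by
    rintro (c | x)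
    · exact le_refl 1
    · exact hl x
  refine tree_gen11 (wl l) hwl b hb (fun _ _ => T2) T1 T1' (fun _ _ => h2) h1 h1' hfin.toFinset n
    ?_ ?_ ?_ ?_
  · intro p hp
    exact hX p (hfin.mem_toFinset.1 hp)
  · intro u v P Q hm _ h
    exact t0 u v P Q (hfin.mem_toFinset.1 hm) h
  · intro u v P Q hm hI h
    exact t1 u v P Q (hfin.mem_toFinset.1 hm) hI h
  · intro u v P Q hm hI h
    exact t1' u v P Q (hfin.mem_toFinset.1 hm) hI h

end

end Pool.Agent.WE
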